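import Pool.Agent.Helper95.AM.Defs

set_option autoImplicit false

/-! # AM-01: chord maps reverse the orientation of triples

Write `x' = chord K u x`, `h x = cross u x` (so `h x' = h x`, `cross_chord`), and
`tri p q r = cross (q - p) (r - p)`; `tri` is antisymmetric in `p, q, r` (`unfold cross; ring`), and it is `≠ 0` for
distinct points of the frontier (`cross_ne_zero_of_distinct`).  Distinct points have distinct images
(`chord_chord`).

`tri_sorted`: let `h p ≤ h r ≤ h q`, `h p < h q`, `l = (h r - h p) / (h q - h p) ∈ [0, 1]`.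
`w = (1 - l) • p + l • q ∈ K` has `h w = h r`, and `w' = (1 - l) • p' + l • q' ∈ K` too.  By
`mem_segment_chord` (Chord/Basic.lean, read its statement) `w` and `w'` lie on the segment from `r` to `r'`:
`w = r + β s u`, `w' = r + β' s u`, where `r' = r + s u` (`chord_line`) and `β, β' ∈ [0, 1]`.
So `r - w = - β s u`, `r' - w' = (1 - β') s u`, and `tri p q r = cross (q - p) (r - w)` (because
`cross (q - p) (w - p) = 0`) `= - β s cross (q - p) u = β s (h q - h p)`, while
`tri p' q' r' = cross (q' - p') (r' - w') = (1 - β') s cross (q' - p') u = - (1 - β') s (h q - h p)`.  The product is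
`- β (1 - β') s² (h q - h p)² ≤ 0`, and it is not zero.

`tri_chord`: not all three heights are equal (`eq_of_cross_eq` in Flow.lean: at most two points of the
frontier on a line parallel to `u`).  Sort the three points by height; the product
`tri x y z * tri x' y' z'` does not change when the points are permuted. -/

namespace ChordMaps

variable {K : Set Plane} {u p q r x y z : Plane}

private lemma a01_chord_ne (hK : SBody K) (hx : x ∈ frontier K) (hy : y ∈ frontier K)
    (hxy : x ≠ y) : chord K u x ≠ chord K u y := by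
  intro h
  apply hxy
  rw [← chord_chord (u := u) hK.cpt.isClosed hK.str hx, h,
    chord_chord (u := u) hK.cpt.isClosed hK.str hy]

private lemma a01_prod_ne (hK : SBody K) (hp : p ∈ frontier K) (hq : q ∈ frontier K)
    (hr : r ∈ frontier K) (hpq : p ≠ q) (hpr : p ≠ r) (hqr : q ≠ r) :
    cross (q - p) (r - p) *
      cross (chord K u q - chord K u p) (chord K u r - chord K u p) ≠ 0 := by
  refine mul_ne_zero ?_ ?_
  · exact cross_ne_zero_of_distinct hK.cpt.isClosed hK.str hp hq hr hpq hpr.symm hqr.symm
  · exact cross_ne_zero_of_distinct hK.cpt.isClosed hK.str (chord_mem hp) (chord_mem hq)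
      (chord_mem hr) (a01_chord_ne hK hp hq hpq) (a01_chord_ne hK hp hr hpr).symm
      (a01_chord_ne hK hq hr hqr).symm

private lemma a01_seg (hK : SBody K) (hu : u ≠ 0) {a b : Plane} (ha : a ∈ K) (hb : b ∈ K)
    (hr : r ∈ frontier K) {l s : ℝ} (hl0 : 0 ≤ l) (hl1 : l ≤ 1)
    (hs : chord K u r = r + s • u)
    (hh : cross u ((1 - l) • a + l • b) = cross u r) :
    ∃ β : ℝ, 0 ≤ β ∧ β ≤ 1 ∧ (1 - l) • a + l • b = r + (β * s) • u := by
  have hw : (1 - l) • a + l • b ∈ K :=
    hK.str.convex ha hb (by linarith) hl0 (by ring)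
  obtain ⟨c, β, hc, hβ, hcβ, hseg⟩ := mem_segment_chord hK.cpt hK.str hu hr hw hh
  refine ⟨β, hβ, by linarith, ?_⟩
  rw [← hseg, hs, smul_add, ← add_assoc, ← add_smul, hcβ, one_smul, smul_smul]

theorem tri_sorted (hK : SBody K) (hu : u ≠ 0) (hp : p ∈ frontier K) (hq : q ∈ frontier K)
    (hr : r ∈ frontier K) (hpq : p ≠ q) (hpr : p ≠ r) (hqr : q ≠ r)
    (h1 : cross u p ≤ cross u r) (h2 : cross u r ≤ cross u q) (h3 : cross u p < cross u q) :
    cross (q - p) (r - p) *
      cross (chord K u q - chord K u p) (chord K u r - chord K u p) < 0 := by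
  have hne := a01_prod_ne (u := u) hK hp hq hr hpq hpr hqr
  refine lt_of_le_of_ne ?_ hne
  have hcl := hK.cpt.isClosed
  obtain ⟨s, hs⟩ := chord_line K u r
  set D : ℝ := cross u q - cross u p with hD
  have hD0 : 0 < D := by rw [hD]; linarith
  set l : ℝ := (cross u r - cross u p) / D with hl
  have hl0 : 0 ≤ l := div_nonneg (by linarith) hD0.le
  have hl1 : l ≤ 1 := by
    rw [hl, div_le_one hD0, hD]; linarith
  have hlD : l * D = cross u r - cross u p := by
    rw [hl]; field_simp
  have hh1 : cross u ((1 - l) • p + l • q) = cross u r := by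
    rw [cross_add_right, cross_smul_right, cross_smul_right]
    have : l * D = l * cross u q - l * cross u p := by rw [hD]; ring
    linarith
  have hh2 : cross u ((1 - l) • chord K u p + l • chord K u q) = cross u r := by
    rw [cross_add_right, cross_smul_right, cross_smul_right, cross_chord, cross_chord]
    have : l * D = l * cross u q - l * cross u p := by rw [hD]; ring
    linarith
  obtain ⟨β, hβ0, hβ1, hβ⟩ := a01_seg hK hu (hcl.frontier_subset hp) (hcl.frontier_subset hq) hr
    hl0 hl1 hs hh1
  obtain ⟨β', hβ'0, hβ'1, hβ'⟩ := a01_seg hK hu (hcl.frontier_subset (chord_mem hp))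
    (hcl.frontier_subset (chord_mem hq)) hr hl0 hl1 hs hh2
  have hc1 := cross_chord K u p
  have hc2 := cross_chord K u q
  rw [hs]
  generalize chord K u p = p' at *
  generalize chord K u q = q' at *
  have e0 := congrArg (fun v : Plane => v 0) hβ
  have e1 := congrArg (fun v : Plane => v 1) hβ
  have f0 := congrArg (fun v : Plane => v 0) hβ'
  have f1 := congrArg (fun v : Plane => v 1) hβ'
  simp only [PiLp.add_apply, PiLp.smul_apply, smul_eq_mul] at e0 e1 f0 f1
  have k1 : cross (q - p) (r - p) = β * s * D := by
    rw [hD]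
    simp only [cross, PiLp.sub_apply]
    linear_combination (q 1 - p 1) * e0 - (q 0 - p 0) * e1
  have k2 : cross (q' - p') (r + s • u - p') = -((1 - β') * s * D) := by
    have hDD : D = cross u q' - cross u p' := by rw [hD, hc1, hc2]
    rw [hDD]
    simp only [cross, PiLp.sub_apply, PiLp.add_apply, PiLp.smul_apply, smul_eq_mul]
    linear_combination (q' 1 - p' 1) * f0 - (q' 0 - p' 0) * f1
  rw [k1, k2]
  have : 0 ≤ β * (1 - β') * (s * D) ^ 2 :=
    mul_nonneg (mul_nonneg hβ0 (by linarith)) (sq_nonneg _)
  nlinarith [this]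

private lemma a01_three (hK : SBody K) (hu : u ≠ 0) (hx : x ∈ frontier K)
    (hy : y ∈ frontier K) (hz : z ∈ frontier K) (hxy : x ≠ y) (hxz : x ≠ z) (hyz : y ≠ z) :
    ¬ (cross u y = cross u x ∧ cross u z = cross u x) := by
  rintro ⟨h1, h2⟩
  have k1 := eq_of_cross_eq hK.cpt.isClosed hK.str hu hx hy h1
  have k2 := eq_of_cross_eq hK.cpt.isClosed hK.str hu hx hz h2
  rcases k1 with k1 | k1
  · exact hxy k1.symm
  · rcases k2 with k2 | k2
    · exact hxz k2.symm
    · exact hyz (by rw [k1, k2])

theorem tri_chord (hK : SBody K) (hu : u ≠ 0) (hx : x ∈ frontier K) (hy : y ∈ frontier K)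
    (hz : z ∈ frontier K) (hxy : x ≠ y) (hxz : x ≠ z) (hyz : y ≠ z) :
    cross (y - x) (z - x) *
      cross (chord K u y - chord K u x) (chord K u z - chord K u x) < 0 := by
  have h3 := a01_three hK hu hx hy hz hxy hxz hyz
  have sw : ∀ a b c : Plane, cross (b - a) (c - a) = - cross (c - a) (b - a) := by
    intro a b c; simp only [cross, PiLp.sub_apply]; ring
  have ro : ∀ a b c : Plane, cross (b - a) (c - a) = cross (c - b) (a - b) := by
    intro a b c; simp only [cross, PiLp.sub_apply]; ring
  rcases le_total (cross u x) (cross u y) with a | a <;>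
    rcases le_total (cross u y) (cross u z) with b | b <;>
    rcases le_total (cross u x) (cross u z) with c | c
  · -- x ≤ y ≤ z
    have hlt : cross u x < cross u z := by
      refine lt_of_le_of_ne c fun e => h3 ⟨by linarith, by linarith⟩
    have := tri_sorted hK hu hx hz hy hxz hxy hyz.symm a b hlt
    rw [sw x y z, sw (chord K u x) (chord K u y) (chord K u z), neg_mul_neg]
    exact this
  · exact absurd ⟨by linarith, by linarith⟩ h3
  · -- x ≤ z ≤ y
    have hlt : cross u x < cross u y := by
      refine lt_of_le_of_ne a fun e => h3 ⟨by linarith, by linarith⟩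
    exact tri_sorted hK hu hx hy hz hxy hxz hyz c b hlt
  · -- z ≤ x ≤ y
    have hlt : cross u z < cross u y := by
      refine lt_of_le_of_ne b fun e => h3 ⟨by linarith, by linarith⟩
    have := tri_sorted hK hu hz hy hx hyz.symm hxz.symm hxy.symm c a hlt
    rw [sw x y z, sw (chord K u x) (chord K u y) (chord K u z), neg_mul_neg,
      ro x z y, ro (chord K u x) (chord K u z) (chord K u y)]
    exact this
  · -- y ≤ x ≤ z
    have hlt : cross u y < cross u z := by
      refine lt_of_le_of_ne b fun e => h3 ⟨by linarith, by linarith⟩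
    have := tri_sorted hK hu hy hz hx hyz hxy.symm hxz.symm a c hlt
    rw [ro x y z, ro (chord K u x) (chord K u y) (chord K u z)]
    exact this
  · -- y ≤ z ≤ x
    have hlt : cross u y < cross u x := by
      refine lt_of_le_of_ne a fun e => h3 ⟨by linarith, by linarith⟩
    have := tri_sorted hK hu hy hx hz hxy.symm hyz hxz b c hlt
    rw [sw x y z, sw (chord K u x) (chord K u y) (chord K u z), neg_mul_neg]
    rw [← ro z y x, ← ro (chord K u z) (chord K u y) (chord K u x)] at this
    rw [ro x z y, ro (chord K u x) (chord K u z) (chord K u y)]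
    exact this
  · exact absurd ⟨by linarith, by linarith⟩ h3
  · -- z ≤ y ≤ x
    have hlt : cross u z < cross u x := by
      refine lt_of_le_of_ne c fun e => h3 ⟨by linarith, by linarith⟩
    have := tri_sorted hK hu hz hx hy hxz.symm hyz.symm hxy b a hlt
    rw [← ro y z x, ← ro (chord K u y) (chord K u z) (chord K u x)] at this
    rw [ro x y z, ro (chord K u x) (chord K u y) (chord K u z)]
    exact this

end ChordMaps
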