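import Pool.Agent.Helper95.AM.A01

set_option autoImplicit false

/-! # AM-02: arcs

* `arc_measurable`: intersection of a closed set (the frontier) and an open one (continuity of `cross`).
* `arc_frontier` : for `x ≠ y` every point of the frontier other than `x, y` has `cross (y - x) (z - x) ≠ 0`
  (`cross_ne_zero_of_distinct`); the arc from `y` to `x` is `cross (x - y) (z - y) < 0`, and
  `cross (x - y) (z - y) = - cross (y - x) (z - x)` (`unfold cross; ring`).
* `arc_split`: for `0 < cross (y - x) (z - x)` (so that `x, y, z` is counterclockwise): let `w` be a point of the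
  frontier different from `x, y, z`.  `quad_left`, `quad_right`, `tang_pos`, `tang_spec` (LS/L21, LS/L01) may help;
  or directly: with `D = cross (y - x) (z - x) > 0`, `α = tri w y z / D`, `β = tri x w z / D`,
  `γ = tri x y w / D` one has `w = α x + β y + γ z`, `α + β + γ = 1` (`tri p q r = cross (q - p) (r - p)`).
  Membership: `w ∈ arc x z ↔ tri x z w < 0 ↔ β > 0`... precisely `tri x z w = - tri x w z = - β D`, so
  `w ∈ arc K x z ↔ 0 < β`; `w ∈ arc K x y ↔ γ < 0`; `w ∈ arc K y z ↔ tri y z w < 0 ↔ α < 0`.  None of
  `α, β, γ` is `0` (three distinct points of the frontier are not collinear).  Claim: exactly one of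
  `α, β, γ` is negative.  Not all are positive (then `w` is in the interior of the triangle, so in `interior K`
  by strict convexity).  If two are negative, e.g. `α, γ < 0`, then `β > 1` and
  `y = (1/β) w + (-α/β) x + (-γ/β) z` is a proper convex combination, so `y ∈ interior K`, contradiction;
  similarly for the other pairs.  (A convex combination with positive weights of three distinct points of `K`
  lies in `interior K`: apply `StrictConvex` to two of them, the result is in the interior, then
  `Convex.combo_interior_self_mem_interior` or strict convexity again, the two points being different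
  because an interior point is not a frontier point.)  Hence `0 < β ↔ (γ < 0 or α < 0)`, never both.
  `y ∈ arc K x z` since `tri x z y = - D < 0`.
* `arc_chord`: by `tri_chord` (AM-01), for `z ≠ x, y`: `tri (f y) (f x) (f z)` has the sign of `tri x y z`; apply
  this with `z` replaced by `f z` etc.; `f` is an involution of the frontier (`chord_chord`, `chord_mem`). The
  points `z` with `f z ∈ {x, y}` are in neither set (`cross_self`). -/

namespace ChordMaps

variable {K : Set Plane} {u x y z w : Plane}

/-- no boundary point is a proper convex combination of three boundary points -/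
private lemma a02_no_combo (hK : SBody K) {p q r s : Plane} (hp : p ∈ frontier K)
    (hq : q ∈ frontier K) (hr : r ∈ frontier K) (hs : s ∈ frontier K) (hpq : p ≠ q)
    {a b c d : ℝ} (ha : 0 < a) (hb : 0 < b) (hc : 0 < c) (hd : a + b + c = d)
    (h : a • p + b • q + c • r = d • s) : False := by
  have hcl := hK.clo
  have hab : 0 < a + b := by linarith
  have hd0 : 0 < d := by linarith
  have hm : (a / (a + b)) • p + (b / (a + b)) • q ∈ interior K :=
    hK.str (hcl.frontier_subset hp) (hcl.frontier_subset hq) hpq (by positivity) (by positivity)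
      (by field_simp)
  have hne : (a / (a + b)) • p + (b / (a + b)) • q ≠ r := by
    intro h1
    rw [h1] at hm
    exact frontier_notMem_interior hr hm
  have hs' : ((a + b) / d) • ((a / (a + b)) • p + (b / (a + b)) • q) + (c / d) • r ∈
      interior K :=
    hK.str (interior_subset hm) (hcl.frontier_subset hr) hne (by positivity) (by positivity)
      (by rw [← add_div, hd, div_self hd0.ne'])
  have he : ((a + b) / d) • ((a / (a + b)) • p + (b / (a + b)) • q) + (c / d) • r = s := by
    have h1 : ((a + b) / d) • ((a / (a + b)) • p + (b / (a + b)) • q) + (c / d) • r =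
        (1 / d) • (a • p + b • q + c • r) := by
      simp only [smul_add, smul_smul]
      congr 1
      · congr 1
        · congr 1
          field_simp
        · congr 1
          field_simp
      · congr 1
        field_simp
    rw [h1, h, smul_smul, one_div, inv_mul_cancel₀ hd0.ne', one_smul]
  rw [he] at hs'
  exact frontier_notMem_interior hs hs'

/-- barycentric coordinates -/
private lemma a02_bary (x y z w : Plane) :
    cross (y - w) (z - w) • x + cross (w - x) (z - x) • y + cross (y - x) (w - x) • z =
      cross (y - x) (z - x) • w := by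
  ext i
  fin_cases i <;>
  · simp only [cross, PiLp.add_apply, PiLp.smul_apply, PiLp.sub_apply, smul_eq_mul, Fin.zero_eta,
      Fin.mk_one, Fin.isValue]
    ring

theorem arc_measurable (K : Set Plane) (x y : Plane) : MeasurableSet (arc K x y) := by
  have h1 : MeasurableSet {z : Plane | cross (y - x) (z - x) < 0} := by
    refine (isOpen_lt ?_ continuous_const).measurableSet
    exact continuous_cross.comp (continuous_const.prodMk (continuous_id.sub continuous_const))
  exact isClosed_frontier.measurableSet.inter h1

theorem arc_subset (K : Set Plane) (x y : Plane) : arc K x y ⊆ frontier K := fun _ h => h.1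

theorem arc_frontier (hK : SBody K) (hx : x ∈ frontier K) (hy : y ∈ frontier K) (hxy : x ≠ y) :
    frontier K = (arc K x y ∪ arc K y x) ∪ ({x} ∪ {y}) := by
  ext z
  simp only [Set.mem_union, Set.mem_singleton_iff]
  constructor
  · intro hz
    by_cases hzx : z = x
    · exact Or.inr (Or.inl hzx)
    by_cases hzy : z = y
    · exact Or.inr (Or.inr hzy)
    left
    have h1 := cross_ne_zero_of_distinct hK.clo hK.str hx hy hz hxy hzx hzy
    rcases lt_or_gt_of_ne h1 with h2 | h2
    · exact Or.inl ⟨hz, h2⟩
    · refine Or.inr ⟨hz, ?_⟩
      have h3 : cross (x - y) (z - y) = - cross (y - x) (z - x) := by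
        simp only [cross, PiLp.sub_apply]
        ring
      rw [h3]
      linarith
  · rintro ((h | h) | (h | h))
    · exact h.1
    · exact h.1
    · exact h ▸ hx
    · exact h ▸ hy

theorem arc_disjoint (K : Set Plane) (x y : Plane) : Disjoint (arc K x y) (arc K y x) := by
  rw [Set.disjoint_left]
  rintro z ⟨_, h1⟩ ⟨_, h2⟩
  have h3 : cross (x - y) (z - y) = - cross (y - x) (z - x) := by
    simp only [cross, PiLp.sub_apply]
    ring
  rw [h3] at h2
  linarith

theorem left_notMem_arc (K : Set Plane) (x y : Plane) : x ∉ arc K x y := by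
  rintro ⟨_, h⟩
  have h1 : cross (y - x) (x - x) = 0 := by
    simp only [cross, PiLp.sub_apply]
    ring
  linarith

theorem right_notMem_arc (K : Set Plane) (x y : Plane) : y ∉ arc K x y := by
  rintro ⟨_, h⟩
  rw [cross_self] at h
  exact lt_irrefl _ h

theorem arc_split (hK : SBody K) (hx : x ∈ frontier K) (hy : y ∈ frontier K) (hz : z ∈ frontier K)
    (h : 0 < cross (y - x) (z - x)) :
    arc K x z = (arc K x y ∪ arc K y z) ∪ {y} ∧ Disjoint (arc K x y) (arc K y z) := by
  have hxy : x ≠ y := by
    rintro rfl
    simp [cross] at h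
  have hxz : x ≠ z := by
    rintro rfl
    simp [cross] at h
  have hyz : y ≠ z := by
    rintro rfl
    rw [cross_self] at h
    exact lt_irrefl _ h
  -- the signs of the three coordinates
  have key : ∀ w, w ∈ frontier K → w ≠ x → w ≠ y → w ≠ z →
      ((w ∈ arc K x z ↔ w ∈ arc K x y ∨ w ∈ arc K y z) ∧
        ¬ (w ∈ arc K x y ∧ w ∈ arc K y z)) := by
    intro w hw hwx hwy hwz
    have hA : cross (y - w) (z - w) ≠ 0 :=
      cross_ne_zero_of_distinct hK.clo hK.str hw hy hz hwy hwz.symm hyz.symm
    have hB : cross (w - x) (z - x) ≠ 0 :=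
      cross_ne_zero_of_distinct hK.clo hK.str hx hw hz hwx.symm hxz.symm hwz.symm
    have hC : cross (y - x) (w - x) ≠ 0 :=
      cross_ne_zero_of_distinct hK.clo hK.str hx hy hw hxy hwx hwy
    have hsum : cross (y - w) (z - w) + cross (w - x) (z - x) + cross (y - x) (w - x) =
        cross (y - x) (z - x) := by
      simp only [cross, PiLp.sub_apply]
      ring
    have hb := a02_bary x y z w
    have hxz' : cross (z - x) (w - x) = - cross (w - x) (z - x) := cross_comm _ _
    have hyz' : cross (z - y) (w - y) = cross (y - w) (z - w) := by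
      simp only [cross, PiLp.sub_apply]
      ring
    have m1 : w ∈ arc K x z ↔ 0 < cross (w - x) (z - x) := by
      constructor
      · rintro ⟨_, h1⟩
        rw [hxz'] at h1
        linarith
      · intro h1
        refine ⟨hw, ?_⟩
        rw [hxz']
        linarith
    have m2 : w ∈ arc K x y ↔ cross (y - x) (w - x) < 0 := ⟨fun h1 => h1.2, fun h1 => ⟨hw, h1⟩⟩
    have m3 : w ∈ arc K y z ↔ cross (y - w) (z - w) < 0 := by
      rw [← hyz']
      exact ⟨fun h1 => h1.2, fun h1 => ⟨hw, h1⟩⟩
    rw [m1, m2, m3]
    generalize cross (y - w) (z - w) = a at *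
    generalize cross (w - x) (z - x) = b at *
    generalize cross (y - x) (w - x) = c at *
    generalize cross (y - x) (z - x) = d at *
    have n0 : ¬ (0 < a ∧ 0 < b ∧ 0 < c) := fun ⟨h1, h2, h3⟩ =>
      a02_no_combo hK hx hy hz hw hxy h1 h2 h3 hsum hb
    have n1 : ¬ (a < 0 ∧ b < 0) := fun ⟨h1, h2⟩ =>
      a02_no_combo hK hw hx hy hz hwx h (neg_pos.2 h1) (neg_pos.2 h2)
        (d := c) (by linarith) (by rw [← hb, neg_smul, neg_smul]; abel)
    have n2 : ¬ (a < 0 ∧ c < 0) := fun ⟨h1, h2⟩ =>
      a02_no_combo hK hw hx hz hy hwx h (neg_pos.2 h1) (neg_pos.2 h2)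
        (d := b) (by linarith) (by rw [← hb, neg_smul, neg_smul]; abel)
    have n3 : ¬ (b < 0 ∧ c < 0) := fun ⟨h1, h2⟩ =>
      a02_no_combo hK hw hy hz hx hwy h (neg_pos.2 h1) (neg_pos.2 h2)
        (d := a) (by linarith) (by rw [← hb, neg_smul, neg_smul]; abel)
    refine ⟨⟨fun h1 => ?_, fun h1 => ?_⟩, fun h1 => n2 ⟨h1.2, h1.1⟩⟩
    · rcases lt_or_gt_of_ne hC with h2 | h2
      · exact Or.inl h2
      · rcases lt_or_gt_of_ne hA with h3 | h3
        · exact Or.inr h3
        · exact absurd ⟨h3, h1, h2⟩ n0
    · rcases lt_or_gt_of_ne hB with h2 | h2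
      · rcases h1 with h1 | h1
        · exact absurd ⟨h2, h1⟩ n3
        · exact absurd ⟨h1, h2⟩ n1
      · exact h2
  have hyxz : y ∈ arc K x z := by
    refine ⟨hy, ?_⟩
    rw [cross_comm]
    linarith
  have hxyz : x ∉ arc K y z := by
    rintro ⟨_, h1⟩
    have h2 : cross (z - y) (x - y) = cross (y - x) (z - x) := by
      simp only [cross, PiLp.sub_apply]
      ring
    rw [h2] at h1
    linarith
  have hzxy : z ∉ arc K x y := by
    rintro ⟨_, h1⟩
    linarith
  refine ⟨?_, ?_⟩
  · ext w
    simp only [Set.mem_union, Set.mem_singleton_iff]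
    by_cases hwy : w = y
    · subst hwy
      simp [hyxz]
    by_cases hwx : w = x
    · subst hwx
      simp [left_notMem_arc, hxyz, hxy]
    by_cases hwz : w = z
    · subst hwz
      simp [right_notMem_arc, hzxy, hyz.symm]
    by_cases hw : w ∈ frontier K
    · rw [(key w hw hwx hwy hwz).1]
      simp [hwy]
    · constructor
      · intro h1
        exact absurd h1.1 hw
      · rintro ((h1 | h1) | h1)
        · exact absurd h1.1 hw
        · exact absurd h1.1 hw
        · exact absurd h1 hwy
  · rw [Set.disjoint_left]
    intro w h1 h2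
    have hwx : w ≠ x := by
      rintro rfl
      exact left_notMem_arc K _ _ h1
    have hwy : w ≠ y := by
      rintro rfl
      exact right_notMem_arc K _ _ h1
    have hwz : w ≠ z := by
      rintro rfl
      exact right_notMem_arc K _ _ h2
    exact (key w h1.1 hwx hwy hwz).2 ⟨h1, h2⟩

theorem arc_chord (hK : SBody K) (hu : u ≠ 0) (hx : x ∈ frontier K) (hy : y ∈ frontier K)
    (hxy : x ≠ y) :
    {z | z ∈ frontier K ∧ chord K u z ∈ arc K x y} = arc K (chord K u y) (chord K u x) := by
  ext z
  simp only [Set.mem_ofPred_eq]
  have hflip : cross (chord K u x - chord K u y) (z - chord K u y) =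
      - cross (chord K u y - chord K u x) (z - chord K u x) := by
    simp only [cross, PiLp.sub_apply]
    ring
  constructor
  · rintro ⟨hz, h1⟩
    refine ⟨hz, ?_⟩
    have hfx : chord K u z ≠ x := by
      intro h2
      rw [h2] at h1
      exact left_notMem_arc K _ _ h1
    have hfy : chord K u z ≠ y := by
      intro h2
      rw [h2] at h1
      exact right_notMem_arc K _ _ h1
    have h3 := tri_chord hK hu hx hy (chord_mem hz) hxy hfx.symm hfy.symm (u := u)
    rw [chord_chord hK.clo hK.str hz] at h3
    rw [hflip]
    have h4 := h1.2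
    nlinarith [h3, h4]
  · rintro ⟨hz, h1⟩
    refine ⟨hz, chord_mem hz, ?_⟩
    have hfx : chord K u z ≠ x := by
      intro h2
      have h3 : z = chord K u x := by rw [← h2, chord_chord hK.clo hK.str hz]
      rw [← h3, cross_self] at h1
      exact lt_irrefl _ h1
    have hfy : chord K u z ≠ y := by
      intro h2
      have h3 : z = chord K u y := by rw [← h2, chord_chord hK.clo hK.str hz]
      rw [← h3] at h1
      have h4 : cross (chord K u x - z) (z - z) = 0 := by
        simp only [cross, PiLp.sub_apply]
        ring
      rw [h4] at h1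
      exact lt_irrefl _ h1
    have h3 := tri_chord hK hu hx hy (chord_mem hz) hxy hfx.symm hfy.symm (u := u)
    rw [chord_chord hK.clo hK.str hz] at h3
    rw [hflip] at h1
    nlinarith [h3, h1]

end ChordMaps
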