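import Pool.Agent.Helper95.AM.Defs

set_option autoImplicit false

/-! # AM-03: almost invariant finite sets give an invariant mean

For `n : ℕ` let `F n` be a finite nonempty subset of `C` given by `h` with `δ = 1 / (n + 1)`; let
`a n A = |F n ∩ A| / |F n| ∈ [0, 1]`.  Let `U = Filter.hyperfilter ℕ` (a nonprincipal ultrafilter).  For every `A` the
sequence `a n A` in the compact set `[0, 1]` has a limit along `U` (e.g. `IsCompact.ultrafilter_le_nhds'` applied to
the ultrafilter `U.map (fun n => a n A)`); `choose m` with `Tendsto (fun n => a n A) U (𝓝 (m A))`.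
`nonneg`, `mono` by `ge_of_tendsto`, `le_of_tendsto_of_tendsto`; `tot`: `a n (frontier K) = 1`; `add`: `a n (A ∪ B) =
a n A + a n B` for disjoint `A, B` and uniqueness of limits; `m Cᶜ = 0`: `a n Cᶜ = 0`.
`inv`: with `f = chord K u`, an involution of the frontier (`chord_chord`), and `A ⊆ frontier K`:
`#{x ∈ F | f x ∈ A} - #{x ∈ F | f x ∈ F, f x ∈ A} ≤ #{x ∈ F | f x ∉ F}`, the same for `#{x ∈ F | x ∈ A}` and
`#{x ∈ F | x ∈ A, f x ∈ F}`, and `f` is a bijection from `{x ∈ F | f x ∈ F, f x ∈ A}` to `{x ∈ F | x ∈ A, f x ∈ F}`.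
So `|a n (f⁻¹ A) - a n A| ≤ #{x ∈ F n | f x ∉ F n} / |F n| ≤ 1 / (n + 1) → 0` along `U` (`U ≤ cofinite = atTop`). -/

namespace ChordMaps

open Classical in
/-- the number of elements of `F` in `A` -/
private noncomputable def a03c (F : Finset Plane) (A : Set Plane) : ℝ :=
  ((F.filter (fun x => x ∈ A)).card : ℝ)

private theorem a03c_eq (F : Finset Plane) (A : Set Plane) [DecidablePred (fun x => x ∈ A)] :
    a03c F A = ((F.filter (fun x => x ∈ A)).card : ℝ) := by
  unfold a03c
  congr!

open Filter Topology in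
open Classical in
/-- the average over `F n` -/
private theorem a03_lim (F : ℕ → Finset Plane) (A : Set Plane) :
    ∃ l : ℝ, Tendsto (fun n => a03c (F n) A / (F n).card)
      (hyperfilter ℕ : Filter ℕ) (𝓝 l) := by
  have hc : IsCompact (Set.Icc (0 : ℝ) 1) := isCompact_Icc
  obtain ⟨l, -, hl⟩ := hc.ultrafilter_le_nhds
    ((hyperfilter ℕ).map (fun n => a03c (F n) A / (F n).card)) (by
      rw [le_principal_iff]
      refine Filter.mem_map.2 (Filter.Eventually.of_forall fun n => ?_)
      show a03c (F n) A / (F n).card ∈ Set.Icc (0 : ℝ) 1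
      rw [a03c_eq]
      refine ⟨by positivity, ?_⟩
      apply div_le_one_of_le₀ _ (by positivity)
      exact_mod_cast Finset.card_filter_le _ _)
  exact ⟨l, hl⟩

open Classical in
/-- the finite set `F` is almost invariant under an involution -/
private theorem a03_inv (F : Finset Plane) (B A : Set Plane) (f : Plane → Plane)
    (hFB : (F : Set Plane) ⊆ B)
    (hf : ∀ x ∈ B, f (f x) = x) :
    ((F.filter (fun x => x ∈ {x | x ∈ B ∧ f x ∈ A})).card : ℝ) ≤
        (F.filter (fun x => x ∈ A)).card + (F.filter (fun x => f x ∉ F)).card ∧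
    ((F.filter (fun x => x ∈ A)).card : ℝ) ≤
        (F.filter (fun x => x ∈ {x | x ∈ B ∧ f x ∈ A})).card +
          (F.filter (fun x => f x ∉ F)).card := by
  have e1 : (F.filter (fun x => f x ∈ F ∧ f x ∈ A)).card =
      (F.filter (fun x => x ∈ A ∧ f x ∈ F)).card := by
    refine Finset.card_bij' (fun x _ => f x) (fun x _ => f x) ?_ ?_ ?_ ?_
    · intro x hx
      rw [Finset.mem_filter] at hx ⊢
      exact ⟨hx.2.1, hx.2.2, by rw [hf x (hFB hx.1)]; exact hx.1⟩
    · intro x hx
      rw [Finset.mem_filter] at hx ⊢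
      refine ⟨hx.2.2, ?_, ?_⟩
      · rw [hf x (hFB hx.1)]; exact hx.1
      · rw [hf x (hFB hx.1)]; exact hx.2.1
    · intro x hx
      rw [Finset.mem_filter] at hx
      exact hf x (hFB hx.1)
    · intro x hx
      rw [Finset.mem_filter] at hx
      exact hf x (hFB hx.1)
  constructor
  · have h1 : (F.filter (fun x => x ∈ {x | x ∈ B ∧ f x ∈ A})) ⊆
        (F.filter (fun x => f x ∈ F ∧ f x ∈ A)) ∪ (F.filter (fun x => f x ∉ F)) := by
      intro x hx
      rw [Finset.mem_filter] at hx
      rw [Finset.mem_union, Finset.mem_filter, Finset.mem_filter]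
      by_cases h : f x ∈ F
      · exact Or.inl ⟨hx.1, h, hx.2.2⟩
      · exact Or.inr ⟨hx.1, h⟩
    have h2 : (F.filter (fun x => x ∈ A ∧ f x ∈ F)) ⊆ F.filter (fun x => x ∈ A) := by
      intro x hx
      rw [Finset.mem_filter] at hx ⊢
      exact ⟨hx.1, hx.2.1⟩
    have h3 := (Finset.card_le_card h1).trans (Finset.card_union_le _ _)
    rw [e1] at h3
    have h4 := Finset.card_le_card h2
    exact_mod_cast h3.trans (Nat.add_le_add_right h4 _)
  · have h1 : (F.filter (fun x => x ∈ A)) ⊆
        (F.filter (fun x => x ∈ A ∧ f x ∈ F)) ∪ (F.filter (fun x => f x ∉ F)) := by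
      intro x hx
      rw [Finset.mem_filter] at hx
      rw [Finset.mem_union, Finset.mem_filter, Finset.mem_filter]
      by_cases h : f x ∈ F
      · exact Or.inl ⟨hx.1, hx.2, h⟩
      · exact Or.inr ⟨hx.1, h⟩
    have h2 : (F.filter (fun x => f x ∈ F ∧ f x ∈ A)) ⊆
        F.filter (fun x => x ∈ {x | x ∈ B ∧ f x ∈ A}) := by
      intro x hx
      rw [Finset.mem_filter] at hx ⊢
      exact ⟨hx.1, hFB hx.1, hx.2.2⟩
    have h3 := (Finset.card_le_card h1).trans (Finset.card_union_le _ _)
    rw [← e1] at h3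
    have h4 := Finset.card_le_card h2
    exact_mod_cast h3.trans (Nat.add_le_add_right h4 _)

open Classical in
theorem exists_mean {K : Set Plane} (hK : SBody K) (S : Finset Plane) (C : Set Plane)
    (hC : C ⊆ frontier K)
    (h : ∀ δ : ℝ, 0 < δ → ∃ F : Finset Plane, F.Nonempty ∧ (F : Set Plane) ⊆ C ∧
      ((F.filter (fun x => ∃ u ∈ S, chord K u x ∉ F)).card : ℝ) ≤ δ * F.card) :
    ∃ m : Set Plane → ℝ, InvMean K (S : Set Plane) m ∧ m Cᶜ = 0 := by
  have h' : ∀ n : ℕ, ∃ F : Finset Plane, F.Nonempty ∧ (F : Set Plane) ⊆ C ∧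
      ((F.filter (fun x => ∃ u ∈ S, chord K u x ∉ F)).card : ℝ) ≤ (1 / ((n : ℝ) + 1)) * F.card :=
    fun n => h _ (by positivity)
  choose F hFn hFC hFδ using h'
  have hpos : ∀ n, (0 : ℝ) < (F n).card := fun n => by exact_mod_cast (hFn n).card_pos
  choose m hm using a03_lim F
  refine ⟨m, ⟨?_, ?_, ?_, ?_, ?_⟩, ?_⟩
  · intro A
    refine ge_of_tendsto (hm A) (Filter.Eventually.of_forall fun n => ?_)
    rw [a03c_eq]
    positivity
  · intro A B hAB
    refine le_of_tendsto_of_tendsto (hm A) (hm B) (Filter.Eventually.of_forall fun n => ?_)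
    refine div_le_div_of_nonneg_right ?_ (hpos n).le
    have : (F n).filter (fun x => x ∈ A) ⊆ (F n).filter (fun x => x ∈ B) := by
      intro x hx
      rw [Finset.mem_filter] at hx ⊢
      exact ⟨hx.1, hAB hx.2⟩
    rw [a03c_eq, a03c_eq]
    exact_mod_cast Finset.card_le_card this
  · refine tendsto_nhds_unique (hm (frontier K)) ?_
    refine Filter.Tendsto.congr' (Filter.Eventually.of_forall fun n => ?_) tendsto_const_nhds
    have : (F n).filter (fun x => x ∈ frontier K) = F n := by
      rw [Finset.filter_eq_self]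
      intro x hx
      exact hC (hFC n hx)
    show (1 : ℝ) = a03c (F n) (frontier K) / (F n).card
    rw [a03c_eq]
    rw [this, div_self (hpos n).ne']
  · intro A B _ _ hAB
    refine tendsto_nhds_unique (hm (A ∪ B)) ?_
    refine Filter.Tendsto.congr' (Filter.Eventually.of_forall fun n => ?_) ((hm A).add (hm B))
    have h1 : (F n).filter (fun x => x ∈ A ∪ B) =
        (F n).filter (fun x => x ∈ A) ∪ (F n).filter (fun x => x ∈ B) := by
      rw [← Finset.filter_or]
      rfl
    have h2 : Disjoint ((F n).filter (fun x => x ∈ A)) ((F n).filter (fun x => x ∈ B)) := by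
      rw [Finset.disjoint_left]
      intro x hx hx'
      rw [Finset.mem_filter] at hx hx'
      exact Set.disjoint_left.1 hAB hx.2 hx'.2
    show a03c (F n) A / (F n).card + a03c (F n) B / (F n).card = a03c (F n) (A ∪ B) / (F n).card
    rw [a03c_eq, a03c_eq, a03c_eq]
    rw [h1, Finset.card_union_of_disjoint h2, Nat.cast_add, add_div]
  · intro u hu A _ _
    have h0 : Filter.Tendsto (fun n : ℕ => 1 / ((n : ℝ) + 1)) (Filter.hyperfilter ℕ : Filter ℕ)
        (nhds 0) :=
      tendsto_one_div_add_atTop_nhds_zero_nat.mono_left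
        (by rw [← Nat.cofinite_eq_atTop]; exact Filter.hyperfilter_le_cofinite)
    have key : ∀ n, ((((F n).filter (fun x => chord K u x ∉ F n)).card : ℕ) : ℝ) ≤
        (1 / ((n : ℝ) + 1)) * (F n).card := by
      intro n
      refine le_trans ?_ (hFδ n)
      have : (F n).filter (fun x => chord K u x ∉ F n) ⊆
          (F n).filter (fun x => ∃ u ∈ S, chord K u x ∉ F n) := by
        intro x hx
        rw [Finset.mem_filter] at hx ⊢
        exact ⟨hx.1, u, hu, hx.2⟩
      exact_mod_cast Finset.card_le_card this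
    have hinv := fun n => a03_inv (F n) (frontier K) A (chord K u)
      (fun x hx => hC (hFC n hx)) (fun x hx => chord_chord hK.clo hK.str hx)
    apply le_antisymm
    · have h1 := (hm A).add h0
      rw [add_zero] at h1
      refine le_of_tendsto_of_tendsto (hm _) h1 (Filter.Eventually.of_forall fun n => ?_)
      dsimp only
      rw [div_add' _ _ _ (hpos n).ne']
      refine div_le_div_of_nonneg_right ?_ (hpos n).le
      rw [a03c_eq, a03c_eq]
      exact (hinv n).1.trans (add_le_add le_rfl (key n))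
    · have h1 := (hm {x | x ∈ frontier K ∧ chord K u x ∈ A}).add h0
      rw [add_zero] at h1
      refine le_of_tendsto_of_tendsto (hm _) h1 (Filter.Eventually.of_forall fun n => ?_)
      dsimp only
      rw [div_add' _ _ _ (hpos n).ne']
      refine div_le_div_of_nonneg_right ?_ (hpos n).le
      rw [a03c_eq, a03c_eq]
      exact (hinv n).2.trans (add_le_add le_rfl (key n))
  · refine tendsto_nhds_unique (hm Cᶜ) ?_
    refine Filter.Tendsto.congr' (Filter.Eventually.of_forall fun n => ?_) tendsto_const_nhds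
    have : (F n).filter (fun x => x ∈ Cᶜ) = ∅ := by
      rw [Finset.filter_eq_empty_iff]
      intro x hx hx'
      exact hx' (hFC n hx)
    show (0 : ℝ) = a03c (F n) Cᶜ / (F n).card
    rw [a03c_eq]
    rw [this, Finset.card_empty, Nat.cast_zero, zero_div]

end ChordMaps
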