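import Pool.Agent.Helper95.AM.Defs

set_option autoImplicit false

/-! # AM-04: an invariant mean has no atoms

`m ∅ = 0` (`add ∅ ∅`).  `m_union_le`: `m (A ∪ B) ≤ m A + m B` for Borel sets (`A ∪ B = A ∪ (B \ A)`).
`m_sum_le`: for finitely many pairwise disjoint Borel subsets of the frontier the sum of the measures is at
most `1`.
`mean_no_atom`: let `P = {x ∈ frontier K | ∀ r > 0, ε ≤ m (ball x r ∩ frontier K)}`.  `P` is finite: if there were `N` different
points of `P` with `N ε > 1`, take `r` smaller than half of their mutual distances, the sets `ball x r ∩ frontier K` are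
disjoint with measure at least `ε`, contradiction (`Set.infinite` gives a finite subset of any cardinality:
`Set.Infinite.exists_subset_card_eq`).  `P` is invariant: for `u ∈ S`, `x ∈ P`, `r > 0` continuity of `chord K u`
on the frontier (`chord_continuousOn`, LS/L02) gives `s > 0` with `chord K u y ∈ ball (chord K u x) r` for
`y ∈ ball x s ∩ frontier K`; so `ball x s ∩ frontier K ⊆ {y ∈ frontier K | chord K u y ∈ ball (chord K u x) r ∩ frontier K}` and by
`mono`, `inv`: `ε ≤ m (ball x s ∩ frontier K) ≤ m (ball (chord K u x) r ∩ frontier K)`.  By `NoFin` the set `P` is empty. -/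

namespace ChordMaps

variable {K S : Set Plane} {m : Set Plane → ℝ} {x : Plane}

theorem InvMean.empty (hm : InvMean K S m) : m ∅ = 0 := by
  have h1 := hm.add ∅ ∅ MeasurableSet.empty MeasurableSet.empty (disjoint_bot_left)
  rw [Set.union_empty] at h1
  linarith

theorem InvMean.union_le (hm : InvMean K S m) {A B : Set Plane} (hA : MeasurableSet A)
    (hB : MeasurableSet B) : m (A ∪ B) ≤ m A + m B := by
  have h1 := hm.add A (B \ A) hA (hB.diff hA) Set.disjoint_sdiff_right
  rw [Set.union_sdiff_self] at h1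
  have h2 := hm.mono (B \ A) B Set.sdiff_subset
  linarith

theorem InvMean.sum_le (hm : InvMean K S m) {ι : Type*} (T : Finset ι) (A : ι → Set Plane)
    (hA : ∀ i ∈ T, MeasurableSet (A i)) (hsub : ∀ i ∈ T, A i ⊆ frontier K)
    (hd : ∀ i ∈ T, ∀ j ∈ T, i ≠ j → Disjoint (A i) (A j)) : ∑ i ∈ T, m (A i) ≤ 1 := by
  classical
  have key : ∀ U : Finset ι, U ⊆ T → ∑ i ∈ U, m (A i) = m (⋃ i ∈ U, A i) := by
    intro U
    induction U using Finset.induction_on with
    | empty =>
      intro _
      simp [hm.empty]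
    | insert a U ha ih =>
      intro hU
      have haT : a ∈ T := hU (Finset.mem_insert_self a U)
      have hUT : U ⊆ T := fun i hi => hU (Finset.mem_insert_of_mem hi)
      rw [Finset.sum_insert ha, ih hUT, Finset.set_biUnion_insert, hm.add]
      · exact hA a haT
      · exact Finset.measurableSet_biUnion U fun i hi => hA i (hUT hi)
      · rw [Set.disjoint_iUnion₂_right]
        intro i hi
        refine hd a haT i (hUT hi) ?_
        rintro rfl
        exact ha hi
  rw [key T (Finset.Subset.refl T), ← hm.tot]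
  exact hm.mono _ _ (Set.iUnion₂_subset hsub)

theorem mean_no_atom (hK : SBody K) (hS : ∀ v ∈ S, v ≠ 0) (hfin : NoFin K S)
    (hm : InvMean K S m) (hx : x ∈ frontier K) {ε : ℝ} (hε : 0 < ε) :
    ∃ r : ℝ, 0 < r ∧ m (Metric.ball x r ∩ frontier K) < ε := by
  classical
  by_contra hcon
  push Not at hcon
  set P : Set Plane := {y | y ∈ frontier K ∧ ∀ r : ℝ, 0 < r → ε ≤ m (Metric.ball y r ∩ frontier K)}
    with hP
  have hxP : x ∈ P := ⟨hx, hcon⟩
  have hfr : MeasurableSet (frontier K) := isClosed_frontier.measurableSet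
  refine hfin P (fun y hy => hy.1) ?_ ⟨x, hxP⟩ ?_
  · by_contra hinf
    obtain ⟨N, hN⟩ := exists_nat_gt (1 / ε)
    have hN' : 1 < N * ε := by
      rw [div_lt_iff₀ hε] at hN
      exact hN
    obtain ⟨t, htP, htc⟩ := Set.Infinite.exists_subset_card_eq hinf N
    have hev : ∀ᶠ r in nhdsWithin (0 : ℝ) (Set.Ioi 0), ∀ p ∈ t.offDiag, 2 * r < dist p.1 p.2 := by
      rw [Filter.eventually_all_finset]
      intro p hp
      have h1 : Filter.Tendsto (fun r : ℝ => 2 * r) (nhdsWithin 0 (Set.Ioi 0)) (nhds 0) := by
        have h2 : Filter.Tendsto (fun r : ℝ => 2 * r) (nhds 0) (nhds (2 * 0)) :=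
          tendsto_const_nhds.mul Filter.tendsto_id
        rw [mul_zero] at h2
        exact h2.mono_left nhdsWithin_le_nhds
      exact h1.eventually_lt_const (dist_pos.2 (Finset.mem_offDiag.1 hp).2.2)
    obtain ⟨r, hr, hr0⟩ := (hev.and self_mem_nhdsWithin).exists
    have hr0' : 0 < r := hr0
    have h1 := hm.sum_le t (fun y => Metric.ball y r ∩ frontier K)
      (fun y _ => Metric.isOpen_ball.measurableSet.inter hfr) (fun y _ => Set.inter_subset_right)
      (fun y hy z hz hyz => by
        refine Set.disjoint_of_subset Set.inter_subset_left Set.inter_subset_left ?_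
        refine Metric.ball_disjoint_ball ?_
        have h2 := hr (y, z) (Finset.mem_offDiag.2 ⟨hy, hz, hyz⟩)
        change 2 * r < dist y z at h2
        linarith)
    have h2 : ∑ y ∈ t, ε ≤ ∑ y ∈ t, m (Metric.ball y r ∩ frontier K) :=
      Finset.sum_le_sum fun y hy => (htP hy).2 r hr0'
    rw [Finset.sum_const, htc, nsmul_eq_mul] at h2
    linarith
  · intro u hu y hy
    refine ⟨chord_mem hy.1, fun r hr => ?_⟩
    obtain ⟨s, hs, h⟩ := Metric.continuousOn_iff.1 (chord_continuousOn hK (hS u hu)) y hy.1 r hr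
    have h1 := hm.inv u hu (Metric.ball (chord K u y) r ∩ frontier K) Set.inter_subset_right
      (Metric.isOpen_ball.measurableSet.inter hfr)
    rw [← h1]
    refine (hy.2 s hs).trans (hm.mono _ _ ?_)
    rintro z ⟨hz, hzf⟩
    exact ⟨hzf, h z hzf hz, chord_mem hzf⟩

end ChordMaps
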