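import Pool.Agent.Helper95.AM.A04

set_option autoImplicit false

/-! # AM-05: the support of an invariant mean

* `m_compact`: a compact `C ⊆ frontier K` disjoint from `msupp K m` has measure zero: every `x ∈ C` has a ball with
  `m (ball x r ∩ frontier K) ≤ 0`; finitely many cover `C` (`IsCompact.elim_nhds_subcover` or
  `IsCompact.induction_on` with `p A := m (A ∩ frontier K) = 0`-like statement); use `mono` and `union_le`.
* `msupp_nonempty`: otherwise `m (frontier K) = 0` by `m_compact`; but it is `1`.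
* `msupp_closed`: if `x` is not in `msupp`, some ball is null, all the points of that ball have a smaller null ball.
  (`frontier K` is closed.)
* `msupp_inv`: as in the proof of `mean_no_atom` (continuity of the chord map).
* `msupp_subset`: if `C` is closed and `m Cᶜ = 0`, then a point outside `C` has a ball disjoint from `C`. -/

namespace ChordMaps

variable {K S : Set Plane} {m : Set Plane → ℝ}

theorem m_compact (hK : SBody K) (hm : InvMean K S m) {C : Set Plane} (hC : IsCompact C)
    (hCK : C ⊆ frontier K) (hd : Disjoint C (msupp K m)) : m C = 0 := by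
  have key : ∃ B : Set Plane, MeasurableSet B ∧ C ⊆ B ∧ m B = 0 := by
    refine hC.induction_on (p := fun A => ∃ B : Set Plane, MeasurableSet B ∧ A ⊆ B ∧ m B = 0)
      ?_ ?_ ?_ ?_
    · exact ⟨∅, MeasurableSet.empty, subset_rfl, hm.empty⟩
    · rintro A A' hAA' ⟨B, hB, hAB, h0⟩
      exact ⟨B, hB, hAA'.trans hAB, h0⟩
    · rintro A A' ⟨B, hB, hAB, h0⟩ ⟨B', hB', hAB', h0'⟩
      refine ⟨B ∪ B', hB.union hB', Set.union_subset_union hAB hAB', ?_⟩
      refine le_antisymm ?_ (hm.nonneg _)
      have := hm.union_le hB hB'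
      linarith
    · intro x hx
      have hxs : x ∉ msupp K m := fun h => Set.disjoint_left.1 hd hx h
      have hxf : x ∈ frontier K := hCK hx
      obtain ⟨r, hr, hr0⟩ : ∃ r : ℝ, 0 < r ∧ m (Metric.ball x r ∩ frontier K) ≤ 0 := by
        by_contra hcon
        push Not at hcon
        exact hxs ⟨hxf, hcon⟩
      refine ⟨Metric.ball x r ∩ C, ?_, Metric.ball x r ∩ frontier K, ?_, ?_, ?_⟩
      · exact Filter.inter_mem (mem_nhdsWithin_of_mem_nhds (Metric.ball_mem_nhds x hr))
          self_mem_nhdsWithin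
      · exact measurableSet_ball.inter isClosed_frontier.measurableSet
      · exact Set.inter_subset_inter_right _ hCK
      · exact le_antisymm hr0 (hm.nonneg _)
  obtain ⟨B, -, hCB, hB0⟩ := key
  refine le_antisymm ?_ (hm.nonneg _)
  rw [← hB0]
  exact hm.mono _ _ hCB

theorem msupp_nonempty (hK : SBody K) (hm : InvMean K S m) : (msupp K m).Nonempty := by
  by_contra hcon
  rw [Set.not_nonempty_iff_eq_empty] at hcon
  have hcl : IsClosed K := hK.cpt.isClosed
  have hc : IsCompact (frontier K) := hK.cpt.of_isClosed_subset isClosed_frontier hcl.frontier_subset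
  have h0 := m_compact hK hm hc subset_rfl (by rw [hcon]; exact Set.disjoint_empty _)
  rw [hm.tot] at h0
  exact one_ne_zero h0

theorem msupp_frontier (K : Set Plane) (m : Set Plane → ℝ) : msupp K m ⊆ frontier K :=
  fun _ h => h.1

theorem msupp_closed (hK : SBody K) (hm : InvMean K S m) : IsClosed (msupp K m) := by
  rw [← isOpen_compl_iff, Metric.isOpen_iff]
  intro x hx
  by_cases hxf : x ∈ frontier K
  · obtain ⟨r, hr, hr0⟩ : ∃ r : ℝ, 0 < r ∧ m (Metric.ball x r ∩ frontier K) ≤ 0 := by
      by_contra hcon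
      push Not at hcon
      exact hx ⟨hxf, hcon⟩
    refine ⟨r / 2, by positivity, ?_⟩
    rintro y hy ⟨-, hy2⟩
    have h1 := hy2 (r / 2) (by positivity)
    have h2 : Metric.ball y (r / 2) ⊆ Metric.ball x r := by
      intro z hz
      rw [Metric.mem_ball] at hy hz ⊢
      have := dist_triangle z y x
      linarith
    have h3 := hm.mono _ _ (Set.inter_subset_inter_left (frontier K) h2)
    linarith
  · obtain ⟨ε, hε, h1⟩ := Metric.isOpen_iff.1 isClosed_frontier.isOpen_compl x hxf
    exact ⟨ε, hε, fun y hy hy2 => h1 hy hy2.1⟩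

theorem msupp_inv (hK : SBody K) (hS : ∀ v ∈ S, v ≠ 0) (hm : InvMean K S m) :
    ∀ v ∈ S, Inv K (msupp K m) v := by
  rintro v hv x ⟨hxf, hx⟩
  refine ⟨chord_mem hxf, fun r hr => ?_⟩
  obtain ⟨s, hs, h1⟩ := Metric.continuousOn_iff.1 (chord_continuousOn hK (hS v hv)) x hxf r hr
  have h2 : Metric.ball x s ∩ frontier K ⊆
      {y | y ∈ frontier K ∧ chord K v y ∈ Metric.ball (chord K v x) r ∩ frontier K} := by
    rintro y ⟨hy1, hy2⟩
    exact ⟨hy2, Metric.mem_ball.2 (h1 y hy2 (Metric.mem_ball.1 hy1)), chord_mem hy2⟩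
  have h3 := hm.mono _ _ h2
  rw [hm.inv v hv _ Set.inter_subset_right
    (measurableSet_ball.inter isClosed_frontier.measurableSet)] at h3
  exact (hx s hs).trans_le h3

theorem msupp_subset (hm : InvMean K S m) {C : Set Plane} (hC : IsClosed C) (h0 : m Cᶜ = 0) :
    msupp K m ⊆ C := by
  rintro x ⟨-, hx⟩
  by_contra hxC
  obtain ⟨ε, hε, h1⟩ := Metric.isOpen_iff.1 hC.isOpen_compl x hxC
  have h2 := hm.mono (Metric.ball x ε ∩ frontier K) Cᶜ (Set.inter_subset_left.trans h1)
  have h3 := hx ε hε
  linarith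

end ChordMaps
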