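import Pool.Agent.Helper95.AM.A02
import Pool.Agent.Helper95.AM.A05

set_option autoImplicit false

/-! # AM-06: arcs are null exactly if they contain no point of the support

* `arc_pos`: if `z ∈ arc K x y ∩ msupp K m`, a small ball around `z` satisfies `ball z r ∩ frontier K ⊆ arc K x y`
  (`cross (y - x) (· - x)` is continuous and negative at `z`), so `0 < m (arc K x y)`.
* `m_singleton`: `m {x} = 0` for `x ∈ frontier K` (`mean_no_atom`, `mono`).
* `arc_null`: let `ε > 0`, `r` from `mean_no_atom` for `x`, `s` for `y`.  The set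
  `C = {z ∈ frontier K | cross (y - x) (z - x) ≤ 0 ∧ r ≤ dist z x ∧ s ≤ dist z y}` is compact and its points are in
  `arc K x y` (they are different from `x, y`, so `cross ≠ 0` by `cross_ne_zero_of_distinct`), hence not in the
  support, so `m C = 0` (`m_compact`).  `arc K x y ⊆ (ball x r ∩ frontier K) ∪ ((ball y s ∩ frontier K) ∪ C)`, so
  `m (arc K x y) ≤ 2 ε`. -/

namespace ChordMaps

variable {K S : Set Plane} {m : Set Plane → ℝ} {x y z : Plane}

private lemma am06_cont (x y : Plane) : Continuous (fun w : Plane => cross (y - x) (w - x)) := by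
  unfold cross
  fun_prop

theorem arc_pos (hm : InvMean K S m) (hz : z ∈ arc K x y) (hz' : z ∈ msupp K m) :
    0 < m (arc K x y) := by
  have ho : IsOpen {w : Plane | cross (y - x) (w - x) < 0} :=
    isOpen_lt (am06_cont x y) continuous_const
  obtain ⟨r, hr, hb⟩ := Metric.isOpen_iff.1 ho z hz.2
  refine lt_of_lt_of_le (hz'.2 r hr) (hm.mono _ _ ?_)
  rintro w ⟨hw, hwK⟩
  exact ⟨hwK, hb hw⟩

theorem m_singleton (hK : SBody K) (hS : ∀ v ∈ S, v ≠ 0) (hfin : NoFin K S)
    (hm : InvMean K S m) (hx : x ∈ frontier K) : m {x} = 0 := by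
  apply le_antisymm _ (hm.nonneg _)
  apply le_of_forall_pos_le_add
  intro ε hε
  obtain ⟨r, hr, hlt⟩ := mean_no_atom hK hS hfin hm hx hε
  rw [zero_add]
  refine le_trans (hm.mono _ _ ?_) hlt.le
  rw [Set.singleton_subset_iff]
  exact ⟨Metric.mem_ball_self hr, hx⟩

theorem arc_null (hK : SBody K) (hS : ∀ v ∈ S, v ≠ 0) (hfin : NoFin K S) (hm : InvMean K S m)
    (hx : x ∈ frontier K) (hy : y ∈ frontier K) (hxy : x ≠ y)
    (hd : Disjoint (arc K x y) (msupp K m)) : m (arc K x y) = 0 := by
  apply le_antisymm _ (hm.nonneg _)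
  apply le_of_forall_pos_le_add
  intro ε hε
  obtain ⟨r, hr, hr'⟩ := mean_no_atom hK hS hfin hm hx (half_pos hε)
  obtain ⟨s, hs, hs'⟩ := mean_no_atom hK hS hfin hm hy (half_pos hε)
  have hcl : IsClosed K := hK.cpt.isClosed
  have hfc : IsCompact (frontier K) :=
    hK.cpt.of_isClosed_subset isClosed_frontier hcl.frontier_subset
  let C : Set Plane := frontier K ∩
    ({w | cross (y - x) (w - x) ≤ 0} ∩ ({w | r ≤ dist w x} ∩ {w | s ≤ dist w y}))
  have hC : IsCompact C := by
    apply hfc.inter_right
    apply IsClosed.inter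
    · exact isClosed_le (am06_cont x y) continuous_const
    · apply IsClosed.inter
      · exact isClosed_le continuous_const (continuous_id.dist continuous_const)
      · exact isClosed_le continuous_const (continuous_id.dist continuous_const)
  have hC0 : m C = 0 := by
    apply m_compact hK hm hC (fun w hw => hw.1)
    rw [Set.disjoint_left]
    rintro w ⟨hwK, hw1, hw2, hw3⟩ hws
    change cross (y - x) (w - x) ≤ 0 at hw1
    change r ≤ dist w x at hw2
    change s ≤ dist w y at hw3
    have hwx : w ≠ x := by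
      rintro rfl
      rw [dist_self] at hw2
      linarith
    have hwy : w ≠ y := by
      rintro rfl
      rw [dist_self] at hw3
      linarith
    have hne := cross_ne_zero_of_distinct hcl hK.str hx hy hwK hxy hwx hwy
    exact Set.disjoint_left.1 hd ⟨hwK, lt_of_le_of_ne hw1 hne⟩ hws
  have hmf : MeasurableSet (frontier K) := isClosed_frontier.measurableSet
  have hmA : MeasurableSet (Metric.ball x r ∩ frontier K) := measurableSet_ball.inter hmf
  have hmB : MeasurableSet (Metric.ball y s ∩ frontier K) := measurableSet_ball.inter hmf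
  have hmC : MeasurableSet C := hC.measurableSet
  have hsub : arc K x y ⊆ (Metric.ball x r ∩ frontier K) ∪ ((Metric.ball y s ∩ frontier K) ∪ C) := by
    rintro w ⟨hwK, hw⟩
    by_cases h1 : dist w x < r
    · left
      exact ⟨h1, hwK⟩
    · right
      by_cases h2 : dist w y < s
      · left
        exact ⟨h2, hwK⟩
      · right
        exact ⟨hwK, hw.le, not_lt.1 h1, not_lt.1 h2⟩
  have e1 := hm.mono _ _ hsub
  have e2 := hm.union_le hmA (hmB.union hmC)
  have e3 := hm.union_le hmB hmC
  rw [hC0, add_zero] at e3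
  linarith

end ChordMaps
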