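import Pool.Agent.Helper95.AM.A06

set_option autoImplicit false

/-! # AM-07: the circle valued cocycle

* `arc_add`: `m (arc K x y) + m (arc K y x) = 1` for `x ≠ y` (`arc_frontier`, `arc_disjoint`, `m_singleton`, `add`; all sets are
  Borel).
* `cd_chord`: for `x ≠ y`, `cd (f x) (f y) = m (arc (f x) (f y))`, and `arc (f x) (f y) = {z | f z ∈ arc y x}`
  (`arc_chord` with `x, y` exchanged), so by `inv` it is `m (arc y x) = 1 - m (arc x y)`, which is `- cd x y` modulo `1`
  (`AddCircle.coe_period`, `AddCircle.coe_add` ...).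
* `cd_add`: if two of the points coincide: `cd x x = 0`, `cd x y + cd y x = 0` by `arc_add`.  For distinct points with
  `0 < cross (y - x) (z - x)`: `m (arc x z) = m (arc x y) + m (arc y z)` (`arc_split`).  If
  `cross (y - x) (z - x) < 0`, then `0 < cross (z - x) (y - x)`, so `m (arc x y) = m (arc x z) + m (arc z y)` and
  `m (arc z y) = 1 - m (arc y z)`.
* `cd_eq_zero`: `m (arc x y) ∈ [0, 1]` is an integer, so `0` or `1`; in the second case `m (arc y x) = 0`
  (`AddCircle.coe_eq_zero_iff`). -/

namespace ChordMaps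

variable {K S : Set Plane} {m : Set Plane → ℝ} {u x y z : Plane}

theorem arc_add (hK : SBody K) (hS : ∀ v ∈ S, v ≠ 0) (hfin : NoFin K S) (hm : InvMean K S m)
    (hx : x ∈ frontier K) (hy : y ∈ frontier K) (hxy : x ≠ y) :
    m (arc K x y) + m (arc K y x) = 1 := by
  have h1 := hm.tot
  rw [arc_frontier hK hx hy hxy] at h1
  have hd2 : Disjoint ({x} : Set Plane) {y} := Set.disjoint_singleton.2 hxy
  have hd3 : Disjoint (arc K x y ∪ arc K y x) ({x} ∪ {y}) := by
    rw [Set.disjoint_left]
    intro z hz hz'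
    rcases hz' with hz' | hz'
    · rw [Set.mem_singleton_iff] at hz'
      subst hz'
      rcases hz with hz | hz
      · exact left_notMem_arc K _ _ hz
      · exact right_notMem_arc K _ _ hz
    · rw [Set.mem_singleton_iff] at hz'
      subst hz'
      rcases hz with hz | hz
      · exact right_notMem_arc K _ _ hz
      · exact left_notMem_arc K _ _ hz
  rw [hm.add _ _ ((arc_measurable K x y).union (arc_measurable K y x))
      ((measurableSet_singleton x).union (measurableSet_singleton y)) hd3,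
    hm.add _ _ (arc_measurable K x y) (arc_measurable K y x) (arc_disjoint K x y),
    hm.add _ _ (measurableSet_singleton x) (measurableSet_singleton y) hd2,
    m_singleton hK hS hfin hm hx, m_singleton hK hS hfin hm hy] at h1
  linarith

private lemma a7_cd_of_ne (hxy : x ≠ y) :
    cd K m x y = ((m (arc K x y) : ℝ) : AddCircle (1 : ℝ)) := by
  unfold cd
  rw [if_neg hxy]

private lemma a7_cd_self : cd K m x x = 0 := by
  unfold cd
  rw [if_pos rfl]

private lemma a7_cd_neg (hK : SBody K) (hS : ∀ v ∈ S, v ≠ 0) (hfin : NoFin K S)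
    (hm : InvMean K S m) (hx : x ∈ frontier K) (hy : y ∈ frontier K) (hxy : x ≠ y) :
    cd K m y x = - cd K m x y := by
  rw [a7_cd_of_ne hxy, a7_cd_of_ne hxy.symm]
  have h := arc_add hK hS hfin hm hx hy hxy
  have h2 : m (arc K y x) = 1 - m (arc K x y) := by linarith
  rw [h2, AddCircle.coe_sub, AddCircle.coe_period, zero_sub]

private lemma a7_split (hK : SBody K) (hS : ∀ v ∈ S, v ≠ 0) (hfin : NoFin K S)
    (hm : InvMean K S m) (hx : x ∈ frontier K) (hy : y ∈ frontier K) (hz : z ∈ frontier K)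
    (h : 0 < cross (y - x) (z - x)) : m (arc K x z) = m (arc K x y) + m (arc K y z) := by
  obtain ⟨h1, h2⟩ := arc_split hK hx hy hz h
  have h3 : Disjoint (arc K x y ∪ arc K y z) ({y} : Set Plane) := by
    rw [Set.disjoint_left]
    intro w hw hw'
    rw [Set.mem_singleton_iff] at hw'
    subst hw'
    rcases hw with hw | hw
    · exact right_notMem_arc K _ _ hw
    · exact left_notMem_arc K _ _ hw
  rw [h1, hm.add _ _ ((arc_measurable K x y).union (arc_measurable K y z))
      (measurableSet_singleton y) h3,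
    hm.add _ _ (arc_measurable K x y) (arc_measurable K y z) h2,
    m_singleton hK hS hfin hm hy, add_zero]

theorem cd_add (hK : SBody K) (hS : ∀ v ∈ S, v ≠ 0) (hfin : NoFin K S) (hm : InvMean K S m)
    (hx : x ∈ frontier K) (hy : y ∈ frontier K) (hz : z ∈ frontier K) :
    cd K m x y + cd K m y z = cd K m x z := by
  by_cases hxy : x = y
  · subst hxy
    rw [a7_cd_self, zero_add]
  by_cases hyz : y = z
  · subst hyz
    rw [a7_cd_self, add_zero]
  by_cases hxz : x = z
  · subst hxz
    rw [a7_cd_self, a7_cd_neg hK hS hfin hm hx hy hxy, add_neg_cancel]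
  have hne : cross (y - x) (z - x) ≠ 0 :=
    cross_ne_zero_of_distinct hK.clo hK.str hx hy hz hxy (Ne.symm hxz) (Ne.symm hyz)
  rcases lt_or_gt_of_ne hne with h | h
  · have h' : 0 < cross (z - x) (y - x) := by
      rw [cross_comm]
      linarith
    have h1 := a7_split hK hS hfin hm hx hz hy h'
    have h2 : cd K m x y = cd K m x z + cd K m z y := by
      rw [a7_cd_of_ne hxy, a7_cd_of_ne hxz, a7_cd_of_ne (Ne.symm hyz), h1, AddCircle.coe_add]
    rw [h2, a7_cd_neg hK hS hfin hm hy hz hyz]
    abel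
  · have h1 := a7_split hK hS hfin hm hx hy hz h
    rw [a7_cd_of_ne hxy, a7_cd_of_ne hxz, a7_cd_of_ne hyz, h1, AddCircle.coe_add]

theorem cd_chord (hK : SBody K) (hS : ∀ v ∈ S, v ≠ 0) (hfin : NoFin K S) (hm : InvMean K S m)
    (hu : u ∈ S) (hx : x ∈ frontier K) (hy : y ∈ frontier K) :
    cd K m (chord K u x) (chord K u y) = - cd K m x y := by
  by_cases hxy : x = y
  · subst hxy
    rw [a7_cd_self, a7_cd_self, neg_zero]
  have hne : chord K u x ≠ chord K u y := by
    intro h
    apply hxy
    rw [← chord_chord hK.clo hK.str hx (u := u), h, chord_chord hK.clo hK.str hy]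
  have h1 := arc_chord hK (hS u hu) hy hx (Ne.symm hxy)
  have h2 := hm.inv u hu (arc K y x) (arc_subset K y x) (arc_measurable K y x)
  rw [h1] at h2
  rw [a7_cd_of_ne hne, h2, ← a7_cd_of_ne (Ne.symm hxy)]
  exact a7_cd_neg hK hS hfin hm hx hy hxy

theorem cd_eq_zero (hK : SBody K) (hS : ∀ v ∈ S, v ≠ 0) (hfin : NoFin K S) (hm : InvMean K S m)
    (hx : x ∈ frontier K) (hy : y ∈ frontier K) (h : cd K m x y = 0) :
    x = y ∨ m (arc K x y) = 0 ∨ m (arc K y x) = 0 := by
  by_cases hxy : x = y
  · exact Or.inl hxy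
  right
  rw [a7_cd_of_ne hxy, AddCircle.coe_eq_zero_iff] at h
  obtain ⟨n, hn⟩ := h
  rw [zsmul_eq_mul, mul_one] at hn
  have h1 := arc_add hK hS hfin hm hx hy hxy
  have h2 := hm.nonneg (arc K x y)
  have h3 := hm.nonneg (arc K y x)
  have h4 : (0 : ℝ) ≤ (n : ℝ) := by rw [hn]; exact h2
  have h5 : (n : ℝ) ≤ 1 := by rw [hn]; linarith
  have h6 : 0 ≤ n := by exact_mod_cast h4
  have h7 : n ≤ 1 := by exact_mod_cast h5
  have h8 : n = 0 ∨ n = 1 := by omega
  rcases h8 with h8 | h8
  · left
    rw [← hn, h8, Int.cast_zero]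
  · right
    rw [h8, Int.cast_one] at hn
    linarith

end ChordMaps
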