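import Pool.Agent.Helper95.AM.A07

set_option autoImplicit false

/-! # AM-08: the circle coordinate

Take `x0 ∈ frontier K` (`msupp_nonempty`, `msupp_frontier`), `h x = cd K m x0 x`, `α u = h (chord K u x0)`.
* For `x ∈ frontier K`: `h (f x) = cd x0 (f x0) + cd (f x0) (f x) = α u - cd x0 x` (`cd_add`, `cd_chord`; `chord_mem`).
* For an edge `(a, b)` of `M = msupp K m` (`Edge M a b`: `a, b ∈ M`, `a ≠ b`, `0 ≤ cross (b - a) (x - a)` on `M`) the arc
  `arc K a b` contains no point of `M`, so it is null (`arc_null`), `cd a b = 0` and `h b = h a + cd a b = h a`.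
* Injectivity: let `(a, b)`, `(a', b')` be edges with `h a = h a'`, `a ≠ a'`.  `cd a a' = 0` (`cd_add`), so by
  `cd_eq_zero` one of the arcs `arc a a'`, `arc a' a` is null; by symmetry (exchange the two edges) let
  `m (arc K a a') = 0`.  Then `arc K a a'` contains no point of `M` (`arc_pos`), so `(a, a')` is an edge: for `x ∈ M`,
  `x ≠ a, a'`, `cross (a' - a) (x - a) ≠ 0` and not `< 0`.  So `a' = b` by `Edge.out_unique`.  Now `(a, b)` and
  `(b, b')` are edges.  `b` is in the support but isolated: there is `r > 0` with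
  `ball b r ∩ frontier K ⊆ {b} ∪ (arc K a b ∪ arc K b b')`: if `b' ≠ a`, then
  `0 < cross (b - a) (b' - a)` (`Edge.pos`), by `arc_split` `arc K a b' = arc K a b ∪ arc K b b' ∪ {b}`, and `b ∈ arc K a b'`
  which is relatively open (see `arc_pos`); if `b' = a`, then `frontier K = arc K a b ∪ arc K b a ∪ {a} ∪ {b}`
  (`arc_frontier`) and one takes `r ≤ dist a b`.  The right side has measure `0` (`arc_null`, `m_singleton`, `union_le`).
  Contradiction to `b ∈ msupp K m`. -/

namespace ChordMaps

variable {K S : Set Plane} {m : Set Plane → ℝ}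

private lemma edge_null (hK : SBody K) (hS : ∀ v ∈ S, v ≠ 0) (hfin : NoFin K S)
    (hm : InvMean K S m) {a b : Plane} (he : Edge (msupp K m) a b) : m (arc K a b) = 0 := by
  obtain ⟨ha, hb, hab, h⟩ := he
  refine arc_null hK hS hfin hm (msupp_frontier K m ha) (msupp_frontier K m hb) hab ?_
  rw [Set.disjoint_left]
  intro z hz hz'
  exact absurd (h z hz') (not_le.2 hz.2)

private lemma edge_false (hK : SBody K) (hS : ∀ v ∈ S, v ≠ 0) (hfin : NoFin K S)
    (hm : InvMean K S m) {a b a' b' : Plane} (he : Edge (msupp K m) a b)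
    (he' : Edge (msupp K m) a' b') (hne : a ≠ a') (h0 : m (arc K a a') = 0) : False := by
  have haF := msupp_frontier K m he.1
  have hedge : Edge (msupp K m) a a' := by
    refine ⟨he.1, he'.1, hne, fun x hx => ?_⟩
    by_contra hcon
    have h1 : x ∈ arc K a a' := ⟨msupp_frontier K m hx, not_le.1 hcon⟩
    exact (arc_pos hm h1 hx).ne' h0
  have hb : b = a' := Edge.out_unique hK.clo hK.str (msupp_frontier K m) he hedge
  subst hb
  have hbF := msupp_frontier K m he'.1
  have n1 := edge_null hK hS hfin hm he
  have n2 := edge_null hK hS hfin hm he'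
  have n3 := m_singleton hK hS hfin hm hbF
  have n4 := m_singleton hK hS hfin hm haF
  by_cases hb' : b' = a
  · subst hb'
    have h1 := hm.tot
    rw [arc_frontier hK haF hbF hne] at h1
    have h2 := hm.union_le ((arc_measurable K b' b).union (arc_measurable K b b'))
      ((measurableSet_singleton b').union (measurableSet_singleton b))
    have h3 := hm.union_le (arc_measurable K b' b) (arc_measurable K b b')
    have h4 := hm.union_le (measurableSet_singleton b') (measurableSet_singleton b)
    linarith
  · have hb'F := msupp_frontier K m he'.2.1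
    have hpos := he.pos hK.clo hK.str (msupp_frontier K m) he'.2.1 hb' he'.2.2.1.symm
    obtain ⟨h1, -⟩ := arc_split hK haF hbF hb'F hpos
    have h2 : b ∈ arc K a b' := by
      rw [h1]
      exact Or.inr rfl
    have h3 := arc_pos hm h2 he'.1
    rw [h1] at h3
    have h4 := hm.union_le ((arc_measurable K a b).union (arc_measurable K b b'))
      (measurableSet_singleton b)
    have h5 := hm.union_le (arc_measurable K a b) (arc_measurable K b b')
    linarith

theorem exists_coord (hK : SBody K) (hS : ∀ v ∈ S, v ≠ 0) (hfin : NoFin K S)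
    (hm : InvMean K S m) :
    ∃ (h α : Plane → AddCircle (1 : ℝ)),
      (∀ x ∈ frontier K, ∀ y ∈ frontier K, h y - h x = cd K m x y) ∧
      (∀ u ∈ S, ∀ x ∈ frontier K, h (chord K u x) = α u - h x) ∧
      (∀ a b, Edge (msupp K m) a b → h a = h b) ∧
      (∀ a b a' b', Edge (msupp K m) a b → Edge (msupp K m) a' b' → h a = h a' → a = a') := by
  obtain ⟨x0, hx0⟩ := msupp_nonempty hK hm
  have hx0F := msupp_frontier K m hx0
  have hP1 : ∀ x ∈ frontier K, ∀ y ∈ frontier K, cd K m x0 y - cd K m x0 x = cd K m x y := by
    intro x hx y hy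
    rw [← cd_add hK hS hfin hm hx0F hx hy]
    abel
  refine ⟨fun x => cd K m x0 x, fun u => cd K m x0 (chord K u x0), hP1, ?_, ?_, ?_⟩
  · intro u hu x hx
    have h1 := cd_add hK hS hfin hm hx0F (chord_mem (u := u) hx0F) (chord_mem (u := u) hx)
    rw [cd_chord hK hS hfin hm hu hx0F hx] at h1
    simp only
    rw [← h1]
    abel
  · intro a b he
    have h1 := hP1 a (msupp_frontier K m he.1) b (msupp_frontier K m he.2.1)
    have h2 : cd K m a b = 0 := by
      unfold cd
      rw [if_neg he.2.2.1, edge_null hK hS hfin hm he]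
      simp
    rw [h2] at h1
    simp only
    exact (sub_eq_zero.1 h1).symm
  · intro a b a' b' he he' hh
    have haF := msupp_frontier K m he.1
    have haF' := msupp_frontier K m he'.1
    have h1 := hP1 a haF a' haF'
    simp only at hh
    rw [hh, sub_self] at h1
    rcases cd_eq_zero hK hS hfin hm haF haF' h1.symm with h2 | h2 | h2
    · exact h2
    · by_contra hne
      exact edge_false hK hS hfin hm he he' hne h2
    · by_contra hne
      exact edge_false hK hS hfin hm he' he (Ne.symm hne) h2

end ChordMaps
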