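import Pool.Agent.Helper95.AM.Defs

set_option autoImplicit false

/-! # AM-09: the field of gap vectors on the circle

`E t = b - a` if there is an edge `(a, b)` of `M` with `h a = t` (`Classical.choose`; `a` is unique by `hinj`, `b` by
`Edge.out_unique`), and `E t = 0` otherwise.
* `E (h a) = b - a` for every edge.
* Functional equation for `u ∈ S`, `f = chord K u`: if `(a, b)` is an edge with `h a = t`, then `(f b, f a)` is an edge
  (`edge_chord` in Flow.lean) and `h (f b) = α u - h b = α u - t`; so `E (α u - t) = f a - f b`, and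
  `cross u (f a - f b) = cross u a - cross u b` (`cross_chord`).  If there is no edge over `t`, then there is none over
  `α u - t` (apply the previous argument to `α u - t` and `α u - (α u - t) = t`), both sides are `0`.
* Summability: with `D = {a | ∃ b, Edge M a b}` the map `D → AddCircle 1`, `a ↦ h a` is injective and `E` vanishes outside of its
  range; `Function.Injective.summable_iff` reduces to `summable_out` (Flow.lean; `outP_edge`). -/

namespace ChordMaps

variable {K S M : Set Plane} {h α : Plane → AddCircle (1 : ℝ)}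

theorem exists_E (hK : SBody K) (hS : ∀ v ∈ S, v ≠ 0) (hM : M ⊆ frontier K)
    (hinv : ∀ v ∈ S, Inv K M v)
    (h1 : ∀ u ∈ S, ∀ x ∈ frontier K, h (chord K u x) = α u - h x)
    (h2 : ∀ a b, Edge M a b → h a = h b)
    (h3 : ∀ a b a' b', Edge M a b → Edge M a' b' → h a = h a' → a = a') :
    ∃ E : AddCircle (1 : ℝ) → Plane,
      (∀ a b, Edge M a b → E (h a) = b - a) ∧
      (∀ t, E t ≠ 0 → ∃ a b, Edge M a b ∧ h a = t) ∧
      (∀ u ∈ S, ∀ t, cross u (E (α u - t)) = - cross u (E t)) ∧
      (∀ u ∈ S, Summable (fun t => cross u (E t))) := by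
  classical
  obtain ⟨E, hE⟩ : ∃ E : AddCircle (1 : ℝ) → Plane, ∀ t, E t =
      if hex : ∃ p : Plane × Plane, Edge M p.1 p.2 ∧ h p.1 = t then
        hex.choose.2 - hex.choose.1 else 0 := ⟨_, fun _ => rfl⟩
  have hE1 : ∀ a b, Edge M a b → E (h a) = b - a := by
    intro a b hab
    have hex : ∃ p : Plane × Plane, Edge M p.1 p.2 ∧ h p.1 = h a := ⟨(a, b), hab, rfl⟩
    rw [hE, dif_pos hex]
    obtain ⟨he, hp⟩ := hex.choose_spec
    have h4 := h3 _ _ _ _ he hab hp
    rw [h4] at he ⊢
    rw [he.out_unique hK.clo hK.str hM hab]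
  have hE0 : ∀ t, (¬ ∃ a b, Edge M a b ∧ h a = t) → E t = 0 := by
    intro t ht
    rw [hE, dif_neg]
    rintro ⟨p, hp⟩
    exact ht ⟨p.1, p.2, hp⟩
  have hE2 : ∀ t, E t ≠ 0 → ∃ a b, Edge M a b ∧ h a = t := by
    intro t ht
    by_contra hcon
    exact ht (hE0 t hcon)
  -- the image of an edge
  have key : ∀ u ∈ S, ∀ a b, Edge M a b → Edge M (chord K u b) (chord K u a) ∧
      h (chord K u b) = α u - h a := by
    intro u hu a b hab
    refine ⟨edge_chord hK.cpt hK.cvx hK.str hM (hS u hu) (hinv u hu) hab, ?_⟩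
    rw [h1 u hu b (hM hab.2.1), h2 a b hab]
  refine ⟨E, hE1, hE2, fun u hu t => ?_, fun u hu => ?_⟩
  · by_cases ht : ∃ a b, Edge M a b ∧ h a = t
    · obtain ⟨a, b, hab, rfl⟩ := ht
      obtain ⟨k1, k2⟩ := key u hu a b hab
      rw [← k2, hE1 _ _ k1, hE1 _ _ hab, cross_sub_right, cross_sub_right, cross_chord,
        cross_chord]
      ring
    · have h5 : ¬ ∃ a b, Edge M a b ∧ h a = α u - t := by
        rintro ⟨a, b, hab, hat⟩
        obtain ⟨k1, k2⟩ := key u hu a b hab
        refine ht ⟨_, _, k1, ?_⟩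
        rw [k2, hat, sub_sub_cancel]
      rw [hE0 t ht, hE0 _ h5]
      simp [cross]
  · obtain ⟨D, hD⟩ : ∃ D : Set Plane, ∀ a, a ∈ D ↔ ∃ b, Edge M a b :=
      ⟨{a | ∃ b, Edge M a b}, fun _ => Iff.rfl⟩
    have hinj : Function.Injective (fun a : D => h a) := by
      intro a a' haa
      obtain ⟨b, hb⟩ := (hD _).1 a.2
      obtain ⟨b', hb'⟩ := (hD _).1 a'.2
      exact Subtype.ext (h3 _ _ _ _ hb hb' haa)
    rw [← hinj.summable_iff]
    · refine (summable_out hK.cpt hK.cvx hK.str hM (hS u hu) (hinv u hu) D).congr fun a => ?_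
      obtain ⟨b, hb⟩ := (hD _).1 a.2
      show _ = cross u (E (h a))
      rw [hE1 _ _ hb, outP_edge hK.clo hK.str hM hb, cross_sub_right]
    · intro t ht
      have h6 : E t = 0 := by
        refine hE0 t ?_
        rintro ⟨a, b, hab, hat⟩
        exact ht ⟨⟨a, (hD a).2 ⟨b, hab⟩⟩, hat⟩
      rw [h6]
      simp [cross]

end ChordMaps
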