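import Pool.Agent.Helper95.AM.Defs

set_option autoImplicit false

/-! # AM-10: the functional equation of the exponential sums

* `fc_reflect`: reindex the sum by the involution `t ↦ α - t` (`Equiv.subLeft α`, `Equiv.tsum_eq`):
  `fc g k = ∑' t, g (α - t) * fourier k (α - t) = - ∑' t, g t * (fourier k α * conj (fourier k t))`
  (`fourier_apply`, `AddCircle.toCircle_add`, or `fourier_coe`-lemmas; `fourier_neg`), then `tsum_mul_left`,
  `Complex.conj_tsum`/`map_tsum` (conj of a real number is itself).
* `fc_add`, `fc_smul`: linearity (`Summable` is needed for `fc_add`; the terms are summable because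
  `‖fourier k t‖ = 1` and a summable real family is absolutely summable, `summable_norm_iff`/`Summable.abs`).
* `fourier_add_pt`: `fourier k (s + t) = fourier k s * fourier k t`; `fourier_nsmul`: `fourier (k + j * q) t = fourier k t * fourier 1 (q • t) ^ j`.  -/

namespace ChordMaps

open ComplexConjugate

variable {g g' : AddCircle (1 : ℝ) → ℝ}

theorem fourier_add_pt (k : ℤ) (s t : AddCircle (1 : ℝ)) :
    (fourier k (s + t) : ℂ) = fourier k s * fourier k t := by
  rw [fourier_apply, fourier_apply, fourier_apply, smul_add, AddCircle.toCircle_add,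
    Circle.coe_mul]

private theorem fourier_zpow (k : ℤ) (t : AddCircle (1 : ℝ)) :
    (fourier k t : ℂ) = fourier 1 t ^ k := by
  rw [fourier_apply, fourier_apply, one_smul, AddCircle.toCircle_zsmul, Circle.coe_zpow]

theorem fourier_nsmul (k : ℤ) (j q : ℕ) (t : AddCircle (1 : ℝ)) :
    (fourier (k + (j * q : ℕ)) t : ℂ) = fourier k t * fourier 1 (q • t) ^ j := by
  rw [fourier_add, fourier_zpow ((j * q : ℕ) : ℤ), zpow_natCast, mul_comm j q, pow_mul]
  congr 2
  rw [fourier_apply, fourier_apply, one_smul, one_smul, AddCircle.toCircle_nsmul, Circle.coe_pow]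

theorem norm_fourier_pt (k : ℤ) (t : AddCircle (1 : ℝ)) : ‖(fourier k t : ℂ)‖ = 1 := by
  rw [fourier_apply]
  exact Circle.norm_coe _

theorem fc_summable (hg : Summable g) (k : ℤ) :
    Summable (fun t : AddCircle (1 : ℝ) => (g t : ℂ) * fourier k t) := by
  refine Summable.of_norm ?_
  have h : (fun t : AddCircle (1 : ℝ) => ‖(g t : ℂ) * fourier k t‖) = fun t => |g t| := by
    ext t
    rw [norm_mul, norm_fourier_pt, mul_one, Complex.norm_real, Real.norm_eq_abs]
  rw [h]
  exact hg.abs

theorem fc_add (hg : Summable g) (hg' : Summable g') (a b : ℝ) (k : ℤ) :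
    fc (fun t => a * g t + b * g' t) k = a * fc g k + b * fc g' k := by
  unfold fc
  rw [← tsum_mul_left, ← tsum_mul_left,
    ← Summable.tsum_add ((fc_summable hg k).mul_left _) ((fc_summable hg' k).mul_left _)]
  refine tsum_congr fun t => ?_
  push_cast
  ring

theorem fc_reflect (hg : Summable g) {α : AddCircle (1 : ℝ)} (h : ∀ t, g (α - t) = - g t)
    (k : ℤ) : fc g k = - (fourier k α * conj (fc g k)) := by
  have h1 : fc g k = ∑' t, (g (α - t) : ℂ) * fourier k (α - t) :=
    ((Equiv.subLeft α).tsum_eq (fun t => (g t : ℂ) * fourier k t)).symm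
  have h2 : conj (fc g k) = ∑' t, conj ((g t : ℂ) * fourier k t) := by
    unfold fc
    exact Complex.conj_tsum _
  rw [h1, ← neg_mul, ← h1, h2, ← tsum_mul_left, h1]
  refine tsum_congr fun t => ?_
  rw [h, sub_eq_add_neg, fourier_add_pt, map_mul, Complex.conj_ofReal, ← fourier_neg]
  have h3 : (fourier k (-t) : ℂ) = fourier (-k) t := by
    rw [fourier_apply, fourier_apply, smul_neg, neg_smul]
  rw [h3]
  push_cast
  ring

end ChordMaps
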