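import Pool.Agent.Helper95.AM.Defs

set_option autoImplicit false

/-! # AM-11: the cross ratio relation

Write `[i j] = cross (u i) (u j)`.  Put `A = [0 1][2 3]`, `B = [0 3][1 2]`, `C = - [0 2][1 3]`, so `A + B + C = 0` (Pluecker, `ring`).

`unit_relation`: let `z i = - w i * conj (z i)`, `‖w i‖ = 1`.  Then `conj (z i) = - conj (w i) * z i`, i.e. with
`y i = conj (z i)`: `z i = - w i * y i`.  The relation `lin` for `(0, 1, 2)`:
`[0 1] z 2 + [1 2] z 0 + [2 0] z 1 = 0`, and its conjugate `[0 1] y 2 + [1 2] y 0 + [2 0] y 1 = 0`.  Insert `z i = - w i y i`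
in the first one and subtract `- w 2` times the second one:
`[1 2] (w 0 - w 2) y 0 + [2 0] (w 1 - w 2) y 1 = 0`.  In the same way from `(0, 1, 3)`:
`[1 3] (w 0 - w 3) y 0 + [3 0] (w 1 - w 3) y 1 = 0`.  If `y 0 = y 1 = 0` then all `z i = 0` (`lin`, `[0 1] ≠ 0`).  So the
determinant vanishes: `[1 2][3 0] (w 0 - w 2)(w 1 - w 3) = [2 0][1 3] (w 1 - w 2)(w 0 - w 3)`, i.e.
`[1 2][0 3] (w 0 - w 2)(w 1 - w 3) = [0 2][1 3] (w 1 - w 2)(w 0 - w 3)`.  Expanding and using `A = - B - C` this is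
`A (w0 w1 + w2 w3) + B (w0 w3 + w1 w2) + C (w0 w2 + w1 w3) = 0` up to sign (`linear_combination`). -/

namespace ChordMaps

open ComplexConjugate

theorem unit_relation (u : Fin 4 → Plane) (hu : PNP u) (w z : Fin 4 → ℂ)
    (hw : ∀ i, ‖w i‖ = 1) (hz : ∀ i, z i = - (w i * conj (z i)))
    (lin : ∀ i j k, (cross (u i) (u j) : ℂ) * z k + (cross (u j) (u k) : ℂ) * z i +
      (cross (u k) (u i) : ℂ) * z j = 0) (hne : ∃ i, z i ≠ 0) :
    ((cross (u 0) (u 1) * cross (u 2) (u 3) : ℝ) : ℂ) * (w 0 * w 1 + w 2 * w 3) +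
      ((cross (u 0) (u 3) * cross (u 1) (u 2) : ℝ) : ℂ) * (w 0 * w 3 + w 1 * w 2) +
      ((- (cross (u 0) (u 2) * cross (u 1) (u 3)) : ℝ) : ℂ) * (w 0 * w 2 + w 1 * w 3) = 0 := by
  have hlin2 : ∀ i j k, (cross (u i) (u j) : ℂ) * conj (z k) + (cross (u j) (u k) : ℂ) * conj (z i) +
      (cross (u k) (u i) : ℂ) * conj (z j) = 0 := by
    intro i j k
    have := congrArg conj (lin i j k)
    simpa using this
  have hsymm : ∀ i j, (cross (u i) (u j) : ℂ) = - (cross (u j) (u i) : ℂ) := by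
    intro i j
    have : cross (u i) (u j) = - cross (u j) (u i) := by
      unfold cross; ring
    rw [this]; push_cast; ring
  have hpl : (cross (u 0) (u 1) : ℂ) * cross (u 2) (u 3) + (cross (u 0) (u 3) : ℂ) * cross (u 1) (u 2)
      = (cross (u 0) (u 2) : ℂ) * cross (u 1) (u 3) := by
    have : cross (u 0) (u 1) * cross (u 2) (u 3) + cross (u 0) (u 3) * cross (u 1) (u 2)
      = cross (u 0) (u 2) * cross (u 1) (u 3) := by
      unfold cross; ring
    exact_mod_cast this
  have a1 := lin 0 1 2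
  have a2 := hlin2 0 1 2
  have a3 := lin 0 1 3
  have a4 := hlin2 0 1 3
  have z0 := hz 0
  have z1 := hz 1
  have z2 := hz 2
  have z3 := hz 3
  generalize conj (z 0) = y0 at *
  generalize conj (z 1) = y1 at *
  generalize conj (z 2) = y2 at *
  generalize conj (z 3) = y3 at *
  rw [hsymm 2 0] at a1 a2
  rw [hsymm 3 0] at a3 a4
  have h01 : (cross (u 0) (u 1) : ℂ) ≠ 0 := Complex.ofReal_ne_zero.2 (hu 0 1 (by decide))
  have b1 : (cross (u 1) (u 2) : ℂ) * (w 2 - w 0) * y0 - (cross (u 0) (u 2) : ℂ) * (w 2 - w 1) * y1 = 0 := by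
    rw [z0, z1, z2] at a1
    linear_combination a1 + w 2 * a2
  have b2 : (cross (u 1) (u 3) : ℂ) * (w 3 - w 0) * y0 - (cross (u 0) (u 3) : ℂ) * (w 3 - w 1) * y1 = 0 := by
    rw [z0, z1, z3] at a3
    linear_combination a3 + w 3 * a4
  have hdet : ((cross (u 1) (u 2) : ℂ) * (w 2 - w 0)) * ((cross (u 0) (u 3) : ℂ) * (w 3 - w 1))
      - ((cross (u 0) (u 2) : ℂ) * (w 2 - w 1)) * ((cross (u 1) (u 3) : ℂ) * (w 3 - w 0)) = 0 := by
    by_cases hy0 : y0 = 0
    · by_cases hy1 : y1 = 0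
      · exfalso
        rw [hy0, mul_zero, neg_zero] at z0
        rw [hy1, mul_zero, neg_zero] at z1
        rw [z0, z1] at a1 a3
        have c2 : z 2 = 0 := by
          have : (cross (u 0) (u 1) : ℂ) * z 2 = 0 := by linear_combination a1
          exact (mul_eq_zero.1 this).resolve_left h01
        have c3 : z 3 = 0 := by
          have : (cross (u 0) (u 1) : ℂ) * z 3 = 0 := by linear_combination a3
          exact (mul_eq_zero.1 this).resolve_left h01
        obtain ⟨i, hi⟩ := hne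
        fin_cases i
        · exact hi z0
        · exact hi z1
        · exact hi c2
        · exact hi c3
      · apply (mul_eq_zero.1 (_ : _ * y1 = 0)).resolve_right hy1
        linear_combination ((cross (u 1) (u 3) : ℂ) * (w 3 - w 0)) * b1
          - ((cross (u 1) (u 2) : ℂ) * (w 2 - w 0)) * b2
    · apply (mul_eq_zero.1 (_ : _ * y0 = 0)).resolve_right hy0
      linear_combination ((cross (u 0) (u 3) : ℂ) * (w 3 - w 1)) * b1
          - ((cross (u 0) (u 2) : ℂ) * (w 2 - w 1)) * b2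
  push_cast
  linear_combination (-1) * hdet + (w 0 * w 1 + w 2 * w 3) * hpl

end ChordMaps
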