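import Mathlib

set_option autoImplicit false

/-! # AM-12: power sums with multiplicities (Vandermonde)

Let `Y = Finset.univ.image y` (the values), `|Y| ≤ card ι`.  If `z ∉ Y` the sum is empty.  Otherwise take the polynomial
`Q = ∏_{v ∈ Y \ {z}} (X - v)` of degree `< card ι`; `∑ i, c i * Q.eval (y i) = ∑_j coeff Q j * ∑ i, c i * y i ^ j = 0`
(`Polynomial.eval_eq_sum_range'`), and `Q.eval (y i) = 0` unless `y i = z`, `Q.eval z ≠ 0`
(`Polynomial.eval_prod`, `Finset.prod_ne_zero_iff`). -/

namespace ChordMaps

theorem sum_fiber_eq_zero {ι : Type*} [Fintype ι] (c y : ι → ℂ)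
    (h : ∀ j : ℕ, j < Fintype.card ι → ∑ i, c i * y i ^ j = 0) (z : ℂ) :
    ∑ i ∈ Finset.univ.filter (fun i => y i = z), c i = 0 := by
  classical
  by_cases hz : z ∈ Finset.univ.image y
  · set Q : Polynomial ℂ :=
      ∏ v ∈ (Finset.univ.image y).erase z, (Polynomial.X - Polynomial.C v) with hQ
    have hdeg : Q.natDegree < Fintype.card ι := by
      have h1 : Q.natDegree = ((Finset.univ.image y).erase z).card :=
        Polynomial.natDegree_finsetProd_X_sub_C_eq_card _ (fun v => v)
      have h2 : ((Finset.univ.image y).erase z).card < (Finset.univ.image y).card :=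
        Finset.card_erase_lt_of_mem hz
      have h3 : (Finset.univ.image y).card ≤ Fintype.card ι := Finset.card_image_le
      omega
    have h1 : ∑ i, c i * Q.eval (y i) = 0 := by
      have h2 : ∀ i, c i * Q.eval (y i) =
          ∑ j ∈ Finset.range (Fintype.card ι), Q.coeff j * (c i * y i ^ j) := by
        intro i
        rw [Polynomial.eval_eq_sum_range' hdeg, Finset.mul_sum]
        refine Finset.sum_congr rfl fun j _ => ?_
        ring
      rw [Finset.sum_congr rfl fun i _ => h2 i, Finset.sum_comm]
      refine Finset.sum_eq_zero fun j hj => ?_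
      rw [← Finset.mul_sum, h j (Finset.mem_range.1 hj), mul_zero]
    have h4 : ∀ i, y i ≠ z → Q.eval (y i) = 0 := by
      intro i hi
      rw [hQ, Polynomial.eval_prod]
      refine Finset.prod_eq_zero (i := y i)
        (Finset.mem_erase.2 ⟨hi, Finset.mem_image_of_mem y (Finset.mem_univ i)⟩) ?_
      simp
    have h5 : Q.eval z ≠ 0 := by
      rw [hQ, Polynomial.eval_prod, Finset.prod_ne_zero_iff]
      intro v hv
      simp only [Polynomial.eval_sub, Polynomial.eval_X, Polynomial.eval_C]
      exact sub_ne_zero.2 (Finset.mem_erase.1 hv).1.symm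
    have h6 : ∑ i, c i * Q.eval (y i) =
        (∑ i ∈ Finset.univ.filter (fun i => y i = z), c i) * Q.eval z := by
      rw [Finset.sum_mul, Finset.sum_filter]
      refine Finset.sum_congr rfl fun i _ => ?_
      by_cases hi : y i = z
      · rw [if_pos hi, hi]
      · rw [if_neg hi, h4 i hi, mul_zero]
    rw [h6] at h1
    exact (mul_eq_zero.1 h1).resolve_right h5
  · refine Finset.sum_eq_zero fun i hi => ?_
    exact absurd (Finset.mem_image.2 ⟨i, Finset.mem_univ i, (Finset.mem_filter.1 hi).2⟩) hz

end ChordMaps
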