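import Mathlib

set_option autoImplicit false

/-! # AM-13: the case analysis

`unit_triple`: `A x + B y + C z = 0` with real `A + B + C = 0`, all nonzero, `|x| = |y| = |z| = 1` implies
`x = y = z`.  Proof: dividing by `x` let `x = 1`: `- A = B y + C z`; taking `normSq`:
`A² = B² + C² + 2 B C Re (y conj z)` and `A² = (B + C)²`, so `Re (y conj z) = 1`, hence `y = z`
(`|y - z|² = 2 - 2 Re (y conj z)`), and `A + (B + C) y = 0` gives `y = 1`.

`case_analysis`: `hs s` says: the sum of `c_P * w_i * w_j` over the pairs `P = {i, j}` with `ε i + ε j = s` is zero, where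
`c_{01} = c_{23} = A`, `c_{03} = c_{12} = B`, `c_{02} = c_{13} = C`.  Let `ε 0 ≤ ε 1 ≤ ε 2 ≤ ε 3`.
(i) If `ε 1 < ε 2`, take `s = ε 2 + ε 3`: all other pair sums are smaller; `A * w 2 * w 3 = 0`, contradiction.  So `ε 1 = ε 2`.
(ii) If `ε 0 < ε 1` and `ε 2 < ε 3`: `s = ε 2 + ε 3`: only the pairs `{2, 3}`, `{1, 3}` have this sum, so
`A w2 w3 + C w1 w3 = 0`, `|A| = |C|`, so `A = C` or `A = - C`, i.e. `B = 0`; contradiction.
(iii) If `ε 0 < ε 1 = ε 2 = ε 3`: `s = ε 0 + ε 1`: the pairs `{0,1}, {0,2}, {0,3}`: `w 0 * (A w1 + C w2 + B w3) = 0`, so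
`w 1 = w 2 = w 3` by `unit_triple`.
(iv) If `ε 0 = ε 1 = ε 2 < ε 3`: `s = ε 2 + ε 3`: the pairs `{0,3}, {1,3}, {2,3}`: `w 3 * (B w0 + C w1 + A w2) = 0`, so
`w 0 = w 1 = w 2`.
(v) otherwise all are equal.  (Use `simp [if_pos, if_neg]` after establishing which sums are equal.)

`case_conclusion`: the result in the form which is independent of the order. -/

namespace ChordMaps

private theorem norm_one_sq {x : ℂ} (hx : ‖x‖ = 1) : x.re ^ 2 + x.im ^ 2 = 1 := by
  have h := Complex.sq_norm x
  rw [hx, Complex.normSq_apply] at h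
  nlinarith

theorem unit_triple {A B C : ℝ} (hA : A ≠ 0) (hB : B ≠ 0) (hC : C ≠ 0) (h : A + B + C = 0)
    {x y z : ℂ} (hx : ‖x‖ = 1) (hy : ‖y‖ = 1) (hz : ‖z‖ = 1)
    (he : (A : ℂ) * x + B * y + C * z = 0) : x = y ∧ y = z := by
  have h1 := norm_one_sq hx
  have h2 := norm_one_sq hy
  have h3 := norm_one_sq hz
  have e1 := congrArg Complex.re he
  have e2 := congrArg Complex.im he
  simp at e1 e2
  have hA' : A = -(B + C) := by linarith
  have k1 : (B * y.re + C * z.re) ^ 2 + (B * y.im + C * z.im) ^ 2 = A ^ 2 := by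
    have a1 : B * y.re + C * z.re = - (A * x.re) := by linarith
    have a2 : B * y.im + C * z.im = - (A * x.im) := by linarith
    rw [a1, a2]
    have : A ^ 2 * (x.re ^ 2 + x.im ^ 2) = A ^ 2 := by rw [h1, mul_one]
    linarith
  have k2 : (B * C) * (y.re * z.re + y.im * z.im - 1) = 0 := by
    rw [hA'] at k1
    linear_combination (1/2) * k1 - (1/2) * B ^ 2 * h2 - (1/2) * C ^ 2 * h3
  have k3 : y.re * z.re + y.im * z.im = 1 := by
    rcases mul_eq_zero.1 k2 with h | h
    · exact absurd h (mul_ne_zero hB hC)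
    · linarith
  have k4 : (y.re - z.re) ^ 2 + (y.im - z.im) ^ 2 = 0 := by
    linear_combination h2 + h3 - 2 * k3
  have k5 : y.re = z.re := by nlinarith [sq_nonneg (y.re - z.re), sq_nonneg (y.im - z.im)]
  have k6 : y.im = z.im := by nlinarith [sq_nonneg (y.re - z.re), sq_nonneg (y.im - z.im)]
  have hyz : y = z := Complex.ext k5 k6
  refine ⟨?_, hyz⟩
  rw [← hyz] at he
  have h' : (A : ℂ) + B + C = 0 := by
    have := congrArg (fun r : ℝ => (r : ℂ)) h
    simpa using this
  have h7 : (A : ℂ) * (x - y) = 0 := by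
    linear_combination he - y * h'
  rcases mul_eq_zero.1 h7 with h8 | h8
  · exact absurd (Complex.ofReal_eq_zero.1 h8) hA
  · exact sub_eq_zero.1 h8

theorem case_analysis {A B C : ℝ} (hA : A ≠ 0) (hB : B ≠ 0) (hC : C ≠ 0) (h : A + B + C = 0)
    (hAC : A ≠ C) (w : Fin 4 → ℂ) (hw : ∀ i, ‖w i‖ = 1) (ε : Fin 4 → ℝ)
    (h01 : ε 0 ≤ ε 1) (h12 : ε 1 ≤ ε 2) (h23 : ε 2 ≤ ε 3)
    (hs : ∀ s : ℝ,
      (if ε 0 + ε 1 = s then (A : ℂ) * (w 0 * w 1) else 0) +
      (if ε 2 + ε 3 = s then (A : ℂ) * (w 2 * w 3) else 0) +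
      (if ε 0 + ε 3 = s then (B : ℂ) * (w 0 * w 3) else 0) +
      (if ε 1 + ε 2 = s then (B : ℂ) * (w 1 * w 2) else 0) +
      (if ε 0 + ε 2 = s then (C : ℂ) * (w 0 * w 2) else 0) +
      (if ε 1 + ε 3 = s then (C : ℂ) * (w 1 * w 3) else 0) = 0) :
    ∃ l : Fin 4, (∀ i j, i ≠ l → j ≠ l → ε i = ε j) ∧
      ((∀ i, ε i = ε l) ∨ ∀ i j, i ≠ l → j ≠ l → w i = w j) := by
  have hw0 : ∀ i, w i ≠ 0 := by
    intro i hi
    have := hw i
    rw [hi, norm_zero] at this
    exact zero_ne_one this
  have hAc : (A : ℂ) ≠ 0 := Complex.ofReal_ne_zero.2 hA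
  have hBc : (B : ℂ) ≠ 0 := Complex.ofReal_ne_zero.2 hB
  have hCc : (C : ℂ) ≠ 0 := Complex.ofReal_ne_zero.2 hC
  -- (i)
  have e12 : ε 1 = ε 2 := by
    by_contra hne
    have hlt : ε 1 < ε 2 := lt_of_le_of_ne h12 hne
    have := hs (ε 2 + ε 3)
    rw [if_neg (by linarith), if_pos rfl, if_neg (by linarith), if_neg (by linarith),
      if_neg (by linarith), if_neg (by linarith)] at this
    simp at this
    rcases this with h | h | h
    · exact hA h
    · exact hw0 _ h
    · exact hw0 _ h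
  by_cases c01 : ε 0 = ε 1
  · by_cases c23 : ε 2 = ε 3
    · -- all equal
      refine ⟨0, ?_, Or.inl ?_⟩
      · intro i j _ _
        fin_cases i <;> fin_cases j <;> simp <;> linarith
      · intro i
        fin_cases i <;> simp <;> linarith
    · have hlt : ε 2 < ε 3 := lt_of_le_of_ne h23 c23
      have := hs (ε 2 + ε 3)
      rw [if_neg (by linarith), if_pos rfl, if_pos (by linarith), if_neg (by linarith),
        if_neg (by linarith), if_pos (by linarith)] at this
      have h2 : w 3 * ((B : ℂ) * w 0 + C * w 1 + A * w 2) = 0 := by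
        linear_combination this
      rcases mul_eq_zero.1 h2 with h3 | h3
      · exact absurd h3 (hw0 3)
      · obtain ⟨u1, u2⟩ := unit_triple hB hC hA (by linarith) (hw 0) (hw 1) (hw 2) h3
        refine ⟨3, ?_, Or.inr ?_⟩
        · intro i j hi hj
          fin_cases i <;> fin_cases j <;> simp at hi hj ⊢ <;> linarith
        · intro i j hi hj
          fin_cases i <;> fin_cases j <;> simp at hi hj ⊢ <;> simp [u1, u2]
  · have hlt0 : ε 0 < ε 1 := lt_of_le_of_ne h01 c01
    by_cases c23 : ε 2 = ε 3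
    · have := hs (ε 0 + ε 1)
      rw [if_pos rfl, if_neg (by linarith), if_pos (by linarith), if_neg (by linarith),
        if_pos (by linarith), if_neg (by linarith)] at this
      have h2 : w 0 * ((A : ℂ) * w 1 + C * w 2 + B * w 3) = 0 := by
        linear_combination this
      rcases mul_eq_zero.1 h2 with h3 | h3
      · exact absurd h3 (hw0 0)
      · obtain ⟨u1, u2⟩ := unit_triple hA hC hB (by linarith) (hw 1) (hw 2) (hw 3) h3
        refine ⟨0, ?_, Or.inr ?_⟩
        · intro i j hi hj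
          fin_cases i <;> fin_cases j <;> simp at hi hj ⊢ <;> linarith
        · intro i j hi hj
          fin_cases i <;> fin_cases j <;> simp at hi hj ⊢ <;> simp [u1, u2]
    · exfalso
      have hlt : ε 2 < ε 3 := lt_of_le_of_ne h23 c23
      have := hs (ε 2 + ε 3)
      rw [if_neg (by linarith), if_pos rfl, if_neg (by linarith), if_neg (by linarith),
        if_neg (by linarith), if_pos (by linarith)] at this
      have h2 : w 3 * ((A : ℂ) * w 2 + C * w 1) = 0 := by
        linear_combination this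
      rcases mul_eq_zero.1 h2 with h3 | h3
      · exact absurd h3 (hw0 3)
      · have h4 : (A : ℂ) * w 2 = - (C * w 1) := by linear_combination h3
        have h5 := congrArg norm h4
        rw [norm_neg, norm_mul, norm_mul, hw 2, hw 1, mul_one, mul_one, Complex.norm_real,
          Complex.norm_real, Real.norm_eq_abs, Real.norm_eq_abs] at h5
        rcases abs_eq_abs.1 h5 with h6 | h6
        · exact hAC h6
        · apply hB
          linarith

end ChordMaps
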