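import Pool.Agent.Helper95.AM.A10

set_option autoImplicit false

/-! # AM-14: recurrence of almost periodic sequences

`exists_small_multiple`: simultaneous Dirichlet for a finite set `F` of points of the circle: the group
`F → AddCircle 1` is compact, so the sequence `n • x` (`x : F → AddCircle 1` the inclusion) has two members
`n < n'` with distance `< δ` (a convergent subsequence is Cauchy; or `NormedAddCommGroup.exists_norm_nsmul_le`);
`q = n' - n`.

`fc_recurrence`: `‖fc g (k + j q) - fc g k‖ ≤ ∑' t, |g t| * ‖fourier 1 (q • t) ^ j - 1‖`.  Choose a finite set `F` of `t` with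
`∑' t ∉ F, |g t| < η / 8`, `η = ‖fc g k‖ > 0`, and `q` with `‖q • t‖ < δ'` for `t ∈ F` and for the `α i`.  For such `t`:
`‖fourier 1 (q • t) ^ j - 1‖ ≤ j * ‖fourier 1 (q • t) - 1‖ ≤ j * 2 π ‖q • t‖` (or: continuity of `fourier 1` at `0`);
for all `t` it is `≤ 2`.  So the difference is `≤ N * 2 π δ' * ∑' |g| + 2 * η / 8 < η` for small `δ'`. -/

namespace ChordMaps

open Filter Topology

theorem exists_small_multiple (F : Finset (AddCircle (1 : ℝ))) {δ : ℝ} (hδ : 0 < δ) :
    ∃ q : ℕ, 0 < q ∧ ∀ t ∈ F, ‖q • t‖ < δ := by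
  obtain ⟨a, φ, hφ, ha⟩ :=
    CompactSpace.tendsto_subseq (fun n : ℕ => fun t : F => n • (t : AddCircle (1 : ℝ)))
  obtain ⟨N, hN⟩ := Metric.cauchySeq_iff'.1 ha.cauchySeq δ hδ
  have h1 : φ N < φ (N + 1) := hφ (Nat.lt_succ_self N)
  refine ⟨φ (N + 1) - φ N, by omega, fun t ht => ?_⟩
  have h2 := (dist_le_pi_dist _ _ (⟨t, ht⟩ : F)).trans_lt (hN (N + 1) (Nat.le_succ N))
  simp only [Function.comp_apply, dist_eq_norm] at h2
  have h3 : (φ (N + 1) - φ N) • t = φ (N + 1) • t - φ N • t := by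
    rw [eq_sub_iff_add_eq, ← add_nsmul, Nat.sub_add_cancel h1.le]
  rwa [h3]

private theorem norm_pow_sub_one {z : ℂ} (hz : ‖z‖ = 1) (j : ℕ) : ‖z ^ j - 1‖ ≤ j * ‖z - 1‖ := by
  induction j with
  | zero => simp
  | succ j ih =>
    have h : z ^ (j + 1) - 1 = z ^ j * (z - 1) + (z ^ j - 1) := by ring
    rw [h]
    refine (norm_add_le _ _).trans ?_
    rw [norm_mul, norm_pow, hz, one_pow, one_mul]
    push_cast
    linarith

theorem fc_recurrence {g : AddCircle (1 : ℝ) → ℝ} (hg : Summable g) {k : ℤ} (hk : fc g k ≠ 0)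
    (N : ℕ) {ι : Type*} [Finite ι] (α : ι → AddCircle (1 : ℝ)) {δ : ℝ} (hδ : 0 < δ) :
    ∃ q : ℕ, 0 < q ∧ (∀ j : ℕ, j ≤ N → fc g (k + (j * q : ℕ)) ≠ 0) ∧ ∀ i, ‖q • α i‖ < δ := by
  classical
  have hη : 0 < ‖fc g k‖ := norm_pos_iff.2 hk
  set η := ‖fc g k‖ with hηd
  have hga : Summable fun t => |g t| := hg.abs
  -- the finite set
  obtain ⟨F, hF⟩ : ∃ F : Finset (AddCircle (1 : ℝ)),
      ∑' t : {t // t ∉ F}, |g t| < η / 4 := by
    have h := (tendsto_tsum_compl_atTop_zero fun t => |g t|).eventually (gt_mem_nhds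
      (by positivity : (0 : ℝ) < η / 4))
    exact h.exists
  have hS : 0 ≤ ∑ t ∈ F, |g t| := Finset.sum_nonneg fun t _ => abs_nonneg _
  set S := ∑ t ∈ F, |g t| with hSd
  set ε : ℝ := η / (4 * (S + 1)) with hε
  have hεpos : 0 < ε := by positivity
  obtain ⟨δ', hδ', hcont⟩ := Metric.continuousAt_iff.1
    ((fourier (T := (1 : ℝ)) 1).continuous.continuousAt (x := 0)) (ε / (N + 1)) (by positivity)
  obtain ⟨q, hq, hqs⟩ := exists_small_multiple (F ∪ (Set.finite_range α).toFinset)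
    (lt_min hδ hδ')
  refine ⟨q, hq, fun j hj => ?_, fun i => ?_⟩
  · -- the difference
    have h0 : (fourier 1 (0 : AddCircle (1 : ℝ)) : ℂ) = 1 := by
      rw [fourier_apply, smul_zero, AddCircle.toCircle_zero, Circle.coe_one]
    have hb2 : ∀ t : AddCircle (1 : ℝ), ‖(fourier 1 (q • t) : ℂ) ^ j - 1‖ ≤ 2 := fun t => by
      refine (norm_sub_le _ _).trans ?_
      rw [norm_pow, norm_fourier_pt, one_pow, norm_one]
      norm_num
    have hbF : ∀ t ∈ F, ‖(fourier 1 (q • t) : ℂ) ^ j - 1‖ ≤ ε := fun t ht => by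
      have h1 : ‖q • t‖ < δ' :=
        (hqs t (Finset.mem_union_left _ ht)).trans_le (min_le_right _ _)
      have h2 : ‖(fourier 1 (q • t) : ℂ) - 1‖ < ε / (N + 1) := by
        have h := hcont (x := q • t) (by rwa [dist_zero_right])
        rwa [h0, dist_eq_norm] at h
      refine (norm_pow_sub_one (norm_fourier_pt 1 (q • t)) j).trans ?_
      have h3 : (j : ℝ) ≤ N + 1 := by
        have : (j : ℝ) ≤ N := by exact_mod_cast hj
        linarith
      calc (j : ℝ) * ‖(fourier 1 (q • t) : ℂ) - 1‖ ≤ (N + 1) * (ε / (N + 1)) := by gcongr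
        _ = ε := by field_simp
    have hs : Summable fun t : AddCircle (1 : ℝ) =>
        |g t| * ‖(fourier 1 (q • t) : ℂ) ^ j - 1‖ :=
      Summable.of_nonneg_of_le (fun t => by positivity)
        (fun t => mul_le_mul_of_nonneg_left (hb2 t) (abs_nonneg _)) (hga.mul_right 2)
    have hd : fc g (k + (j * q : ℕ)) - fc g k =
        ∑' t : AddCircle (1 : ℝ), (g t : ℂ) * fourier k t * ((fourier 1 (q • t)) ^ j - 1) := by
      unfold fc
      rw [← Summable.tsum_sub (fc_summable hg _) (fc_summable hg _)]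
      refine tsum_congr fun t => ?_
      rw [fourier_nsmul]
      ring
    have hn : ∀ t : AddCircle (1 : ℝ), ‖(g t : ℂ) * fourier k t * ((fourier 1 (q • t)) ^ j - 1)‖ =
        |g t| * ‖(fourier 1 (q • t) : ℂ) ^ j - 1‖ := fun t => by
      rw [norm_mul, norm_mul, norm_fourier_pt, mul_one, Complex.norm_real, Real.norm_eq_abs]
    have h1 : ‖fc g (k + (j * q : ℕ)) - fc g k‖ ≤
        ∑' t : AddCircle (1 : ℝ), |g t| * ‖(fourier 1 (q • t) : ℂ) ^ j - 1‖ := by
      rw [hd]
      have h := norm_tsum_le_tsum_norm (f := fun t : AddCircle (1 : ℝ) =>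
        (g t : ℂ) * fourier k t * ((fourier 1 (q • t)) ^ j - 1)) (by simp_rw [hn]; exact hs)
      simp_rw [hn] at h
      exact h
    rw [← hs.sum_add_tsum_subtype_compl F] at h1
    have h2 : ∑ t ∈ F, |g t| * ‖(fourier 1 (q • t) : ℂ) ^ j - 1‖ ≤ S * ε := by
      rw [hSd, Finset.sum_mul]
      exact Finset.sum_le_sum fun t ht => mul_le_mul_of_nonneg_left (hbF t ht) (abs_nonneg _)
    have h3 : ∑' t : {t // t ∉ F}, |g t| * ‖(fourier 1 (q • (t : AddCircle (1 : ℝ))) : ℂ) ^ j - 1‖ ≤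
        (∑' t : {t // t ∉ F}, |g t|) * 2 := by
      rw [← tsum_mul_right]
      exact Summable.tsum_le_tsum (fun t => mul_le_mul_of_nonneg_left (hb2 t) (abs_nonneg _))
        (hs.subtype _) ((hga.subtype _).mul_right 2)
    have h4 : S * ε ≤ η / 4 := by
      rw [hε, mul_div_assoc', div_le_div_iff₀ (by positivity) (by norm_num)]
      nlinarith
    intro h5
    rw [h5, zero_sub, norm_neg] at h1
    linarith
  · exact (hqs (α i) (Finset.mem_union_right _ (by simp))).trans_le (min_le_left _ _)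

end ChordMaps
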