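import Pool.Agent.Helper95.AM.A11
import Pool.Agent.Helper95.AM.A12
import Pool.Agent.Helper95.AM.A13
import Pool.Agent.Helper95.AM.A14

set_option autoImplicit false

/-! # AM-15: the key step

Assumptions (`hE`, `hsum`) as in AM-09 for four directions.  Put `z k i = fc (fun t => cross (u i) (E t)) k`.

`field_relation`: if `z k i ≠ 0` for some `i`, then with `w i = fourier k (α i)`:
`A (w0 w1 + w2 w3) + B (w0 w3 + w1 w2) + C (w0 w2 + w1 w3) = 0` by `unit_relation` (AM-11): `hz` is `fc_reflect` (AM-10), `lin`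
follows from `cross (u i) (u j) * cross (u k) x + cyclic = 0` (`unfold cross; ring`) and `fc_add`.

`key_sorted`: let `z k i0 ≠ 0`.  `fc_recurrence` (AM-14) for `g = cross (u i0) ∘ E`, `N = 5`, `δ = 1 / 8` gives `q`.  For
`j ≤ 5`: `fourier (k + j q) (α i) = w i * x i ^ j`, `x i = fourier 1 (q • α i)` (`fourier_nsmul`, AM-10), so by `field_relation`
`∑_P c_P w_i w_j (x_i x_j) ^ j = 0` over the six pairs `P`; `sum_fiber_eq_zero` (AM-12, index type `Fin 6`) gives that for every
complex number `y` the sum of `c_P w_i w_j` over the pairs with `x_i x_j = y` is zero.  Let `ε i ∈ (-1/8, 1/8)` be the real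
representative of `q • α i` (`AddCircle.norm_eq`, `‖(x : AddCircle 1)‖ = |x - round x|`: take `ε = x - round x`).  `x i = exp (2 π i ε i)`, and `x_i x_j = x_i' x_j'` iff
`ε i + ε j = ε i' + ε j'` (both sides are in `(-1/4, 1/4)`; the map `ε ↦ (ε : AddCircle 1) ↦ toCircle` is injective on
it: `AddCircle.injective_toCircle`, `AddCircle.coe_eq_coe_iff_of_mem_Ico`).  This is the hypothesis `hs` of
`case_analysis` (AM-13) (for `s` not a pair sum all terms vanish).  There `A, B, C` are nonzero by `PNP`, `A ≠ C`: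
`A = [0 1][2 3]`, `C = - [0 2][1 3]`; `NonHarm u` for the permutation `σ = (0, 1, 3, 2)`-image, i.e. `σ 0 = 0, σ 1 = 1,
σ 2 = 3, σ 3 = 2`: `[0 1][3 2] ≠ [0 2][1 3]`, i.e. `- A ≠ - C`.
If the `ε i` are sorted, the conclusion of `case_analysis` gives the claim, because `ε i = ε j` implies
`q • (α i - α j) = 0`, so `α i - α j` has finite additive order (`isOfFinAddOrder_iff_nsmul_eq_zero`).

`key_step`: in general there is a permutation `σ` such that `ε ∘ σ` is monotone (`Tuple.monotone_sort`); apply the sorted case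
to `u ∘ σ`, `α ∘ σ` (`PNP`, `NonHarm` are invariant).  It is best to do the sorting inside one proof: the numbers `ε` depend on `q`. -/

namespace ChordMaps

theorem field_relation (u : Fin 4 → Plane) (hu : PNP u) (α : Fin 4 → AddCircle (1 : ℝ))
    (E : AddCircle (1 : ℝ) → Plane)
    (hE : ∀ i t, cross (u i) (E (α i - t)) = - cross (u i) (E t))
    (hsum : ∀ i, Summable (fun t => cross (u i) (E t))) (k : ℤ)
    (hk : ∃ i, fc (fun t => cross (u i) (E t)) k ≠ 0) :
    ((cross (u 0) (u 1) * cross (u 2) (u 3) : ℝ) : ℂ) *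
        (fourier k (α 0) * fourier k (α 1) + fourier k (α 2) * fourier k (α 3)) +
      ((cross (u 0) (u 3) * cross (u 1) (u 2) : ℝ) : ℂ) *
        (fourier k (α 0) * fourier k (α 3) + fourier k (α 1) * fourier k (α 2)) +
      ((- (cross (u 0) (u 2) * cross (u 1) (u 3)) : ℝ) : ℂ) *
        (fourier k (α 0) * fourier k (α 2) + fourier k (α 1) * fourier k (α 3)) = 0 := by
  refine unit_relation u hu (fun i => fourier k (α i))
    (fun i => fc (fun t => cross (u i) (E t)) k) (fun i => norm_fourier_pt k (α i))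
    (fun i => fc_reflect (hsum i) (hE i) k) ?_ hk
  intro i j l
  have h1 := fc_add (hsum l) (hsum i) (cross (u i) (u j)) (cross (u j) (u l)) k
  have h2 := fc_add (hsum j) (hsum j) (-(cross (u l) (u i))) 0 k
  have h3 : (fun t => cross (u i) (u j) * cross (u l) (E t) +
      cross (u j) (u l) * cross (u i) (E t)) =
      fun t => -(cross (u l) (u i)) * cross (u j) (E t) + 0 * cross (u j) (E t) := by
    funext t
    unfold cross
    ring
  rw [h3, h2] at h1
  simp only [Complex.ofReal_neg, Complex.ofReal_zero, zero_mul, add_zero] at h1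
  show (cross (u i) (u j) : ℂ) * fc (fun t => cross (u l) (E t)) k +
    (cross (u j) (u l) : ℂ) * fc (fun t => cross (u i) (E t)) k +
      (cross (u l) (u i) : ℂ) * fc (fun t => cross (u j) (E t)) k = 0
  rw [← h1]
  ring

/-- the small real representative -/
private theorem exists_rep {a : AddCircle (1 : ℝ)} {δ : ℝ} (h : ‖a‖ < δ) :
    ∃ x : ℝ, (x : AddCircle (1 : ℝ)) = a ∧ |x| < δ := by
  induction a using QuotientAddGroup.induction_on with
  | H y =>
    refine ⟨y - round y, ?_, ?_⟩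
    · have h1 : ((round y : ℝ) : AddCircle (1 : ℝ)) = 0 := by
        rw [AddCircle.coe_eq_zero_iff]
        exact ⟨round y, by simp⟩
      rw [AddCircle.coe_sub, h1, sub_zero]
    · have h2 := UnitAddCircle.norm_eq (x := y)
      have h3 : ‖((y : ℝ) : AddCircle (1 : ℝ))‖ < δ := h
      have h4 : ‖((y : ℝ) : AddCircle (1 : ℝ))‖ = |y - round y| := h2
      rw [h4] at h3
      exact h3

private theorem fourier_one_inj {s t : ℝ} (hs : |s| < 1 / 4) (ht : |t| < 1 / 4) :
    (fourier 1 ((s : ℝ) : AddCircle (1 : ℝ)) : ℂ) = fourier 1 ((t : ℝ) : AddCircle (1 : ℝ)) ↔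
      s = t := by
  refine ⟨fun h => ?_, fun h => by rw [h]⟩
  rw [fourier_one, fourier_one] at h
  have h1 : AddCircle.toCircle ((s : ℝ) : AddCircle (1 : ℝ)) =
      AddCircle.toCircle ((t : ℝ) : AddCircle (1 : ℝ)) := Subtype.ext h
  have h2 := AddCircle.injective_toCircle (T := (1 : ℝ)) one_ne_zero h1
  have h3 : ((s - t : ℝ) : AddCircle (1 : ℝ)) = 0 := by
    rw [AddCircle.coe_sub, h2, sub_self]
  rw [AddCircle.coe_eq_zero_iff] at h3
  obtain ⟨n, hn⟩ := h3
  rw [zsmul_eq_mul, mul_one] at hn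
  have h4 : |(n : ℝ)| < 1 := by
    rw [hn]
    rw [abs_lt] at hs ht ⊢
    constructor <;> linarith
  have h5 : n = 0 := by
    have h6 : |n| < 1 := by exact_mod_cast h4
    exact Int.abs_lt_one_iff.1 h6
  rw [h5, Int.cast_zero] at hn
  linarith

private theorem ite_inst {P : Prop} (i j : Decidable P) {a b : ℂ} :
    @ite ℂ P i a b = @ite ℂ P j a b := by
  by_cases h : P
  · rw [if_pos h, if_pos h]
  · rw [if_neg h, if_neg h]

theorem key_step (u : Fin 4 → Plane) (hu : PNP u) (hnh : NonHarm u)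
    (α : Fin 4 → AddCircle (1 : ℝ)) (E : AddCircle (1 : ℝ) → Plane)
    (hE : ∀ i t, cross (u i) (E (α i - t)) = - cross (u i) (E t))
    (hsum : ∀ i, Summable (fun t => cross (u i) (E t))) (k : ℤ)
    (hk : ∃ i, fc (fun t => cross (u i) (E t)) k ≠ 0) :
    (∀ i j, IsOfFinAddOrder (α i - α j)) ∨
      ∃ l : Fin 4, ∀ i j, i ≠ l → j ≠ l →
        IsOfFinAddOrder (α i - α j) ∧ fourier k (α i) = fourier k (α j) := by
  classical
  obtain ⟨i0, hi0⟩ := hk
  obtain ⟨q, hq, hrec, hsmall⟩ := fc_recurrence (hsum i0) hi0 5 α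
    (δ := 1 / 8) (by norm_num)
  choose ε hε hεs using fun i => exists_rep (hsmall i)
  -- equality of the representatives
  have hfin : ∀ i j, ε i = ε j → IsOfFinAddOrder (α i - α j) := by
    intro i j hij
    rw [isOfFinAddOrder_iff_nsmul_eq_zero]
    refine ⟨q, hq, ?_⟩
    rw [nsmul_sub, ← hε i, ← hε j, hij, sub_self]
  -- sort
  set σ : Equiv.Perm (Fin 4) := Tuple.sort ε with hσ
  have hmono : Monotone (ε ∘ σ) := Tuple.monotone_sort ε
  have hu' : PNP (u ∘ σ) := fun i j hij => hu (σ i) (σ j) fun h => hij (σ.injective h)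
  set w : Fin 4 → ℂ := fun i => fourier k (α (σ i)) with hw
  set x : Fin 4 → ℂ := fun i => fourier 1 (q • α (σ i)) with hx
  set A : ℝ := cross (u (σ 0)) (u (σ 1)) * cross (u (σ 2)) (u (σ 3)) with hA
  set B : ℝ := cross (u (σ 0)) (u (σ 3)) * cross (u (σ 1)) (u (σ 2)) with hB
  set C : ℝ := - (cross (u (σ 0)) (u (σ 2)) * cross (u (σ 1)) (u (σ 3))) with hC
  have hrel : ∀ j : ℕ, j ≤ 5 →
      (A : ℂ) * ((w 0 * x 0 ^ j) * (w 1 * x 1 ^ j) + (w 2 * x 2 ^ j) * (w 3 * x 3 ^ j)) +
      (B : ℂ) * ((w 0 * x 0 ^ j) * (w 3 * x 3 ^ j) + (w 1 * x 1 ^ j) * (w 2 * x 2 ^ j)) +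
      (C : ℂ) * ((w 0 * x 0 ^ j) * (w 2 * x 2 ^ j) + (w 1 * x 1 ^ j) * (w 3 * x 3 ^ j)) = 0 := by
    intro j hj
    have h1 := field_relation (u ∘ σ) hu' (α ∘ σ) E (fun i t => hE (σ i) t)
      (fun i => hsum (σ i)) (k + (j * q : ℕ)) ⟨σ.symm i0, by
        simp only [Function.comp_apply, Equiv.apply_symm_apply]
        exact hrec j hj⟩
    simp only [Function.comp_apply] at h1
    simp only [fourier_nsmul] at h1
    exact h1
  have hfib : ∀ z : ℂ,
      (if x 0 * x 1 = z then (A : ℂ) * (w 0 * w 1) else 0) +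
      (if x 2 * x 3 = z then (A : ℂ) * (w 2 * w 3) else 0) +
      (if x 0 * x 3 = z then (B : ℂ) * (w 0 * w 3) else 0) +
      (if x 1 * x 2 = z then (B : ℂ) * (w 1 * w 2) else 0) +
      (if x 0 * x 2 = z then (C : ℂ) * (w 0 * w 2) else 0) +
      (if x 1 * x 3 = z then (C : ℂ) * (w 1 * w 3) else 0) = 0 := by
    intro z
    have h1 := sum_fiber_eq_zero (ι := Fin 6)
      ![(A : ℂ) * (w 0 * w 1), (A : ℂ) * (w 2 * w 3), (B : ℂ) * (w 0 * w 3),
        (B : ℂ) * (w 1 * w 2), (C : ℂ) * (w 0 * w 2), (C : ℂ) * (w 1 * w 3)]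
      ![x 0 * x 1, x 2 * x 3, x 0 * x 3, x 1 * x 2, x 0 * x 2, x 1 * x 3] (by
        intro j hj
        have hj' : j ≤ 5 := by
          rw [Fintype.card_fin] at hj
          omega
        have h2 := hrel j hj'
        rw [Fin.sum_univ_six]
        simp only [Matrix.cons_val_zero, Matrix.cons_val_one, Matrix.cons_val]
        rw [← h2]
        ring) z
    rw [Finset.sum_filter, Fin.sum_univ_six] at h1
    simp only [Matrix.cons_val_zero, Matrix.cons_val_one, Matrix.cons_val] at h1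
    convert h1 <;> exact ite_inst _ _
  have hxx : ∀ i j, x i * x j = fourier 1 ((ε (σ i) + ε (σ j) : ℝ) : AddCircle (1 : ℝ)) := by
    intro i j
    rw [AddCircle.coe_add, fourier_add_pt, hε, hε]
  have hss : ∀ i j, |ε (σ i) + ε (σ j)| < 1 / 4 := by
    intro i j
    have h1 := abs_lt.1 (hεs (σ i))
    have h2 := abs_lt.1 (hεs (σ j))
    rw [abs_lt]
    constructor <;> linarith [h1.1, h1.2, h2.1, h2.2]
  have hs : ∀ s : ℝ,
      (if ε (σ 0) + ε (σ 1) = s then (A : ℂ) * (w 0 * w 1) else 0) +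
      (if ε (σ 2) + ε (σ 3) = s then (A : ℂ) * (w 2 * w 3) else 0) +
      (if ε (σ 0) + ε (σ 3) = s then (B : ℂ) * (w 0 * w 3) else 0) +
      (if ε (σ 1) + ε (σ 2) = s then (B : ℂ) * (w 1 * w 2) else 0) +
      (if ε (σ 0) + ε (σ 2) = s then (C : ℂ) * (w 0 * w 2) else 0) +
      (if ε (σ 1) + ε (σ 3) = s then (C : ℂ) * (w 1 * w 3) else 0) = 0 := by
    intro s
    by_cases hs1 : |s| < 1 / 4
    · have h1 : ∀ i j, (x i * x j = fourier 1 ((s : ℝ) : AddCircle (1 : ℝ))) =
          (ε (σ i) + ε (σ j) = s) := by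
        intro i j
        rw [hxx i j]
        exact propext (fourier_one_inj (hss i j) hs1)
      have h2 := hfib (fourier 1 ((s : ℝ) : AddCircle (1 : ℝ)))
      simpa only [h1] using h2
    · have h1 : ∀ i j, ¬ (ε (σ i) + ε (σ j) = s) := by
        intro i j h
        exact hs1 (h ▸ hss i j)
      simp only [h1, if_false, add_zero]
  have hA0 : A ≠ 0 := mul_ne_zero (hu' 0 1 (by decide)) (hu' 2 3 (by decide))
  have hB0 : B ≠ 0 := mul_ne_zero (hu' 0 3 (by decide)) (hu' 1 2 (by decide))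
  have hC0 : C ≠ 0 := neg_ne_zero.2 (mul_ne_zero (hu' 0 2 (by decide)) (hu' 1 3 (by decide)))
  have hABC : A + B + C = 0 := by
    rw [hA, hB, hC]
    unfold cross
    ring
  have hAC : A ≠ C := by
    have h1 := hnh ((Equiv.swap 2 3).trans σ)
    have e0 : ((Equiv.swap 2 3).trans σ) 0 = σ 0 := by
      rw [Equiv.trans_apply, Equiv.swap_apply_of_ne_of_ne (by decide) (by decide)]
    have e1 : ((Equiv.swap 2 3).trans σ) 1 = σ 1 := by
      rw [Equiv.trans_apply, Equiv.swap_apply_of_ne_of_ne (by decide) (by decide)]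
    have e2 : ((Equiv.swap 2 3).trans σ) 2 = σ 3 := by
      rw [Equiv.trans_apply, Equiv.swap_apply_left]
    have e3 : ((Equiv.swap 2 3).trans σ) 3 = σ 2 := by
      rw [Equiv.trans_apply, Equiv.swap_apply_right]
    rw [e0, e1, e2, e3] at h1
    intro h2
    apply h1
    have h3 : cross (u (σ 3)) (u (σ 2)) = - cross (u (σ 2)) (u (σ 3)) := by
      unfold cross
      ring
    rw [h3]
    rw [hA, hC] at h2
    linarith
  obtain ⟨l, hl1, hl2⟩ := case_analysis hA0 hB0 hC0 hABC hAC w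
    (fun i => norm_fourier_pt k (α (σ i))) (ε ∘ σ) (hmono (by decide)) (hmono (by decide))
    (hmono (by decide)) hs
  rcases hl2 with hl2 | hl2
  · left
    intro i j
    apply hfin
    have h1 := hl2 (σ.symm i)
    have h2 := hl2 (σ.symm j)
    simp only [Function.comp_apply, Equiv.apply_symm_apply] at h1 h2
    rw [h1, h2]
  · right
    refine ⟨σ l, fun i j hi hj => ?_⟩
    have hi' : σ.symm i ≠ l := fun h => hi (by rw [← h, Equiv.apply_symm_apply])
    have hj' : σ.symm j ≠ l := fun h => hj (by rw [← h, Equiv.apply_symm_apply])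
    refine ⟨?_, ?_⟩
    · apply hfin
      have h1 := hl1 _ _ hi' hj'
      simpa only [Function.comp_apply, Equiv.apply_symm_apply] using h1
    · have h1 := hl2 _ _ hi' hj'
      simpa only [hw, Equiv.apply_symm_apply] using h1

end ChordMaps
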