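import Pool.Agent.Helper95.AM.A10

set_option autoImplicit false

/-! # AM-16: uniqueness of almost periodic coefficients

Let `fc g k = 0` for all `k > 0`.  Fix `s`.  `0 = (1/N) ∑_{k=1}^{N} fc g k * conj (fourier k s) = ∑' t, g t * a N t`, where
`a N t = (1/N) ∑_{k=1}^{N} fourier k (t - s)`.  `|a N t| ≤ 1`, `a N s = 1`, and for `t ≠ s`, `x = fourier 1 (t - s) ≠ 1`,
`|a N t| = |x (x^N - 1) / (N (x - 1))| ≤ 2 / (N |x - 1|) → 0` (`geom_sum_eq`).  By dominated convergence for sums
(`tendsto_tsum_of_dominated_convergence`, bound `|g t|`) the right side tends to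
`∑' t, if t = s then g t else 0 = g s`.  So `g s = 0`. -/

namespace ChordMaps

open Filter Topology Finset

private theorem fourier_pow_pt (k : ℕ) (t : AddCircle (1 : ℝ)) :
    (fourier (k : ℤ) t : ℂ) = fourier 1 t ^ k := by
  rw [fourier_apply, fourier_apply, one_smul, AddCircle.toCircle_zsmul, Circle.coe_zpow,
    zpow_natCast]

private theorem fourier_one_ne_one {t : AddCircle (1 : ℝ)} (h : t ≠ 0) :
    (fourier 1 t : ℂ) ≠ 1 := by
  intro h1
  rw [fourier_apply, one_smul, ← Circle.coe_one, Circle.coe_inj, ← AddCircle.toCircle_zero] at h1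
  exact h (AddCircle.injective_toCircle one_ne_zero h1)

/-- the means of the powers of a point of the circle -/
private theorem mean_tendsto (t : AddCircle (1 : ℝ)) :
    Tendsto (fun N : ℕ => (∑ k ∈ range N, (fourier ((k + 1 : ℕ) : ℤ) t : ℂ)) / N) atTop
      (𝓝 (if t = 0 then 1 else 0)) := by
  by_cases ht : t = 0
  · rw [if_pos ht]
    refine tendsto_const_nhds.congr' ?_
    filter_upwards [eventually_gt_atTop 0] with N hN
    have h1 : ∀ k ∈ range N, (fourier ((k + 1 : ℕ) : ℤ) t : ℂ) = 1 := fun k _ => by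
      rw [ht, fourier_apply, smul_zero, AddCircle.toCircle_zero, Circle.coe_one]
    rw [sum_congr rfl h1, sum_const, card_range, nsmul_eq_mul, mul_one, div_self]
    exact_mod_cast hN.ne'
  · rw [if_neg ht]
    set x : ℂ := fourier 1 t with hx
    have hx1 : x ≠ 1 := fourier_one_ne_one ht
    have hxn : ‖x‖ = 1 := norm_fourier_pt 1 t
    have h1 : ∀ N : ℕ, (∑ k ∈ range N, (fourier ((k + 1 : ℕ) : ℤ) t : ℂ)) =
        x * ((x ^ N - 1) / (x - 1)) := fun N => by
      rw [← geom_sum_eq hx1, mul_sum]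
      exact sum_congr rfl fun k _ => by rw [fourier_pow_pt, pow_succ']
    have hpos : 0 < ‖x - 1‖ := norm_pos_iff.2 (sub_ne_zero.2 hx1)
    have h2 : Tendsto (fun N : ℕ => 2 / ‖x - 1‖ * (1 / (N : ℝ))) atTop (𝓝 0) := by
      have h := (tendsto_one_div_atTop_nhds_zero_nat (𝕜 := ℝ)).const_mul (2 / ‖x - 1‖)
      rwa [mul_zero] at h
    refine squeeze_zero_norm (fun N => ?_) h2
    rw [h1, norm_div, norm_mul, hxn, one_mul, norm_div, Complex.norm_natCast]
    have h3 : ‖x ^ N - 1‖ ≤ 2 := by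
      refine (norm_sub_le _ _).trans ?_
      rw [norm_pow, hxn, one_pow, norm_one]
      norm_num
    rw [div_eq_mul_one_div]
    gcongr

theorem eq_zero_of_fc {g : AddCircle (1 : ℝ) → ℝ} (hg : Summable g)
    (h : ∀ k : ℤ, 0 < k → fc g k = 0) : ∀ s, g s = 0 := by
  intro s
  have h1 : Tendsto (fun N : ℕ => ∑' t : AddCircle (1 : ℝ), (g t : ℂ) *
      ((∑ k ∈ range N, (fourier ((k + 1 : ℕ) : ℤ) (t - s) : ℂ)) / N)) atTop
      (𝓝 (∑' t : AddCircle (1 : ℝ), (g t : ℂ) * (if t - s = 0 then 1 else 0))) := by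
    refine tendsto_tsum_of_dominated_convergence (bound := fun t => |g t|) hg.abs
      (fun t => (mean_tendsto (t - s)).const_mul _) (Eventually.of_forall fun N t => ?_)
    rw [norm_mul, Complex.norm_real, Real.norm_eq_abs]
    refine mul_le_of_le_one_right (abs_nonneg _) ?_
    rw [norm_div, Complex.norm_natCast]
    refine div_le_one_of_le₀ ((norm_sum_le _ _).trans ?_) (Nat.cast_nonneg _)
    rw [sum_congr rfl fun k _ => norm_fourier_pt _ _, sum_const, card_range, nsmul_eq_mul, mul_one]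
  have h2 : ∀ N : ℕ, ∑' t : AddCircle (1 : ℝ), (g t : ℂ) *
      ((∑ k ∈ range N, (fourier ((k + 1 : ℕ) : ℤ) (t - s) : ℂ)) / N) = 0 := by
    intro N
    have h3 : ∀ t : AddCircle (1 : ℝ), (g t : ℂ) *
        ((∑ k ∈ range N, (fourier ((k + 1 : ℕ) : ℤ) (t - s) : ℂ)) / N) =
        ∑ k ∈ range N, (g t : ℂ) * fourier ((k + 1 : ℕ) : ℤ) t *
          (fourier ((k + 1 : ℕ) : ℤ) (-s) / N) := fun t => by
      rw [sum_div, mul_sum]
      refine sum_congr rfl fun k _ => ?_
      rw [sub_eq_add_neg, fourier_add_pt]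
      ring
    simp_rw [h3]
    rw [Summable.tsum_finsetSum fun k _ => (fc_summable hg _).mul_right _]
    refine sum_eq_zero fun k _ => ?_
    rw [tsum_mul_right]
    have h4 := h ((k + 1 : ℕ) : ℤ) (by positivity)
    unfold fc at h4
    rw [h4, zero_mul]
  simp_rw [h2] at h1
  have h5 := tendsto_nhds_unique h1 tendsto_const_nhds
  rw [tsum_eq_single s fun t ht => by rw [if_neg (sub_ne_zero.2 ht), mul_zero]] at h5
  rw [sub_self, if_pos rfl, mul_one] at h5
  exact_mod_cast h5

end ChordMaps
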