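import Pool.Agent.Helper95.AM.A15
import Pool.Agent.Helper95.AM.A16

set_option autoImplicit false

/-! # AM-17: the dichotomy

Suppose not all `α i - α j` have finite order.  For every `k` with `z k i ≠ 0` for some `i` (`z k i = fc (cross (u i) ∘ E) k`)
`key_step` (AM-15) gives `l`.  `l` does not depend on `k`: if `l ≠ l'` both have the property that `α i - α j` is of finite order for
`i, j ≠ l` (resp. `l'`), then all differences are: for `i = l`, `j = l'` take a third index `p`:
`α l - α l' = (α l - α p) + (α p - α l')` where the first one avoids `l'` and the second one avoids `l`; sums and negatives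
of elements of finite order have finite order (`IsOfFinAddOrder.add`, `.neg`).  There is such a `k`: otherwise
`fc (cross (u i) ∘ E) k = 0` for all `k, i`, so `cross (u i) (E t) = 0` for all `i, t` (`eq_zero_of_fc`, AM-16), so `E = 0`
(two non-parallel directions), contradiction.
Let `l` be the common index, and choose `i1 ≠ i2`, both `≠ l`, and `i1` with `α i1 - α l` not of finite order (all `i ≠ l` have this property).
For `k > 0`: `z k l = 0`.  Otherwise `w = fourier k (α i1) = fourier k (α i2)`, `z k i = - w conj (z k i)` for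
`i = i1, i2` (`fc_reflect`), and `u l = c u i1 + d u i2` with real `c, d`, so `z k l = c z k i1 + d z k i2` (`fc_add`) satisfies
`z k l = - w conj (z k l)` and `z k l = - fourier k (α l) conj (z k l)`.  As `z k l ≠ 0`, `w = fourier k (α l)`, so
`fourier k (α i1 - α l) = 1`, `k • (α i1 - α l) = 0` (`fourier_apply`, `AddCircle.injective_toCircle`), and the difference has finite order, contradiction.
So `fc (cross (u l) ∘ E) k = 0` for all `k > 0` and `cross (u l) (E t) = 0` for all `t` (AM-16). -/

namespace ChordMaps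

open ComplexConjugate

private theorem cross_decomp (a b c x : Plane) :
    cross a x * cross b c = cross a c * cross b x + cross b a * cross c x := by
  unfold cross
  ring

private theorem eq_zero_of_cross {a b x : Plane} (h : cross a b ≠ 0) (h1 : cross a x = 0)
    (h2 : cross b x = 0) : x = 0 := by
  have e0 : x 0 * cross a b = 0 := by
    have : x 0 * cross a b = b 0 * cross a x - a 0 * cross b x := by
      unfold cross; ring
    rw [this, h1, h2]; ring
  have e1 : x 1 * cross a b = 0 := by
    have : x 1 * cross a b = b 1 * cross a x - a 1 * cross b x := by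
      unfold cross; ring
    rw [this, h1, h2]; ring
  ext i
  fin_cases i
  · exact (mul_eq_zero.1 e0).resolve_right h
  · exact (mul_eq_zero.1 e1).resolve_right h

private theorem fin_sub {x y z : AddCircle (1 : ℝ)} (h1 : IsOfFinAddOrder (x - z))
    (h2 : IsOfFinAddOrder (y - z)) : IsOfFinAddOrder (x - y) := by
  have h3 : x - y = (x - z) + (-(y - z)) := by abel
  rw [h3]
  exact h1.add h2.neg

private theorem third (l l' : Fin 4) : ∃ p : Fin 4, p ≠ l ∧ p ≠ l' := by
  revert l l'
  decide

theorem dichotomy (u : Fin 4 → Plane) (hu : PNP u) (hnh : NonHarm u)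
    (α : Fin 4 → AddCircle (1 : ℝ)) (E : AddCircle (1 : ℝ) → Plane)
    (hE : ∀ i t, cross (u i) (E (α i - t)) = - cross (u i) (E t))
    (hsum : ∀ i, Summable (fun t => cross (u i) (E t))) (hne : ∃ t, E t ≠ 0) :
    (∀ i j, IsOfFinAddOrder (α i - α j)) ∨
      ∃ l i : Fin 4, (∀ t, cross (u l) (E t) = 0) ∧ ¬ IsOfFinAddOrder (α i - α l) := by
  by_cases hall : ∀ i j, IsOfFinAddOrder (α i - α j)
  · exact Or.inl hall
  right
  -- the index given by the key step is unique
  have huniq : ∀ l l' : Fin 4, (∀ i j, i ≠ l → j ≠ l → IsOfFinAddOrder (α i - α j)) →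
      (∀ i j, i ≠ l' → j ≠ l' → IsOfFinAddOrder (α i - α j)) → l = l' := by
    intro l l' h h'
    by_contra hll
    apply hall
    obtain ⟨p, hpl, hpl'⟩ := third l l'
    have h1 : ∀ i, IsOfFinAddOrder (α i - α p) := by
      intro i
      by_cases hi : i = l
      · exact h' i p (by rw [hi]; exact hll) hpl'
      · exact h i p hi hpl
    exact fun i j => fin_sub (h1 i) (h1 j)
  -- a frequency with a nonzero coefficient
  have hex : ∃ k : ℤ, 0 < k ∧ ∃ i, fc (fun t => cross (u i) (E t)) k ≠ 0 := by
    by_contra hcon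
    push Not at hcon
    obtain ⟨t, ht⟩ := hne
    apply ht
    have h1 : ∀ i, cross (u i) (E t) = 0 := fun i =>
      eq_zero_of_fc (hsum i) (fun k hk => hcon k hk i) t
    exact eq_zero_of_cross (hu 0 1 (by decide)) (h1 0) (h1 1)
  obtain ⟨k₀, -, hk₀⟩ := hex
  obtain ⟨l, hl⟩ := (key_step u hu hnh α E hE hsum k₀ hk₀).resolve_left hall
  have hQ : ∀ i j, i ≠ l → j ≠ l → IsOfFinAddOrder (α i - α j) := fun i j hi hj =>
    (hl i j hi hj).1
  have hinf : ∀ i, i ≠ l → ¬ IsOfFinAddOrder (α i - α l) := by
    intro i hi h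
    apply hall
    have h1 : ∀ a, IsOfFinAddOrder (α a - α i) := by
      intro a
      by_cases ha : a = l
      · rw [ha]
        have h2 := h.neg
        rwa [neg_sub] at h2
      · exact hQ a i ha hi
    exact fun a b => fin_sub (h1 a) (h1 b)
  obtain ⟨i₁, hi₁, -⟩ := third l l
  obtain ⟨i₂, hi₂, hi₁₂⟩ := third l i₁
  refine ⟨l, i₁, ?_, hinf i₁ hi₁⟩
  refine eq_zero_of_fc (hsum l) fun k hk => ?_
  by_contra hz
  obtain ⟨l', hl'⟩ := (key_step u hu hnh α E hE hsum k ⟨l, hz⟩).resolve_left hall
  have hll : l = l' := huniq l l' hQ fun i j hi hj => (hl' i j hi hj).1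
  rw [← hll] at hl'
  have hw := (hl' i₁ i₂ hi₁ hi₂).2
  set z₁ := fc (fun t => cross (u i₁) (E t)) k with hz₁
  set z₂ := fc (fun t => cross (u i₂) (E t)) k with hz₂
  set z := fc (fun t => cross (u l) (E t)) k with hzdef
  have hr₁ : z₁ = -(fourier k (α i₁) * conj z₁) := fc_reflect (hsum i₁) (hE i₁) k
  have hr₂ : z₂ = -(fourier k (α i₂) * conj z₂) := fc_reflect (hsum i₂) (hE i₂) k
  have hr : z = -(fourier k (α l) * conj z) := fc_reflect (hsum l) (hE l) k
  have hD : cross (u i₁) (u i₂) ≠ 0 := hu i₁ i₂ (Ne.symm hi₁₂)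
  have hlin : z = ((cross (u l) (u i₂) / cross (u i₁) (u i₂) : ℝ) : ℂ) * z₁ +
      ((cross (u i₁) (u l) / cross (u i₁) (u i₂) : ℝ) : ℂ) * z₂ := by
    rw [hz₁, hz₂, ← fc_add (hsum i₁) (hsum i₂), hzdef]
    congr 1
    funext t
    have h1 := cross_decomp (u l) (u i₁) (u i₂) (E t)
    field_simp
    linarith
  rw [← hw] at hr₂
  have hr' : z = -(fourier k (α i₁) * conj z) := by
    rw [hlin, map_add, map_mul, map_mul, Complex.conj_ofReal, Complex.conj_ofReal]
    linear_combination ((cross (u l) (u i₂) / cross (u i₁) (u i₂) : ℝ) : ℂ) * hr₁ +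
      ((cross (u i₁) (u l) / cross (u i₁) (u i₂) : ℝ) : ℂ) * hr₂
  have hcz : conj z ≠ 0 := by
    intro h
    exact hz ((map_eq_zero _).1 h)
  have hww : (fourier k (α i₁) : ℂ) = fourier k (α l) := by
    have h1 : (fourier k (α i₁) : ℂ) * conj z = fourier k (α l) * conj z := by
      have h2 : -((fourier k (α i₁) : ℂ) * conj z) = -(fourier k (α l) * conj z) :=
        hr'.symm.trans hr
      exact neg_injective h2
    exact mul_right_cancel₀ hcz h1
  apply hinf i₁ hi₁
  have h1 : (fourier k (α i₁ - α l) : ℂ) = 1 := by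
    have h2 := fourier_add_pt k (α i₁ - α l) (α l)
    rw [sub_add_cancel, hww] at h2
    have h3 : (fourier k (α l) : ℂ) ≠ 0 := by
      intro h4
      have h5 := norm_fourier_pt k (α l)
      rw [h4, norm_zero] at h5
      exact zero_ne_one h5
    have h4 : (1 : ℂ) * fourier k (α l) = fourier k (α i₁ - α l) * fourier k (α l) := by
      rw [one_mul]
      exact h2
    exact (mul_right_cancel₀ h3 h4).symm
  rw [fourier_apply] at h1
  have h2 : AddCircle.toCircle (k • (α i₁ - α l)) = AddCircle.toCircle (0 : AddCircle (1 : ℝ)) := by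
    apply Subtype.ext
    rw [AddCircle.toCircle_zero]
    exact h1
  have h3 := AddCircle.injective_toCircle one_ne_zero h2
  rw [isOfFinAddOrder_iff_zsmul_eq_zero]
  exact ⟨k, hk.ne', h3⟩

end ChordMaps
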