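import Pool.Agent.Helper95.AM.Defs

set_option autoImplicit false

/-! # AM-18: three directions, or four harmonic directions, do not determine convex bodies

`not_determines S hn A h` (Chord/MainU.lean) for the directions `dir n j` (angle `π j / n`, Chord/UDefs.lean).

`three_not`: every `v ∈ S` is a nonzero multiple of one of `w 0, w 1, w 2`.  `w 2 = a • w 0 + b • w 1` with
`a = - cross (w 1) (w 2) / cross (w 0) (w 1)`, `b = cross (w 0) (w 2) / cross (w 0) (w 1)`, both nonzero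
(`cross (w 0) (w 1) • w 2 = ...`).  `dir 3 0 = (1, 0)`, `dir 3 1 = (1/2, √3/2)`, `dir 3 2 = (-1/2, √3/2) = dir 3 1 - dir 3 0`.
Take the linear automorphism `A` with `A (dir 3 0) = - a • w 0`, `A (dir 3 1) = b • w 1`, so `A (dir 3 2) = w 2`.
(`exists_equiv` in MainU.lean gives `A x = x 0 • p + x 1 • q` for non-parallel `p, q`; take `p = - a • w 0`,
`q = (2/√3) • (b • w 1 + (a / 2) • w 0)`.)

`harm_not`: every `v ∈ S` is a nonzero multiple of one of the `w i`, and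
`[σ0 σ1][σ2 σ3] = [σ0 σ3][σ1 σ2]` (`[i j] = cross (w i) (w j)`).  Let `v = w (σ 0)`, `v' = w (σ 2)`, `D = cross v v' ≠ 0`,
`w (σ 1) = a v + b v'`, `w (σ 3) = c v + d v'` (`a, b, c, d ≠ 0`).  `[σ0 σ1] = b D`, `[σ2 σ3] = - c D`, `[σ0 σ3] = d D`,
`[σ1 σ2] = a D`, so `- b c = a d`.  With `p = a • v`, `q = b • v'`: `w (σ 1) = p + q` and
`w (σ 3) = (c / a) • p + (d / b) • q = (d / b) • (q - p)`.  `dir 4 0 = (1, 0)`, `dir 4 2 = (0, 1)`, `dir 4 1 = (√2/2)(1, 1)`,
`dir 4 3 = (√2/2) (-1, 1)`; `A x = x 0 • p + x 1 • q` (`exists_equiv`). -/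

namespace ChordMaps

theorem am18_expand {u v w : Plane} (h : cross u v ≠ 0) :
    w = (cross w v / cross u v) • u + (cross u w / cross u v) • v := by
  ext i
  fin_cases i
  · show w 0 = cross w v / cross u v * u 0 + cross u w / cross u v * v 0
    rw [div_mul_eq_mul_div, div_mul_eq_mul_div, ← add_div, eq_div_iff h]
    unfold cross
    ring
  · show w 1 = cross w v / cross u v * u 1 + cross u w / cross u v * v 1
    rw [div_mul_eq_mul_div, div_mul_eq_mul_div, ← add_div, eq_div_iff h]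
    unfold cross
    ring

theorem am18_scale {n : ℕ} {r : ℕ} (w : Fin r → Plane) (A : Plane ≃L[ℝ] Plane)
    (h : ∀ i, ∃ (j : ℤ) (c : ℝ), c ≠ 0 ∧ w i = c • A (dir n j)) {S : Finset Plane}
    (hcov : ∀ v ∈ S, ∃ i, ∃ c : ℝ, c ≠ 0 ∧ v = c • w i) :
    ∀ u ∈ S, ∃ (j : ℤ) (c : ℝ), c ≠ 0 ∧ u = c • A (dir n j) := by
  intro u hu
  obtain ⟨i, c, hc, rfl⟩ := hcov u hu
  obtain ⟨j, d, hd, h1⟩ := h i
  exact ⟨j, c * d, mul_ne_zero hc hd, by rw [h1, smul_smul]⟩

theorem am18_three_zero : dir 3 0 = !₂[1, 0] := by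
  unfold dir; simp

theorem am18_three_one : dir 3 1 = !₂[1 / 2, Real.sqrt 3 / 2] := by
  unfold dir
  have h1 : Real.pi * ((1 : ℤ) : ℝ) / ((3 : ℕ) : ℝ) = Real.pi / 3 := by push_cast; ring
  rw [h1, Real.cos_pi_div_three, Real.sin_pi_div_three]

theorem am18_three_two : dir 3 2 = !₂[-(1 / 2), Real.sqrt 3 / 2] := by
  unfold dir
  have h1 : Real.pi * ((2 : ℤ) : ℝ) / ((3 : ℕ) : ℝ) = Real.pi - Real.pi / 3 := by push_cast; ring
  rw [h1, Real.cos_pi_sub, Real.sin_pi_sub, Real.cos_pi_div_three, Real.sin_pi_div_three]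

theorem am18_four_zero : dir 4 0 = !₂[1, 0] := by
  unfold dir; simp

theorem am18_four_one : dir 4 1 = !₂[Real.sqrt 2 / 2, Real.sqrt 2 / 2] := by
  unfold dir
  have h1 : Real.pi * ((1 : ℤ) : ℝ) / ((4 : ℕ) : ℝ) = Real.pi / 4 := by push_cast; ring
  rw [h1, Real.cos_pi_div_four, Real.sin_pi_div_four]

theorem am18_four_two : dir 4 2 = !₂[0, 1] := by
  unfold dir
  have h1 : Real.pi * ((2 : ℤ) : ℝ) / ((4 : ℕ) : ℝ) = Real.pi / 2 := by push_cast; ring
  rw [h1, Real.cos_pi_div_two, Real.sin_pi_div_two]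

theorem am18_four_three : dir 4 3 = !₂[-(Real.sqrt 2 / 2), Real.sqrt 2 / 2] := by
  unfold dir
  have h1 : Real.pi * ((3 : ℤ) : ℝ) / ((4 : ℕ) : ℝ) = Real.pi - Real.pi / 4 := by push_cast; ring
  rw [h1, Real.cos_pi_sub, Real.sin_pi_sub, Real.cos_pi_div_four, Real.sin_pi_div_four]

theorem three_not (S : Finset Plane) (hS : ∀ v ∈ S, v ≠ 0) (w : Fin 3 → Plane) (hw : PNP w)
    (hcov : ∀ v ∈ S, ∃ i, ∃ c : ℝ, c ≠ 0 ∧ v = c • w i) : ¬ Determines S := by
  have h01 : cross (w 0) (w 1) ≠ 0 := hw 0 1 (by decide)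
  have h02 : cross (w 0) (w 2) ≠ 0 := hw 0 2 (by decide)
  have h21 : cross (w 2) (w 1) ≠ 0 := hw 2 1 (by decide)
  have hexp := am18_expand (w := w 2) h01
  set a := cross (w 2) (w 1) / cross (w 0) (w 1) with ha
  set b := cross (w 0) (w 2) / cross (w 0) (w 1) with hb
  have ha0 : a ≠ 0 := div_ne_zero h21 h01
  have hb0 : b ≠ 0 := div_ne_zero h02 h01
  have hs0 : Real.sqrt 3 ≠ 0 := by positivity
  have hpq : cross ((-a) • w 0) ((2 / Real.sqrt 3) • (b • w 1 + (a / 2) • w 0)) ≠ 0 := by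
    have h1 : cross ((-a) • w 0) ((2 / Real.sqrt 3) • (b • w 1 + (a / 2) • w 0)) =
        -a * (2 / Real.sqrt 3) * b * cross (w 0) (w 1) := by
      simp only [cross, PiLp.add_apply, PiLp.smul_apply, smul_eq_mul]
      ring
    rw [h1]
    refine mul_ne_zero (mul_ne_zero (mul_ne_zero (neg_ne_zero.2 ha0) ?_) hb0) h01
    exact div_ne_zero two_ne_zero hs0
  obtain ⟨A, hA⟩ := exists_equiv hpq
  have key : ∀ x : ℝ, x / 2 * Real.sqrt 3 * (2 / Real.sqrt 3) = x := by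
    intro x
    field_simp
  refine not_determines S (by norm_num : 2 ≤ 3) A (am18_scale w A ?_ hcov)
  intro i
  fin_cases i
  · refine ⟨0, -a⁻¹, neg_ne_zero.2 (inv_ne_zero ha0), ?_⟩
    rw [hA, am18_three_zero]
    show w 0 = (-a⁻¹) • ((1 : ℝ) • ((-a) • w 0) + (0 : ℝ) • _)
    rw [zero_smul, add_zero, one_smul, smul_smul, neg_mul_neg, inv_mul_cancel₀ ha0, one_smul]
  · refine ⟨1, b⁻¹, inv_ne_zero hb0, ?_⟩
    rw [hA, am18_three_one]
    show w 1 = b⁻¹ • ((1 / 2 : ℝ) • ((-a) • w 0) + (Real.sqrt 3 / 2 : ℝ) •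
      ((2 / Real.sqrt 3) • (b • w 1 + (a / 2) • w 0)))
    have h1 : (Real.sqrt 3 / 2 : ℝ) • ((2 / Real.sqrt 3) • (b • w 1 + (a / 2) • w 0)) =
        b • w 1 + (a / 2) • w 0 := by
      rw [smul_smul]
      have : Real.sqrt 3 / 2 * (2 / Real.sqrt 3) = 1 := by field_simp
      rw [this, one_smul]
    rw [h1]
    have h2 : (1 / 2 : ℝ) • ((-a) • w 0) + (b • w 1 + (a / 2) • w 0) = b • w 1 := by
      module
    rw [h2, smul_smul, inv_mul_cancel₀ hb0, one_smul]
  · refine ⟨2, 1, one_ne_zero, ?_⟩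
    rw [hA, am18_three_two, one_smul]
    show w 2 = (-(1 / 2) : ℝ) • ((-a) • w 0) + (Real.sqrt 3 / 2 : ℝ) •
      ((2 / Real.sqrt 3) • (b • w 1 + (a / 2) • w 0))
    have h1 : (Real.sqrt 3 / 2 : ℝ) • ((2 / Real.sqrt 3) • (b • w 1 + (a / 2) • w 0)) =
        b • w 1 + (a / 2) • w 0 := by
      rw [smul_smul]
      have : Real.sqrt 3 / 2 * (2 / Real.sqrt 3) = 1 := by field_simp
      rw [this, one_smul]
    rw [h1]
    conv_lhs => rw [hexp]
    module

theorem harm_not (S : Finset Plane) (hS : ∀ v ∈ S, v ≠ 0) (w : Fin 4 → Plane) (hw : PNP w)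
    (hcov : ∀ v ∈ S, ∃ i, ∃ c : ℝ, c ≠ 0 ∧ v = c • w i) (hh : ¬ NonHarm w) :
    ¬ Determines S := by
  unfold NonHarm at hh
  push Not at hh
  obtain ⟨σ, hσ⟩ := hh
  have hne : ∀ i j : Fin 4, i ≠ j → cross (w (σ i)) (w (σ j)) ≠ 0 := fun i j hij =>
    hw _ _ fun h => hij (σ.injective h)
  have h02 : cross (w (σ 0)) (w (σ 2)) ≠ 0 := hne 0 2 (by decide)
  have e1 := am18_expand (w := w (σ 1)) h02
  have e3 := am18_expand (w := w (σ 3)) h02
  set v := w (σ 0) with hv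
  set v' := w (σ 2) with hv'
  set w1 := w (σ 1) with hw1
  set w3 := w (σ 3) with hw3
  have n12 : cross w1 v' ≠ 0 := hne 1 2 (by decide)
  have n01 : cross v w1 ≠ 0 := hne 0 1 (by decide)
  have n32 : cross w3 v' ≠ 0 := hne 3 2 (by decide)
  have n03 : cross v w3 ≠ 0 := hne 0 3 (by decide)
  set a := cross w1 v' / cross v v' with ha
  set b := cross v w1 / cross v v' with hb
  set c := cross w3 v' / cross v v' with hc
  set d := cross v w3 / cross v v' with hd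
  have ha0 : a ≠ 0 := div_ne_zero n12 h02
  have hb0 : b ≠ 0 := div_ne_zero n01 h02
  have hd0 : d ≠ 0 := div_ne_zero n03 h02
  have hrel : -(b * c) = a * d := by
    have h1 : cross v' w3 = - cross w3 v' := by unfold cross; ring
    rw [h1] at hσ
    rw [ha, hb, hc, hd]
    field_simp
    linarith
  have hs0 : Real.sqrt 2 ≠ 0 := by positivity
  have hpq : cross (a • v) (b • v') ≠ 0 := by
    have h1 : cross (a • v) (b • v') = a * b * cross v v' := by
      simp only [cross, PiLp.smul_apply, smul_eq_mul]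
      ring
    rw [h1]
    exact mul_ne_zero (mul_ne_zero ha0 hb0) h02
  obtain ⟨A, hA⟩ := exists_equiv hpq
  have hall : ∀ j : Fin 4, ∃ (J : ℤ) (t : ℝ), t ≠ 0 ∧ w (σ j) = t • A (dir 4 J) := by
    intro j
    fin_cases j
    · refine ⟨0, a⁻¹, inv_ne_zero ha0, ?_⟩
      rw [hA, am18_four_zero]
      show v = a⁻¹ • ((1 : ℝ) • (a • v) + (0 : ℝ) • _)
      rw [zero_smul, add_zero, one_smul, smul_smul, inv_mul_cancel₀ ha0, one_smul]
    · refine ⟨1, 2 / Real.sqrt 2, div_ne_zero two_ne_zero hs0, ?_⟩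
      rw [hA, am18_four_one]
      show w1 = (2 / Real.sqrt 2) • ((Real.sqrt 2 / 2 : ℝ) • (a • v) +
        (Real.sqrt 2 / 2 : ℝ) • (b • v'))
      have h1 : (2 / Real.sqrt 2) * (Real.sqrt 2 / 2) = 1 := by field_simp
      rw [smul_add, smul_smul, smul_smul (2 / Real.sqrt 2), h1, one_smul, one_smul]
      exact e1
    · refine ⟨2, b⁻¹, inv_ne_zero hb0, ?_⟩
      rw [hA, am18_four_two]
      show v' = b⁻¹ • ((0 : ℝ) • (a • v) + (1 : ℝ) • (b • v'))
      rw [zero_smul, zero_add, one_smul, smul_smul, inv_mul_cancel₀ hb0, one_smul]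
    · refine ⟨3, 2 / Real.sqrt 2 * (d / b), mul_ne_zero (div_ne_zero two_ne_zero hs0)
        (div_ne_zero hd0 hb0), ?_⟩
      rw [hA, am18_four_three]
      show w3 = (2 / Real.sqrt 2 * (d / b)) • ((-(Real.sqrt 2 / 2) : ℝ) • (a • v) +
        (Real.sqrt 2 / 2 : ℝ) • (b • v'))
      have h1 : (2 / Real.sqrt 2) * (Real.sqrt 2 / 2) = 1 := by field_simp
      have h2 : (2 / Real.sqrt 2 * (d / b)) * (Real.sqrt 2 / 2) = d / b := by
        calc (2 / Real.sqrt 2 * (d / b)) * (Real.sqrt 2 / 2) =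
            (2 / Real.sqrt 2) * (Real.sqrt 2 / 2) * (d / b) := by ring
          _ = d / b := by rw [h1, one_mul]
      have h3 : (d / b) * b = d := div_mul_cancel₀ d hb0
      have h4 : -((d / b) * a) = c := by
        field_simp
        linarith
      rw [smul_add, smul_smul, smul_smul (2 / Real.sqrt 2 * (d / b)), mul_neg, h2, smul_smul,
        smul_smul (d / b), h3, neg_mul, h4]
      exact e3
  refine not_determines S (by norm_num : 2 ≤ 4) A (am18_scale w A ?_ hcov)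
  intro i
  obtain ⟨J, t, ht, h1⟩ := hall (σ.symm i)
  refine ⟨J, t, ht, ?_⟩
  rw [← h1, Equiv.apply_symm_apply]

end ChordMaps
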