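import Pool.Agent.Helper95.AM.A18

set_option autoImplicit false

/-! # AM-19: every pair of directions is contained in a non-harmonic quadruple

`NonHarm u` only fails if for some permutation `σ`: `[σ0 σ1][σ2 σ3] = [σ0 σ3][σ1 σ2]`, `[i j] = cross (u i) (u j)`.

`harm_values`: for `PNP u` with `¬ NonHarm u` let `x = [0 2][1 3]`, `y = [0 3][1 2]` (both nonzero).  Then
`x = - y ∨ x = 2 y ∨ 2 x = y`.  Proof: with `A = [0 1][2 3]`, `B = y`, `C = - x` one has `A + B + C = 0`, and the pair
(`[σ0 σ1][σ2 σ3]`, `[σ0 σ3][σ1 σ2]`) consists of two different ones of `A, B, C` up to a common sign (24 cases: `fin_cases σ` or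
`decide`-style case distinction on `σ 0, σ 1, σ 2, σ 3`; `cross_comm`).  `A = B` means `2 B = - C = x`; `A = C` means `B = - 2 C = 2 x`;
`B = C` means `x = - y`.

`exists_quad`: let `r ≥ 5` (for `r = 4` and `r = 3` see below), `i ≠ j`.  Choose three more indices `k 0, k 1, k 2`, and for `a ≠ b`
consider the quadruple `u = (w i, w j, w (k a), w (k b))`: `x / y = [i, k a][j, k b] / ([i, k b][j, k a]) = ρ a / ρ b` with
`ρ a = [i, k a] / [j, k a] ≠ 0`.  If all three quadruples `(a, b) = (0, 1), (1, 2), (0, 2)` are harmonic, then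
`ρ 0 / ρ 1, ρ 1 / ρ 2, ρ 0 / ρ 2 ∈ {-1, 2, 1/2}`; but a product of two elements of `{-1, 2, 1/2}` is never in
`{-1, 2, 1/2}`.  So one of them is non-harmonic.  If `r = 4`, the four directions are non-harmonic by `harm_not` (AM-18) (reorder
them so that `e 0 = i`, `e 1 = j`; `NonHarm` is invariant under reordering); `r = 3` is impossible by `three_not`. -/

namespace ChordMaps

private lemma a19_key (u : Fin 4 → Plane) (p q r s : Fin 4) (h1 : p ≠ q) (h2 : p ≠ r) (h3 : p ≠ s)
    (h4 : q ≠ r) (h5 : q ≠ s) (h6 : r ≠ s)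
    (h : cross (u p) (u q) * cross (u r) (u s) = cross (u p) (u s) * cross (u q) (u r)) :
    cross (u 0) (u 2) * cross (u 1) (u 3) = - (cross (u 0) (u 3) * cross (u 1) (u 2)) ∨
    cross (u 0) (u 2) * cross (u 1) (u 3) = 2 * (cross (u 0) (u 3) * cross (u 1) (u 2)) ∨
    2 * (cross (u 0) (u 2) * cross (u 1) (u 3)) = cross (u 0) (u 3) * cross (u 1) (u 2) := by
  unfold cross at h ⊢
  generalize hx : (fun i => u i 0) = x at *
  generalize hy : (fun i => u i 1) = y at *
  have ex : ∀ i, u i 0 = x i := fun i => by rw [← hx]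
  have ey : ∀ i, u i 1 = y i := fun i => by rw [← hy]
  simp only [ex, ey] at h ⊢
  clear hx hy ex ey
  fin_cases p <;> fin_cases q <;> first | exact absurd rfl h1 | skip
  all_goals fin_cases r <;> first | exact absurd rfl h2 | exact absurd rfl h4 | skip
  all_goals fin_cases s <;> first | exact absurd rfl h3 | exact absurd rfl h5 | exact absurd rfl h6 | skip
  all_goals simp only [Fin.mk_zero, Fin.mk_one, Fin.reduceFinMk, Fin.zero_eta, Fin.isValue] at h
  all_goals first
    | (left; linear_combination h)
    | (left; linear_combination -h)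
    | (right; left; linear_combination h)
    | (right; left; linear_combination -h)
    | (right; right; linear_combination h)
    | (right; right; linear_combination -h)

theorem harm_values (u : Fin 4 → Plane) (hu : PNP u) (h : ¬ NonHarm u) :
    cross (u 0) (u 2) * cross (u 1) (u 3) = - (cross (u 0) (u 3) * cross (u 1) (u 2)) ∨
    cross (u 0) (u 2) * cross (u 1) (u 3) = 2 * (cross (u 0) (u 3) * cross (u 1) (u 2)) ∨
    2 * (cross (u 0) (u 2) * cross (u 1) (u 3)) = cross (u 0) (u 3) * cross (u 1) (u 2) := by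
  unfold NonHarm at h
  push Not at h
  obtain ⟨σ, hσ⟩ := h
  exact a19_key u (σ 0) (σ 1) (σ 2) (σ 3) (σ.injective.ne (by decide)) (σ.injective.ne (by decide))
    (σ.injective.ne (by decide)) (σ.injective.ne (by decide)) (σ.injective.ne (by decide))
    (σ.injective.ne (by decide)) hσ

private lemma a19_perm : ∀ i j : Fin 4, i ≠ j → ∃ e : Equiv.Perm (Fin 4), e 0 = i ∧ e 1 = j := by
  decide

private lemma a19_quad {r : ℕ} (w : Fin r → Plane) (hw : PNP w) (i j p q : Fin r) (hij : i ≠ j)
    (hip : i ≠ p) (hiq : i ≠ q) (hjp : j ≠ p) (hjq : j ≠ q) (hpq : p ≠ q) :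
    (∃ e : Fin 4 → Fin r, Function.Injective e ∧ e 0 = i ∧ e 1 = j ∧ NonHarm (w ∘ e)) ∨
    (cross (w i) (w p) / cross (w j) (w p) = - (cross (w i) (w q) / cross (w j) (w q)) ∨
      cross (w i) (w p) / cross (w j) (w p) = 2 * (cross (w i) (w q) / cross (w j) (w q)) ∨
      2 * (cross (w i) (w p) / cross (w j) (w p)) = cross (w i) (w q) / cross (w j) (w q)) := by
  have hinj : Function.Injective ![i, j, p, q] := by
    intro a b hab
    fin_cases a <;> fin_cases b <;> first | rfl | skip
    · exact absurd hab hij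
    · exact absurd hab hip
    · exact absurd hab hiq
    · exact absurd hab hij.symm
    · exact absurd hab hjp
    · exact absurd hab hjq
    · exact absurd hab hip.symm
    · exact absurd hab hjp.symm
    · exact absurd hab hpq
    · exact absurd hab hiq.symm
    · exact absurd hab hjq.symm
    · exact absurd hab hpq.symm
  by_cases hn : NonHarm (w ∘ ![i, j, p, q])
  · exact Or.inl ⟨![i, j, p, q], hinj, rfl, rfl, hn⟩
  · right
    have hp : PNP (w ∘ ![i, j, p, q]) := fun a b hab => hw _ _ (hinj.ne hab)
    have h := harm_values _ hp hn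
    have h1 : cross (w j) (w p) ≠ 0 := hw j p hjp
    have h2 : cross (w j) (w q) ≠ 0 := hw j q hjq
    change cross (w i) (w p) * cross (w j) (w q) = - (cross (w i) (w q) * cross (w j) (w p)) ∨
      cross (w i) (w p) * cross (w j) (w q) = 2 * (cross (w i) (w q) * cross (w j) (w p)) ∨
      2 * (cross (w i) (w p) * cross (w j) (w q)) = cross (w i) (w q) * cross (w j) (w p) at h
    rcases h with h | h | h
    · left
      field_simp
      linear_combination h
    · right; left
      field_simp
      linear_combination h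
    · right; right
      field_simp
      linear_combination h

theorem exists_quad (S : Finset Plane) (hS : ∀ v ∈ S, v ≠ 0) (hd : Determines S) {r : ℕ}
    (w : Fin r → Plane) (hr : 3 ≤ r) (hw : PNP w)
    (hcov : ∀ v ∈ S, ∃ i, ∃ c : ℝ, c ≠ 0 ∧ v = c • w i) (i j : Fin r) (hij : i ≠ j) :
    ∃ e : Fin 4 → Fin r, Function.Injective e ∧ e 0 = i ∧ e 1 = j ∧ NonHarm (w ∘ e) := by
  classical
  rcases Nat.lt_or_ge r 5 with h5 | h5
  · obtain rfl | rfl : r = 3 ∨ r = 4 := by omega
    · exact absurd hd (three_not S hS w hw hcov)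
    · have hn : NonHarm w := by
        by_contra hn
        exact harm_not S hS w hw hcov hn hd
      obtain ⟨e, h0, h1⟩ := a19_perm i j hij
      refine ⟨e, e.injective, h0, h1, ?_⟩
      intro σ
      exact hn (σ.trans e)
  · have hcard : 2 < ((Finset.univ : Finset (Fin r)) \ {i, j}).card := by
      have h1 : (({i, j} : Finset (Fin r))).card = 2 := Finset.card_pair hij
      have h2 := Finset.card_sdiff_add_card_eq_card (Finset.subset_univ ({i, j} : Finset (Fin r)))
      rw [Finset.card_univ, Fintype.card_fin, h1] at h2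
      omega
    obtain ⟨a, ha, b, hb, c, hc, hab, hac, hbc⟩ := Finset.two_lt_card.1 hcard
    simp only [Finset.mem_sdiff, Finset.mem_univ, Finset.mem_insert, Finset.mem_singleton,
      not_or, true_and] at ha hb hc
    rcases a19_quad w hw i j a b hij (Ne.symm ha.1) (Ne.symm hb.1) (Ne.symm ha.2) (Ne.symm hb.2)
      hab with h | h1
    · exact h
    rcases a19_quad w hw i j b c hij (Ne.symm hb.1) (Ne.symm hc.1) (Ne.symm hb.2) (Ne.symm hc.2)
      hbc with h | h2
    · exact h
    rcases a19_quad w hw i j a c hij (Ne.symm ha.1) (Ne.symm hc.1) (Ne.symm ha.2) (Ne.symm hc.2)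
      hac with h | h3
    · exact h
    exfalso
    have hz : cross (w i) (w c) / cross (w j) (w c) ≠ 0 :=
      div_ne_zero (hw i c (Ne.symm hc.1)) (hw j c (Ne.symm hc.2))
    rcases h1 with h1 | h1 | h1 <;> rcases h2 with h2 | h2 | h2 <;> rcases h3 with h3 | h3 | h3 <;>
      exact hz (by linarith)

end ChordMaps
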