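import Pool.Agent.Helper95.AM.Defs

set_option autoImplicit false

/-! # AM-20: the torsion case gives a finite invariant set

`hα`: all `α u - α v` (`u, v ∈ S`) have finite order.  `S` is finite, so there is `N > 0` with
`N • (α u - α v) = 0` for all `u, v ∈ S` (product of the orders over `S ×ˢ S`; or induction).  Let `(a0, b0)` be the given edge,
`t0 = h a0`, `v0 ∈ S` and `T = {t | N • (t - t0) = 0 ∨ N • (t - (α v0 - t0)) = 0}`: finite (`AddCircle.finite_torsion`), contains `t0`,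
and `α u - t ∈ T` for `t ∈ T`, `u ∈ S`: `(α u - t) - (α v0 - t0) = (α u - α v0) - (t - t0)` and
`(α u - t) - t0 = (α u - α v0) - (t - (α v0 - t0))`.
`V = {x | ∃ a b, Edge M a b ∧ h a ∈ T ∧ (x = a ∨ x = b)}` is finite (`a` is determined by `h a` (`h3`), `b` by `a`
(`Edge.out_unique`)), nonempty, contained in `M ⊆ frontier K`, and invariant: `(f b, f a)` is an edge (`edge_chord`),
`h (f b) = α u - h b = α u - h a ∈ T`.  Contradiction to `NoFin`. -/

namespace ChordMaps

variable {K M : Set Plane} {h α : Plane → AddCircle (1 : ℝ)}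

theorem torsion_case (hK : SBody K) (S : Finset Plane) (hS : ∀ v ∈ S, v ≠ 0) (hSne : S.Nonempty)
    (hfin : NoFin K (S : Set Plane)) (hM : M ⊆ frontier K) (hinv : ∀ v ∈ S, Inv K M v)
    (h1 : ∀ u ∈ S, ∀ x ∈ frontier K, h (chord K u x) = α u - h x)
    (h2 : ∀ a b, Edge M a b → h a = h b)
    (h3 : ∀ a b a' b', Edge M a b → Edge M a' b' → h a = h a' → a = a')
    (hα : ∀ u ∈ S, ∀ v ∈ S, IsOfFinAddOrder (α u - α v)) (he : ∃ a b, Edge M a b) : False := by
  classical
  obtain ⟨a0, b0, he0⟩ := he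
  obtain ⟨v0, hv0⟩ := hSne
  obtain ⟨N, hN, hNt⟩ : ∃ N : ℕ, 0 < N ∧ ∀ u ∈ S, ∀ v ∈ S, N • (α u - α v) = 0 := by
    refine ⟨∏ p ∈ S ×ˢ S, addOrderOf (α p.1 - α p.2), Finset.prod_pos ?_, ?_⟩
    · intro p hp
      exact (hα p.1 (Finset.mem_product.1 hp).1 p.2 (Finset.mem_product.1 hp).2).addOrderOf_pos
    · intro u hu v hv
      obtain ⟨c, hc⟩ := Finset.dvd_prod_of_mem
        (fun p : Plane × Plane => addOrderOf (α p.1 - α p.2))
        (Finset.mk_mem_product hu hv : ((u, v) : Plane × Plane) ∈ S ×ˢ S)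
      rw [hc, mul_nsmul, addOrderOf_nsmul_eq_zero, smul_zero]
  set t0 := h a0 with ht0
  have hfinT : ∀ c : AddCircle (1 : ℝ), {t : AddCircle (1 : ℝ) | N • (t - c) = 0}.Finite := by
    intro c
    have h4 : {t : AddCircle (1 : ℝ) | N • (t - c) = 0} =
        (fun t => t - c) ⁻¹' {u : AddCircle (1 : ℝ) | N • u = 0} := rfl
    rw [h4]
    exact (AddCircle.finite_torsion (1 : ℝ) hN).preimage (sub_left_injective.injOn)
  set T : Set (AddCircle (1 : ℝ)) :=
    {t | N • (t - t0) = 0} ∪ {t | N • (t - (α v0 - t0)) = 0} with hT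
  have hTfin : T.Finite := (hfinT t0).union (hfinT (α v0 - t0))
  have hTinv : ∀ v ∈ S, ∀ t ∈ T, α v - t ∈ T := by
    intro v hv t ht
    have h4 := hNt v hv v0 hv0
    rcases ht with ht | ht
    · right
      change N • (α v - t - (α v0 - t0)) = 0
      have h5 : α v - t - (α v0 - t0) = (α v - α v0) - (t - t0) := by abel
      have h6 : N • (t - t0) = 0 := ht
      rw [h5, nsmul_sub, h4, h6, sub_zero]
    · left
      change N • (α v - t - t0) = 0
      have h5 : α v - t - t0 = (α v - α v0) - (t - (α v0 - t0)) := by abel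
      have h6 : N • (t - (α v0 - t0)) = 0 := ht
      rw [h5, nsmul_sub, h4, h6, sub_zero]
  set A : Set Plane := {a | ∃ b, Edge M a b ∧ h a ∈ T} with hA
  set B : Set Plane := {b | ∃ a, Edge M a b ∧ h a ∈ T} with hB
  have hAfin : A.Finite := by
    refine Set.Finite.of_finite_image (f := h) (hTfin.subset ?_) ?_
    · rintro _ ⟨a, ⟨b, _, ha⟩, rfl⟩
      exact ha
    · rintro a ⟨b, hab, _⟩ a' ⟨b', hab', _⟩ haa
      exact h3 a b a' b' hab hab' haa
  have hBfin : B.Finite := by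
    refine Set.Finite.of_finite_image (f := h) (hTfin.subset ?_) ?_
    · rintro _ ⟨b, ⟨a, hab, ha⟩, rfl⟩
      rw [← h2 a b hab]
      exact ha
    · rintro b ⟨a, hab, _⟩ b' ⟨a', hab', _⟩ hbb
      have haa : a = a' := h3 a b a' b' hab hab' (by
        rw [h2 a b hab, h2 a' b' hab']
        exact hbb)
      rw [← haa] at hab'
      exact hab.out_unique hK.clo hK.str hM hab'
  refine hfin (A ∪ B) ?_ (hAfin.union hBfin) ?_ ?_
  · rintro x (⟨b, hab, _⟩ | ⟨a, hab, _⟩)
    · exact hM hab.1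
    · exact hM hab.2.1
  · refine ⟨a0, Or.inl ⟨b0, he0, Or.inl ?_⟩⟩
    change N • (h a0 - t0) = 0
    rw [ht0, sub_self, smul_zero]
  · intro v hv x hx
    have hkey : ∀ a b, Edge M a b → h a ∈ T →
        Edge M (chord K v b) (chord K v a) ∧ h (chord K v b) ∈ T := by
      intro a b hab haT
      refine ⟨edge_chord hK.cpt hK.cvx hK.str hM (hS v hv) (hinv v hv) hab, ?_⟩
      rw [h1 v hv b (hM hab.2.1), ← h2 a b hab]
      exact hTinv v hv _ haT
    rcases hx with ⟨b, hab, haT⟩ | ⟨a, hab, haT⟩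
    · obtain ⟨h4, h5⟩ := hkey x b hab haT
      exact Or.inr ⟨_, h4, h5⟩
    · obtain ⟨h4, h5⟩ := hkey a x hab haT
      exact Or.inl ⟨_, h4, h5⟩

end ChordMaps
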