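import Pool.Agent.Helper95.AM.Defs

set_option autoImplicit false

/-! # AM-21: the non-torsion case is impossible

All edges of `M` are parallel to `u`, and `α v - α u` is not of finite order for some `v ∈ S`.
* `three_parallel`: there are no three edges `(a i, b i)` of `M` with different `a i` parallel to `u ≠ 0`: `b i - a i = c i • u`, `c i ≠ 0`
  (`exists_smul_of_cross_eq_zero`).  Two of the `c i` have the same sign, say `c 0, c 1 > 0`.  The edge condition
  `0 ≤ cross (b 0 - a 0) (x - a 0) = c 0 * (cross u x - cross u (a 0))` for `x = a 1` and the same with `0, 1` exchanged give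
  `cross u (a 0) = cross u (a 1)`; so by `eq_of_cross_eq` (Flow.lean) `a 1 = chord K u (a 0)`, and also `b 0 = chord K u (a 0)`
  (`b 0 ≠ a 0`, same height), so `a 1 = b 0`; in the same way `a 0 = b 1`, so `c 1 • u = b 1 - a 1 = a 0 - b 0 = - c 0 • u`,
  contradiction.
* Let `(a, b)` be an edge, `t0 = h a`.  If there is an edge over `t` (starting point `a` with `h a = t`), then there is one over
  `α v - t` for `v ∈ S` (`edge_chord`, as in AM-09/AM-20), so there is one over `t + (α v - α u)` and over `t0 + n • (α v - α u)` for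
  all `n : ℕ`.  For `n = 0, 1, 2` these points of the circle are different, so the starting points are different. -/

namespace ChordMaps

variable {K S M : Set Plane} {h α : Plane → AddCircle (1 : ℝ)}

/-- two edges in the same direction -/
lemma two_parallel (hK : SBody K) (hM : M ⊆ frontier K) {u : Plane} (hu : u ≠ 0)
    {a b a' b' : Plane} {c c' : ℝ} (he : Edge M a b) (he' : Edge M a' b') (hne : a ≠ a')
    (hc : b - a = c • u) (hc' : b' - a' = c' • u) (hcc : 0 < c * c') : False := by
  have haf := hM he.1
  have hbf := hM he.2.1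
  have haf' := hM he'.1
  have hbf' := hM he'.2.1
  have h1 := he.2.2.2 a' he'.1
  have h2 := he'.2.2.2 a he.1
  rw [hc, cross_smul_left, cross_sub_right] at h1
  rw [hc', cross_smul_left, cross_sub_right] at h2
  have hX : cross u a' = cross u a := by
    rcases mul_pos_iff.1 hcc with ⟨hp, hp'⟩ | ⟨hn, hn'⟩
    · have h3 : 0 ≤ cross u a' - cross u a := nonneg_of_mul_nonneg_right h1 hp
      have h4 : 0 ≤ cross u a - cross u a' := nonneg_of_mul_nonneg_right h2 hp'
      linarith
    · have h3 : cross u a' - cross u a ≤ 0 := nonpos_of_mul_nonneg_right h1 hn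
      have h4 : cross u a - cross u a' ≤ 0 := nonpos_of_mul_nonneg_right h2 hn'
      linarith
  have hb : cross u b = cross u a := by
    have h3 : b = a + c • u := by rw [← hc]; abel
    rw [h3, cross_add_right, cross_smul_right, cross_self, mul_zero, add_zero]
  have hb' : cross u b' = cross u a' := by
    have h3 : b' = a' + c' • u := by rw [← hc']; abel
    rw [h3, cross_add_right, cross_smul_right, cross_self, mul_zero, add_zero]
  have e1 : a' = chord K u a :=
    (eq_of_cross_eq hK.clo hK.str hu haf haf' hX).resolve_left hne.symm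
  have e2 : b = chord K u a :=
    (eq_of_cross_eq hK.clo hK.str hu haf hbf hb).resolve_left he.2.2.1.symm
  have e3 : b' = chord K u a' :=
    (eq_of_cross_eq hK.clo hK.str hu haf' hbf' hb').resolve_left he'.2.2.1.symm
  have e4 : b = a' := by rw [e2, e1]
  have e5 : b' = a := by rw [e3, e1, chord_chord hK.clo hK.str haf]
  have h3 : (c + c') • u = 0 := by
    rw [add_smul, ← hc, ← hc', e4, e5]
    abel
  rcases smul_eq_zero.1 h3 with h | h
  · have h4 : c' = - c := by linarith
    rw [h4] at hcc
    nlinarith [mul_self_nonneg c]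
  · exact hu h

theorem three_parallel (hK : SBody K) (hM : M ⊆ frontier K) {u : Plane} (hu : u ≠ 0)
    (a b : Fin 3 → Plane) (he : ∀ i, Edge M (a i) (b i)) (hinj : Function.Injective a)
    (hpar : ∀ i, cross u (b i - a i) = 0) : False := by
  have h : ∀ i, ∃ c : ℝ, b i - a i = c • u := fun i => exists_smul_of_cross_eq_zero hu (hpar i)
  choose c hc using h
  have hc0 : ∀ i, c i ≠ 0 := by
    intro i h0
    have h1 := hc i
    rw [h0, zero_smul, sub_eq_zero] at h1
    exact (he i).2.2.1 h1.symm
  have key : ∀ i j, i ≠ j → c i * c j ≤ 0 := by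
    intro i j hij
    by_contra hcon
    push Not at hcon
    exact two_parallel hK hM hu (he i) (he j) (fun h => hij (hinj h)) (hc i) (hc j) hcon
  have h01 := key 0 1 (by decide)
  have h02 := key 0 2 (by decide)
  have h12 := key 1 2 (by decide)
  have p0 := hc0 0
  have p1 := hc0 1
  have p2 := hc0 2
  rcases lt_or_gt_of_ne p0 with n0 | n0
  · rcases lt_or_gt_of_ne p1 with n1 | n1
    · nlinarith [mul_pos_of_neg_of_neg n0 n1]
    · rcases lt_or_gt_of_ne p2 with n2 | n2
      · nlinarith [mul_pos_of_neg_of_neg n0 n2]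
      · nlinarith [mul_pos n1 n2]
  · rcases lt_or_gt_of_ne p1 with n1 | n1
    · rcases lt_or_gt_of_ne p2 with n2 | n2
      · nlinarith [mul_pos_of_neg_of_neg n1 n2]
      · nlinarith [mul_pos n0 n2]
    · nlinarith [mul_pos n0 n1]

theorem nontorsion_case (hK : SBody K) (hS : ∀ v ∈ S, v ≠ 0) (hM : M ⊆ frontier K)
    (hinv : ∀ v ∈ S, Inv K M v)
    (h1 : ∀ u ∈ S, ∀ x ∈ frontier K, h (chord K u x) = α u - h x)
    (h2 : ∀ a b, Edge M a b → h a = h b) {u v : Plane} (hu : u ∈ S) (hv : v ∈ S)
    (hα : ¬ IsOfFinAddOrder (α v - α u))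
    (hpar : ∀ a b, Edge M a b → cross u (b - a) = 0) (he : ∃ a b, Edge M a b) : False := by
  have step : ∀ w ∈ S, ∀ t : AddCircle (1 : ℝ), (∃ a b, Edge M a b ∧ h a = t) →
      ∃ a b, Edge M a b ∧ h a = α w - t := by
    rintro w hw t ⟨a, b, hab, rfl⟩
    refine ⟨chord K w b, chord K w a,
      edge_chord hK.cpt hK.cvx hK.str hM (hS w hw) (hinv w hw) hab, ?_⟩
    rw [h1 w hw b (hM hab.2.1), h2 a b hab]
  have step2 : ∀ t : AddCircle (1 : ℝ), (∃ a b, Edge M a b ∧ h a = t) →
      ∃ a b, Edge M a b ∧ h a = t + (α v - α u) := by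
    intro t ht
    have h3 := step v hv _ (step u hu t ht)
    have e : α v - (α u - t) = t + (α v - α u) := by abel
    rwa [e] at h3
  obtain ⟨a0, b0, h0⟩ := he
  have hall : ∀ n : ℕ, ∃ a b, Edge M a b ∧ h a = h a0 + n • (α v - α u) := by
    intro n
    induction n with
    | zero => exact ⟨a0, b0, h0, by simp⟩
    | succ n ih =>
      have h3 := step2 _ ih
      have e : h a0 + n • (α v - α u) + (α v - α u) = h a0 + (n + 1) • (α v - α u) := by
        rw [succ_nsmul]; abel
      rwa [e] at h3
  choose a b hab ha using hall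
  refine three_parallel hK hM (hS u hu) (fun i : Fin 3 => a i) (fun i : Fin 3 => b i)
    (fun i => hab i) ?_ (fun i => hpar _ _ (hab i))
  intro i j hij
  have h3 : a i = a j := hij
  have h4 : h a0 + (i : ℕ) • (α v - α u) = h a0 + (j : ℕ) • (α v - α u) := by
    rw [← ha, ← ha, h3]
  have h5 : (i : ℕ) • (α v - α u) = (j : ℕ) • (α v - α u) := add_left_cancel h4
  have hinj : Function.Injective (fun n : ℕ => n • (α v - α u)) :=
    injective_nsmul_iff_not_isOfFinAddOrder.2 hα
  exact Fin.ext (hinj h5)

end ChordMaps
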