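import Pool.Agent.Helper95.AM.A08
import Pool.Agent.Helper95.AM.A09
import Pool.Agent.Helper95.AM.A17
import Pool.Agent.Helper95.AM.A19
import Pool.Agent.Helper95.AM.A20
import Pool.Agent.Helper95.AM.A21

set_option autoImplicit false

/-! # AM-22: an invariant mean has full support

`NoFin K S` is `no_finite_inv` (LS/L27).  Suppose `M = msupp K m ≠ frontier K`.  `exists_coord` (AM-08) gives `h, α`, `exists_E`
(AM-09) gives `E`.  `M` is closed, nonempty, invariant (AM-05), has two different points (otherwise `M` is a finite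
invariant set) and misses a point of the frontier, so it has an edge (`exists_edge` in Flow.lean), so `E` is not zero.
`exists_directions` (Chord/MainU.lean) gives pairwise non-parallel `w : Fin r → Plane`, `3 ≤ r`, with
`w i = c • v`, `v ∈ S`, `c ≠ 0`, and every `v ∈ S` is a multiple of some `w i`.  Work with the representatives: choose
`v i ∈ S` with `w i = c i • v i` and replace `w` by `v : Fin r → Plane` (also `PNP`, also covering), so `w i ∈ S`.
Parallel elements of `S` have the same chord map (`chord_smul`), so `α u = α v` for parallel `u, v ∈ S`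
(`h (chord K u x) = α u - h x`, the frontier is nonempty).
For `i ≠ j` take the quadruple `e` of `exists_quad` (AM-19) and apply `dichotomy` (AM-17) to `u = w ∘ e`, `α ∘ w ∘ e`, `E`.  In the second case
`cross (w (e l)) (E t) = 0` for all `t`, so all edges of `M` are parallel to `w (e l)`: contradiction to `nontorsion_case` (AM-21).
So `α (w i) - α (w j)` has finite order for all `i ≠ j` (indices `e 0 = i`, `e 1 = j`), hence `α u - α v` for all `u, v ∈ S`:
contradiction to `torsion_case` (AM-20). -/

namespace ChordMaps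

theorem full_support {K : Set Plane} (hK : SBody K) (S : Finset Plane) (hS : ∀ v ∈ S, v ≠ 0)
    (hd : Determines S) {m : Set Plane → ℝ} (hm : InvMean K (S : Set Plane) m) :
    msupp K m = frontier K := by
  classical
  have hfin : NoFin K (S : Set Plane) := fun T hT h1 h2 h3 =>
    no_finite_inv hK S hS hd T hT h1 h2 (fun v hv => h3 v hv)
  have hS' : ∀ v ∈ (S : Set Plane), v ≠ 0 := fun v hv => hS v hv
  by_contra hne
  have hMf : msupp K m ⊆ frontier K := msupp_frontier K m
  have hMc : IsClosed (msupp K m) := msupp_closed hK hm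
  obtain ⟨x0, hx0⟩ := msupp_nonempty hK hm
  have hMi : ∀ v ∈ (S : Set Plane), Inv K (msupp K m) v := msupp_inv hK hS' hm
  obtain ⟨h, α, -, h1, h2, h3⟩ := exists_coord hK hS' hfin hm
  obtain ⟨E, hE1, hE2, hE3, hE4⟩ := exists_E hK hS' hMf hMi h1 h2 h3
  obtain ⟨p, hp, hpM⟩ : ∃ p ∈ frontier K, p ∉ msupp K m := by
    by_contra hcon
    push Not at hcon
    exact hne (Set.Subset.antisymm hMf hcon)
  obtain ⟨y0, hy0, hyx⟩ : ∃ y ∈ msupp K m, y ≠ x0 := by
    by_contra hcon
    push Not at hcon
    have hM1 : msupp K m = {x0} := by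
      ext y
      constructor
      · intro hy; exact hcon y hy
      · intro hy
        rw [Set.mem_singleton_iff.1 hy]
        exact hx0
    have hf : (msupp K m).Finite := by rw [hM1]; exact Set.finite_singleton x0
    exact hfin _ hMf hf ⟨x0, hx0⟩ hMi
  have hMcp : IsCompact (msupp K m) :=
    hK.cpt.of_isClosed_subset hMc (hMf.trans hK.clo.frontier_subset)
  obtain ⟨a, b, hab⟩ := exists_edge hK.clo hK.str hMf hMcp hx0 hy0 hyx.symm hp hpM
  obtain ⟨r, w0, hr, -, hw0p, hw0S, hcov0⟩ := exists_directions S hS hd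
  choose v hvS c hc hwc using hw0S
  have hvp : PNP v := by
    intro i j hij hcr
    apply hw0p i j hij
    rw [hwc i, hwc j, cross_smul_left, cross_smul_right, hcr, mul_zero, mul_zero]
  have hvcov : ∀ s ∈ S, ∃ i, ∃ d : ℝ, d ≠ 0 ∧ s = d • v i := by
    intro s hs
    obtain ⟨i, d, hd0, hsd⟩ := hcov0 s hs
    refine ⟨i, d * c i, mul_ne_zero hd0 (hc i), ?_⟩
    rw [hsd, hwc i, smul_smul]
  have hαpar : ∀ s ∈ S, ∀ i, ∀ d : ℝ, d ≠ 0 → s = d • v i → α s = α (v i) := by
    intro s hs i d hd0 hsd
    have e1 := h1 s hs x0 (hMf hx0)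
    have e2 := h1 (v i) (hvS i) x0 (hMf hx0)
    have e3 : chord K s x0 = chord K (v i) x0 := by
      rw [hsd]; exact chord_smul hK.clo hK.str (hMf hx0) hd0
    rw [e3, e2] at e1
    exact (sub_left_injective e1).symm
  have hEne : ∃ t, E t ≠ 0 := ⟨h a, by rw [hE1 a b hab]; exact sub_ne_zero.2 hab.2.2.1.symm⟩
  have key : ∀ i j : Fin r, i ≠ j → IsOfFinAddOrder (α (v i) - α (v j)) := by
    intro i j hij
    obtain ⟨e, he, he0, he1, hnh⟩ := exists_quad S hS hd v hr hvp hvcov i j hij
    have hpe : PNP (v ∘ e) := fun k l hkl => hvp _ _ (fun hh => hkl (he hh))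
    rcases dichotomy (v ∘ e) hpe hnh (fun k => α (v (e k))) E
      (fun k t => hE3 _ (hvS _) t) (fun k => hE4 _ (hvS _)) hEne with hf | ⟨l, k, hl, hk⟩
    · have := hf 0 1
      simp only [he0, he1] at this
      exact this
    · exfalso
      refine nontorsion_case hK hS' hMf hMi h1 h2 (u := v (e l)) (v := v (e k)) (hvS _) (hvS _)
        hk ?_ ⟨a, b, hab⟩
      intro a' b' hab'
      have := hl (h a')
      rw [hE1 a' b' hab'] at this
      exact this
  have hSne : S.Nonempty := ⟨v ⟨0, by omega⟩, hvS _⟩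
  refine torsion_case hK S hS hSne hfin hMf hMi h1 h2 h3 ?_ ⟨a, b, hab⟩
  intro s hs s' hs'
  obtain ⟨i, d, hd0, hsd⟩ := hvcov s hs
  obtain ⟨j, d', hd0', hsd'⟩ := hvcov s' hs'
  rw [hαpar s hs i d hd0 hsd, hαpar s' hs' j d' hd0' hsd']
  by_cases hij : i = j
  · rw [hij, sub_self]
    exact IsOfFinAddOrder.zero
  · exact key i j hij

end ChordMaps
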