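import Pool.Agent.Helper95.AM.A03
import Pool.Agent.Helper95.AM.A22

set_option autoImplicit false

/-! # AM-23: finite subsets of a non-dense invariant set expand

`V` is not dense: `closure V ≠ frontier K`.  If for every `δ > 0` there were a finite nonempty `F ⊆ closure V` with at most `δ |F|` points
`x ∈ F` with `chord K u x ∉ F` for some `u ∈ S`, then `exists_mean` (AM-03) gives an invariant mean with `m (closure V)ᶜ = 0`, so
`msupp K m ⊆ closure V` (`msupp_subset`), contradiction to `full_support` (AM-22).  So there is `δ > 0` such that all finite nonempty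
`F ⊆ closure V` have more than `δ |F|` such points.  `S` is nonempty (`F` nonempty).  The map
`x ↦ chord K u x`, where `u = u(x) ∈ S` is chosen with `chord K u x ∉ F`, from these points to
`N = nbhd F = F ∪ ⋃_{u ∈ S} chord K u '' F` minus `F` is at most `|S|`-to-one (`x = chord K u (chord K u x)`), so
`|N| ≥ |F| + δ |F| / |S|`. -/

namespace ChordMaps

open Classical in
/-- `F` together with its images under the chord maps in the directions of `S` -/
noncomputable def nbhd (K : Set Plane) (S F : Finset Plane) : Finset Plane :=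
  F ∪ S.biUnion (fun u => F.image (fun x => chord K u x))

theorem expansion {K : Set Plane} (hK : SBody K) (S : Finset Plane) (hS : ∀ v ∈ S, v ≠ 0)
    (hd : Determines S) {V : Set Plane} (hV : V ⊆ frontier K)
    (hne : closure V ≠ frontier K) :
    ∃ c : ℝ, 1 < c ∧ ∀ F : Finset Plane, (F : Set Plane) ⊆ closure V →
      c * F.card ≤ (nbhd K S F).card := by
  classical
  have hCf : closure V ⊆ frontier K := closure_minimal hV isClosed_frontier
  obtain ⟨δ, hδ0, hδ⟩ : ∃ δ : ℝ, 0 < δ ∧ ∀ F : Finset Plane, F.Nonempty →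
      (F : Set Plane) ⊆ closure V →
      δ * F.card < ((F.filter (fun x => ∃ u ∈ S, chord K u x ∉ F)).card : ℝ) := by
    by_contra hcon
    push Not at hcon
    obtain ⟨m, hm, hm0⟩ := exists_mean hK S (closure V) hCf (fun δ hδ => by
      obtain ⟨F, h1, h2, h3⟩ := hcon δ hδ
      refine ⟨F, h1, h2, ?_⟩
      convert h3)
    have h1 := full_support hK S hS hd hm
    have h2 := msupp_subset hm isClosed_closure hm0
    rw [h1] at h2
    exact hne (Set.Subset.antisymm hCf h2)
  refine ⟨1 + δ / (S.card + 1), by
    have : 0 < δ / ((S.card : ℝ) + 1) := by positivity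
    linarith, fun F hF => ?_⟩
  rcases F.eq_empty_or_nonempty with rfl | hFne
  · simp
  have h1 := hδ F hFne hF
  set P := F.filter (fun x => ∃ u ∈ S, chord K u x ∉ F) with hP
  set N := nbhd K S F with hN
  have hFN : F ⊆ N := by
    intro x hx
    rw [hN, nbhd, Finset.mem_union]
    exact Or.inl hx
  have hsub : P ⊆ S.biUnion (fun u => (N \ F).image (fun y => chord K u y)) := by
    intro x hx
    rw [hP, Finset.mem_filter] at hx
    obtain ⟨hxF, u, hu, hux⟩ := hx
    rw [Finset.mem_biUnion]
    refine ⟨u, hu, ?_⟩
    rw [Finset.mem_image]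
    refine ⟨chord K u x, ?_, chord_chord hK.clo hK.str (hCf (hF hxF))⟩
    rw [Finset.mem_sdiff]
    refine ⟨?_, hux⟩
    rw [hN, nbhd, Finset.mem_union]
    right
    rw [Finset.mem_biUnion]
    exact ⟨u, hu, Finset.mem_image_of_mem _ hxF⟩
  have h2 : P.card ≤ S.card * (N \ F).card := by
    refine (Finset.card_le_card hsub).trans ?_
    refine Finset.card_biUnion_le.trans ?_
    calc ∑ u ∈ S, ((N \ F).image (fun y => chord K u y)).card ≤ ∑ _u ∈ S, (N \ F).card :=
          Finset.sum_le_sum fun u _ => Finset.card_image_le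
      _ = S.card * (N \ F).card := by rw [Finset.sum_const, smul_eq_mul]
  have h3 : (N \ F).card + F.card = N.card := Finset.card_sdiff_add_card_eq_card hFN
  have h4 : (P.card : ℝ) ≤ S.card * (N \ F).card := by exact_mod_cast h2
  have h5 : ((N \ F).card : ℝ) + F.card = N.card := by exact_mod_cast h3
  have hS1 : (0 : ℝ) < (S.card : ℝ) + 1 := by positivity
  have h6 : δ * F.card ≤ ((S.card : ℝ) + 1) * (N \ F).card := by
    have : (0 : ℝ) ≤ ((N \ F).card : ℝ) := by positivity
    nlinarith
  have h7 : δ / ((S.card : ℝ) + 1) * F.card ≤ (N \ F).card := by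
    rw [div_mul_eq_mul_div, div_le_iff₀ hS1]
    linarith
  rw [← h5]
  have h8 : (1 + δ / ((S.card : ℝ) + 1)) * F.card =
      F.card + δ / ((S.card : ℝ) + 1) * F.card := by ring
  rw [h8]
  linarith

end ChordMaps
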