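import Pool.Agent.Helper95.AM.A22

set_option autoImplicit false

/-! # AM-24: an invariant measure forces density

`inv_measure_mean`: for a probability measure `μ` on the plane with `μ (frontier K)ᶜ = 0`, `m A = (μ A).toReal` is an invariant mean
(`MeasureTheory.measure_union`, `ENNReal.toReal_add`, ...).

`dense_of_mean`: let `m` be an invariant mean; `msupp K m = frontier K` by `full_support` (AM-22).  `exists_coord` (AM-08) gives
`h, α` with `h y - h x = cd K m x y`.  Let `V ⊆ frontier K` be nonempty, invariant for all `v ∈ S`; suppose `p ∈ frontier K` has a ball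
`ball p r` without points of `V`.
(a) If `α u - α v` is of finite order for all `u, v ∈ S`: fix `x0 ∈ frontier K`, `t0 = h x0`, `N` and the finite set `T` of circle
points as in AM-20 (`v0 ∈ S`).  `W = {x ∈ frontier K | h x ∈ T}` is nonempty and invariant (`h (f x) = α u - h x`), and it is finite
because `h` is injective on the frontier: `h x = h y` gives `cd K m x y = 0`, so by `cd_eq_zero` (AM-07) `x = y` or one of
the arcs between them is null; but for `x ≠ y` both arcs contain points of the frontier (see below), all of which are in the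
support, so they have positive measure (`arc_pos`, AM-06).  Contradiction to `NoFin`.
(b) Otherwise `γ = α u - α v` has infinite order for some `u, v ∈ S`.  Take `x ∈ V`.  `chord K u (chord K v x) ∈ V` has coordinate
`α u - (α v - h x) = h x + γ`.  So for all `n : ℕ` there is `x_n ∈ V` with `h x_n = h x + n • γ`.  The points
`n • γ` are dense in the circle (`AddCircle.denseRange_zsmul_iff`/ `dense_addSubgroup...`, or by pigeonhole: since `γ` has infinite
order there are multiples of arbitrarily small nonzero norm).  Choose `y, z ∈ frontier K ∩ ball p r`, `y ≠ z`, with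
`arc K y z ⊆ ball p r` (or `arc K z y`; one of the two arcs is small: see `exists_small_arc`).
`0 < l = m (arc K y z)`, and `l < 1`.  There is `n` with `h x_n = h y + (s : AddCircle 1)` for some real `s ∈ (0, l)`.
Now `x_n ≠ y`, `x_n ≠ z`, and `x_n ∉ arc K z y` as otherwise (`arc_split`) `m (arc K y z) ≤ m (arc K y x_n)`, the latter is in
`(0, 1)` and congruent to `s` modulo `1`, so it is `s < l`.  So `x_n ∈ arc K y z ⊆ ball p r`, contradiction.

`exists_small_arc`: for `p ∈ frontier K`, `r > 0` there are `y ≠ z` in `frontier K` with `arc K y z ⊆ ball p r` and `arc K y z ≠ ∅`,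
`arc K z y ≠ ∅`.  E.g. let `ν` be an outer normal with `inner ν x < inner ν p` for `x ∈ K \ {p}` (`exists_strict_support`, Flow.lean); by
compactness `inner ν x ≤ inner ν p - δ` for `x ∈ K`, `dist x p ≥ r`.  Let `u = rot ν` (direction of the supporting line), choose
a point `y0 ∈ K` (interior, or on the segment from `p` to an interior point) with
`inner ν p - δ < inner ν y0 < inner ν p` in `interior K`; the line through `y0` parallel to `u` meets the frontier in two
points (`exists_last`, Chord/Basic.lean, in both directions), call them `y, z` such that `p ∈ arc K y z`; all points of the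
arc are on the side of `p`, so they have `inner ν x > inner ν p - δ`, so they are in the ball. -/

namespace ChordMaps

open MeasureTheory

variable {K : Set Plane}

theorem inv_measure_mean (S : Finset Plane) (μ : Measure Plane)
    [IsProbabilityMeasure μ] (hμ : μ (frontier K)ᶜ = 0)
    (hinv : ∀ u ∈ S, ∀ A, A ⊆ frontier K → MeasurableSet A →
      μ {x | x ∈ frontier K ∧ chord K u x ∈ A} = μ A) :
    InvMean K (S : Set Plane) (fun A => (μ A).toReal) := by
  refine ⟨fun A => ENNReal.toReal_nonneg, fun A B hAB => ?_, ?_, fun A B hA hB hd => ?_,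
    fun u hu A hA hAm => ?_⟩
  · exact ENNReal.toReal_mono (measure_ne_top μ B) (measure_mono hAB)
  · have h1 : μ (frontier K) = 1 := by
      have h2 := prob_add_prob_compl (μ := μ) (isClosed_frontier (s := K)).measurableSet
      rw [hμ, add_zero] at h2
      exact h2
    show (μ (frontier K)).toReal = 1
    rw [h1]
    simp
  · show (μ (A ∪ B)).toReal = (μ A).toReal + (μ B).toReal
    rw [measure_union hd hB, ENNReal.toReal_add (measure_ne_top μ A) (measure_ne_top μ B)]
  · show (μ {x | x ∈ frontier K ∧ chord K u x ∈ A}).toReal = (μ A).toReal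
    rw [hinv u (by exact_mod_cast hu) A hA hAm]

theorem exists_small_arc (hK : SBody K) {p : Plane} (hp : p ∈ frontier K) {r : ℝ} (hr : 0 < r) :
    ∃ y ∈ frontier K, ∃ z ∈ frontier K, y ≠ z ∧ arc K y z ⊆ Metric.ball p r ∧
      (arc K y z).Nonempty ∧ (arc K z y).Nonempty := by
  have hcl : IsClosed K := hK.cpt.isClosed
  set T := tang K p with hT
  have hT1 : ‖T‖ = 1 := (tang_spec hK hp).1
  have hT0 : T ≠ 0 := by
    intro h0
    rw [h0, norm_zero] at hT1
    exact zero_ne_one hT1
  have hpos : ∀ z ∈ K, z ≠ p → 0 < cross T (z - p) := fun z hz hne => tang_pos hK hp hz hne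
  -- the function is bounded below off the ball
  obtain ⟨δ, hδ0, hδ⟩ : ∃ δ : ℝ, 0 < δ ∧ ∀ z ∈ K, z ∉ Metric.ball p r → δ ≤ cross T (z - p) := by
    rcases (K \ Metric.ball p r).eq_empty_or_nonempty with hemp | hne
    · refine ⟨1, one_pos, fun z hz hzb => ?_⟩
      exfalso
      have : z ∈ K \ Metric.ball p r := ⟨hz, hzb⟩
      rw [hemp] at this
      exact this
    · have hc : IsCompact (K \ Metric.ball p r) := hK.cpt.diff Metric.isOpen_ball
      have hcont : ContinuousOn (fun z : Plane => cross T (z - p)) (K \ Metric.ball p r) := by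
        apply Continuous.continuousOn
        unfold cross
        fun_prop
      obtain ⟨z0, hz0, hmin⟩ := hc.exists_isMinOn hne hcont
      refine ⟨cross T (z0 - p), hpos z0 hz0.1 ?_, fun z hz hzb => hmin ⟨hz, hzb⟩⟩
      rintro rfl
      exact hz0.2 (Metric.mem_ball_self hr)
  obtain ⟨c, hc⟩ := hK.int
  have hcK : c ∈ K := interior_subset hc
  have hpK : p ∈ K := hcl.frontier_subset hp
  have hcp : c ≠ p := by
    rintro rfl
    exact frontier_notMem_interior hp hc
  have hfc : 0 < cross T (c - p) := hpos c hcK hcp
  obtain ⟨s, hs0, hs1, hsδ⟩ : ∃ s : ℝ, 0 < s ∧ s < 1 ∧ s * cross T (c - p) < δ := by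
    refine ⟨min (1 / 2) (δ / (2 * cross T (c - p))), ?_, ?_, ?_⟩
    · exact lt_min (by norm_num) (by positivity)
    · exact lt_of_le_of_lt (min_le_left _ _) (by norm_num)
    · have h1 : min (1 / 2) (δ / (2 * cross T (c - p))) * cross T (c - p) ≤
          δ / (2 * cross T (c - p)) * cross T (c - p) :=
        mul_le_mul_of_nonneg_right (min_le_right _ _) hfc.le
      have h2 : δ / (2 * cross T (c - p)) * cross T (c - p) = δ / 2 := by
        field_simp
      linarith
  set y0 : Plane := p + s • (c - p) with hy0
  have hy0i : y0 ∈ interior K := by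
    have h1 : y0 = (1 - s) • p + s • c := by
      rw [hy0, smul_sub, sub_smul, one_smul]
      abel
    rw [h1]
    exact hK.str.convex.combo_closure_interior_mem_interior (subset_closure hpK) hc (by linarith)
      hs0 (by ring)
  have hy0K : y0 ∈ K := interior_subset hy0i
  have hfy0 : cross T (y0 - p) = s * cross T (c - p) := by
    rw [hy0, add_sub_cancel_left]
    simp only [cross, PiLp.smul_apply, smul_eq_mul]
    ring
  obtain ⟨t1, ht1, hf1, -⟩ := exists_last hK.cpt hy0K hT0
  obtain ⟨t2, ht2, hf2, -⟩ := exists_last hK.cpt hy0K (neg_ne_zero.2 hT0)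
  have ht1' : 0 < t1 := by
    rcases ht1.lt_or_eq with h | h
    · exact h
    · exfalso
      rw [← h, zero_smul, add_zero] at hf1
      exact frontier_notMem_interior hf1 hy0i
  have ht2' : 0 < t2 := by
    rcases ht2.lt_or_eq with h | h
    · exact h
    · exfalso
      rw [← h, zero_smul, add_zero] at hf2
      exact frontier_notMem_interior hf2 hy0i
  have key1 : ∀ z : Plane, cross (y0 + t1 • T - (y0 + t2 • (-T))) (z - (y0 + t2 • (-T))) =
      (t1 + t2) * (cross T (z - p) - s * cross T (c - p)) := by
    intro z
    rw [← hfy0]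
    simp only [cross, PiLp.smul_apply, smul_eq_mul, PiLp.add_apply, PiLp.sub_apply,
      PiLp.neg_apply]
    ring
  have key2 : ∀ z : Plane, cross (y0 + t2 • (-T) - (y0 + t1 • T)) (z - (y0 + t1 • T)) =
      -((t1 + t2) * (cross T (z - p) - s * cross T (c - p))) := by
    intro z
    rw [← hfy0]
    simp only [cross, PiLp.smul_apply, smul_eq_mul, PiLp.add_apply, PiLp.sub_apply,
      PiLp.neg_apply]
    ring
  have ht : 0 < t1 + t2 := by linarith
  refine ⟨y0 + t2 • (-T), hf2, y0 + t1 • T, hf1, ?_, ?_, ?_, ?_⟩
  · intro h
    have h1 : (t1 + t2) • T = 0 := by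
      have h2 : t2 • (-T) = t1 • T := add_left_cancel h
      rw [add_smul, ← h2]
      simp
    rcases smul_eq_zero.1 h1 with h3 | h3
    · linarith
    · exact hT0 h3
  · rintro z ⟨hz, hzc⟩
    by_contra hzb
    rw [key1] at hzc
    have h1 := hδ z (hcl.frontier_subset hz) hzb
    nlinarith
  · refine ⟨p, hp, ?_⟩
    rw [key1]
    have h1 : cross T (p - p) = 0 := by simp [cross]
    rw [h1]
    have : 0 < s * cross T (c - p) := by positivity
    nlinarith
  · obtain ⟨t, ht0, hft, -⟩ := exists_last hK.cpt hcK (sub_ne_zero.2 hcp)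
    refine ⟨_, hft, ?_⟩
    rw [key2]
    have h1 : cross T (c + t • (c - p) - p) = (1 + t) * cross T (c - p) := by
      simp only [cross, PiLp.smul_apply, smul_eq_mul, PiLp.add_apply, PiLp.sub_apply]
      ring
    rw [h1]
    have h2 : 0 < (1 + t) * cross T (c - p) - s * cross T (c - p) := by
      have : 0 < (1 + t - s) * cross T (c - p) := by
        apply mul_pos (by linarith) hfc
      nlinarith
    have h3 := mul_pos ht h2
    linarith

end ChordMaps
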