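import Pool.Agent.Helper95.AM.A24

set_option autoImplicit false

/-! # AM-25: density from an invariant mean: see the header of AM-24 (`dense_of_mean`) for the proof.

`arc_nonempty`: for `x ≠ y` in the frontier the arc `arc K x y` is nonempty: the midpoint `c` of `x, y` is in `interior K`; the ray from `c` in the
direction `d = - rot (y - x)` (so that `cross (y - x) d < 0`) leaves `K` at a point of the frontier (`exists_last`, Chord/Basic.lean).
`coord_injective`: from `arc_nonempty`, `arc_pos` and `cd_eq_zero`. -/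

namespace ChordMaps

variable {K : Set Plane}

theorem arc_nonempty (hK : SBody K) {x y : Plane} (hx : x ∈ frontier K) (hy : y ∈ frontier K)
    (hxy : x ≠ y) : (arc K x y).Nonempty := by
  have hxK : x ∈ K := hK.clo.frontier_subset hx
  have hyK : y ∈ K := hK.clo.frontier_subset hy
  have hc : (1 / 2 : ℝ) • x + (1 / 2 : ℝ) • y ∈ interior K :=
    hK.str hxK hyK hxy (by norm_num) (by norm_num) (by norm_num)
  have hv : y - x ≠ 0 := sub_ne_zero.2 hxy.symm
  have hd : - rot (y - x) ≠ 0 := neg_ne_zero.2 (rot_ne_zero hv)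
  obtain ⟨t, ht0, htf, -⟩ := exists_last hK.cpt (interior_subset hc) hd
  have htpos : 0 < t := by
    rcases lt_or_eq_of_le ht0 with h | h
    · exact h
    · rw [← h, zero_smul, add_zero] at htf
      exact absurd hc (frontier_notMem_interior htf)
  refine ⟨_, htf, ?_⟩
  have hn : 0 < cross (y - x) (rot (y - x)) := by
    have h1 : cross (y - x) (rot (y - x)) = (y - x) 0 ^ 2 + (y - x) 1 ^ 2 := by
      simp only [cross, rot]
      simp
      ring
    rw [h1]
    by_contra hcon
    apply hv
    have h2 : (y - x) 0 ^ 2 = 0 := by nlinarith [sq_nonneg ((y - x) 0), sq_nonneg ((y - x) 1)]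
    have h3 : (y - x) 1 ^ 2 = 0 := by nlinarith [sq_nonneg ((y - x) 0), sq_nonneg ((y - x) 1)]
    ext i
    fin_cases i
    · simpa using pow_eq_zero_iff (two_ne_zero) |>.1 h2
    · simpa using pow_eq_zero_iff (two_ne_zero) |>.1 h3
  have h4 : (1 / 2 : ℝ) • x + (1 / 2 : ℝ) • y + t • -rot (y - x) - x =
      (1 / 2 : ℝ) • (y - x) + t • -rot (y - x) := by
    ext i
    simp only [PiLp.add_apply, PiLp.smul_apply, PiLp.sub_apply, PiLp.neg_apply, smul_eq_mul]
    ring
  rw [h4, cross_add_right, cross_smul_right, cross_smul_right, cross_self, cross_neg_right]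
  nlinarith [mul_pos htpos hn]

theorem coord_injective (hK : SBody K) (S : Finset Plane) (hS : ∀ v ∈ S, v ≠ 0)
    (hd : Determines S) {m : Set Plane → ℝ} (hm : InvMean K (S : Set Plane) m)
    {x y : Plane} (hx : x ∈ frontier K) (hy : y ∈ frontier K) (h : cd K m x y = 0) : x = y := by
  have hfin : NoFin K (S : Set Plane) := fun T hT hTf hTn => no_finite_inv hK S hS hd T hT hTf hTn
  have hsupp := full_support hK S hS hd hm
  rcases cd_eq_zero hK hS hfin hm hx hy h with h1 | h1 | h1
  · exact h1
  · by_contra hxy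
    obtain ⟨z, hz⟩ := arc_nonempty hK hx hy hxy
    have h2 := arc_pos hm hz (by rw [hsupp]; exact hz.1)
    exact h2.ne' h1
  · by_contra hxy
    obtain ⟨z, hz⟩ := arc_nonempty hK hy hx (Ne.symm hxy)
    have h2 := arc_pos hm hz (by rw [hsupp]; exact hz.1)
    exact h2.ne' h1

/-- multiples of an element of infinite order come into every interval -/
theorem exists_multiple (γ : AddCircle (1 : ℝ)) (hγ : ¬ IsOfFinAddOrder γ)
    (t : AddCircle (1 : ℝ)) {l : ℝ} (hl : 0 < l) :
    ∃ n : ℕ, ∃ s : ℝ, 0 < s ∧ s < l ∧ n • γ = t + (s : AddCircle (1 : ℝ)) := by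
  have h1 : DenseRange (fun n : ℤ => n • γ) :=
    AddCircle.denseRange_zsmul_iff.2 (addOrderOf_eq_zero_iff.2 hγ)
  have h2 : DenseRange (fun n : ℕ => n • γ) := denseRange_zsmul_iff_nsmul.1 h1
  have h3 : IsOpen ((fun a : AddCircle (1 : ℝ) => a - t) ⁻¹'
      ((fun s : ℝ => (s : AddCircle (1 : ℝ))) '' Set.Ioo 0 l)) := by
    refine IsOpen.preimage (by fun_prop) ?_
    exact QuotientAddGroup.isOpenMap_coe _ isOpen_Ioo
  obtain ⟨n, s, hs, hns⟩ := h2.exists_mem_open h3
    ⟨t + ((l / 2 : ℝ) : AddCircle (1 : ℝ)), l / 2, ⟨by linarith, by linarith⟩, by simp⟩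
  refine ⟨n, s, hs.1, hs.2, ?_⟩
  have h4 : (s : AddCircle (1 : ℝ)) = n • γ - t := hns
  rw [h4]
  abel

/-- the values of `m` on arcs are determined by the coordinate -/
private lemma a25_value {a s : ℝ} (ha0 : 0 ≤ a) (ha1 : a ≤ 1) (hs0 : 0 < s) (hs1 : s < 1)
    (h : (a : AddCircle (1 : ℝ)) = (s : AddCircle (1 : ℝ))) : a = s := by
  have h1 : ((a - s : ℝ) : AddCircle (1 : ℝ)) = 0 := by
    rw [AddCircle.coe_sub, h, sub_self]
  obtain ⟨k, hk⟩ := (AddCircle.coe_eq_zero_iff (1 : ℝ)).1 h1
  have hk' : (k : ℝ) = a - s := by simpa using hk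
  have h2 : (k : ℝ) < 1 := by rw [hk']; linarith
  have h3 : (-1 : ℝ) < k := by rw [hk']; linarith
  have h4 : k < 1 := by exact_mod_cast h2
  have h5 : -1 < k := by exact_mod_cast h3
  have h6 : k = 0 := by omega
  rw [h6] at hk'
  push_cast at hk'
  linarith

theorem dense_of_mean (hK : SBody K) (S : Finset Plane) (hS : ∀ v ∈ S, v ≠ 0)
    (hd : Determines S) {m : Set Plane → ℝ} (hm : InvMean K (S : Set Plane) m)
    {V : Set Plane} (hV : V ⊆ frontier K) (hne : V.Nonempty) (hinv : ∀ v ∈ S, Inv K V v) :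
    closure V = frontier K := by
  have hfin : NoFin K (S : Set Plane) := fun T hT hTf hTn => no_finite_inv hK S hS hd T hT hTf hTn
  have hsupp := full_support hK S hS hd hm
  obtain ⟨h, α, hc, h1, -, -⟩ := exists_coord hK hS hfin hm
  have hinj : ∀ x ∈ frontier K, ∀ y ∈ frontier K, h x = h y → x = y := by
    intro x hx y hy hxy
    exact coord_injective hK S hS hd hm hx hy (by rw [← hc x hx y hy, hxy, sub_self])
  obtain ⟨x0, hx0V⟩ := hne
  have hx0 := hV hx0V
  obtain ⟨w, hwS, -⟩ := exists_three S hS hd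
  have hcases : (∀ u ∈ S, ∀ v ∈ S, IsOfFinAddOrder (α u - α v)) ∨
      ∃ u ∈ S, ∃ v ∈ S, ¬ IsOfFinAddOrder (α u - α v) := by
    by_contra hcon
    push Not at hcon
    obtain ⟨⟨u, hu, v, hv, huv⟩, h3⟩ := hcon
    exact huv (h3 u hu v hv)
  rcases hcases with htor | ⟨u, hu, v, hv, huv⟩
  · exfalso
    -- a common exponent
    set v0 := w 0 with hv0
    have hv0S : v0 ∈ S := hwS 0
    have hN : ∃ N : ℕ, 0 < N ∧ ∀ u ∈ S, N • (α u - α v0) = 0 := by
      refine ⟨∏ u ∈ S, addOrderOf (α u - α v0), Finset.prod_pos fun u hu =>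
        addOrderOf_pos_iff.2 (htor u hu v0 hv0S), fun u hu => ?_⟩
      obtain ⟨q, hq⟩ := Finset.dvd_prod_of_mem (fun u => addOrderOf (α u - α v0)) hu
      rw [hq, mul_comm, mul_nsmul', addOrderOf_nsmul_eq_zero, nsmul_zero]
    obtain ⟨N, hN0, hN⟩ := hN
    set t0 := h x0 with ht0
    set T : Set (AddCircle (1 : ℝ)) := {t | N • (t - t0) = 0 ∨ N • (t - (α v0 - t0)) = 0} with hT
    have hTfin : T.Finite := by
      have h3 : ∀ c : AddCircle (1 : ℝ), {t : AddCircle (1 : ℝ) | N • (t - c) = 0}.Finite := by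
        intro c
        have h4 := (AddCircle.finite_torsion (1 : ℝ) hN0).image (fun a => a + c)
        refine h4.subset fun t ht => ⟨t - c, ht, by simp⟩
      exact ((h3 t0).union (h3 (α v0 - t0))).subset fun t ht => ht
    set W : Set Plane := {x | x ∈ frontier K ∧ h x ∈ T} with hW
    refine hfin W (fun x hx => hx.1) ?_ ⟨x0, hx0, Or.inl (by rw [sub_self, nsmul_zero])⟩ ?_
    · refine Set.Finite.of_finite_image (hTfin.subset ?_) (f := h) ?_
      · rintro _ ⟨x, hx, rfl⟩
        exact hx.2
      · intro x hx y hy hxy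
        exact hinj x hx.1 y hy.1 hxy
    · intro u hu x hx
      have huS : u ∈ S := by exact_mod_cast hu
      refine ⟨chord_mem hx.1, ?_⟩
      rw [h1 u hu x hx.1]
      rcases hx.2 with h3 | h3
      · right
        have h4 : α u - h x - (α v0 - t0) = (α u - α v0) - (h x - t0) := by abel
        rw [h4, nsmul_sub, hN u huS, h3, sub_self]
      · left
        have h4 : α u - h x - t0 = (α u - α v0) - (h x - (α v0 - t0)) := by abel
        rw [h4, nsmul_sub, hN u huS, h3, sub_self]
  · refine Set.Subset.antisymm (closure_minimal hV isClosed_frontier) ?_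
    intro p hp
    by_contra hpV
    obtain ⟨r, hr, hball⟩ := Metric.isOpen_iff.1 isClosed_closure.isOpen_compl p hpV
    obtain ⟨y, hy, z, hz, hyz, hsub, hne1, hne2⟩ := exists_small_arc hK hp hr
    obtain ⟨q, hq⟩ := hne1
    have hl : 0 < m (arc K y z) := arc_pos hm hq (by rw [hsupp]; exact hq.1)
    have hle1 : ∀ a b, m (arc K a b) ≤ 1 := fun a b => by
      rw [← hm.tot]
      exact hm.mono _ _ (arc_subset K a b)
    have hseq : ∀ n : ℕ, ∃ x ∈ V, h x = h x0 + n • (α u - α v) := by
      intro n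
      induction n with
      | zero => exact ⟨x0, hx0V, by simp⟩
      | succ n ih =>
        obtain ⟨x, hxV, hx⟩ := ih
        refine ⟨chord K u (chord K v x), hinv u hu _ (hinv v hv x hxV), ?_⟩
        rw [h1 u hu _ (chord_mem (hV hxV)), h1 v hv x (hV hxV), hx, succ_nsmul]
        abel
    obtain ⟨n, s, hs0, hsl, hns⟩ := exists_multiple (α u - α v) huv (h y - h x0) hl
    obtain ⟨x, hxV, hx⟩ := hseq n
    have hxf := hV hxV
    have hxs : h x - h y = (s : AddCircle (1 : ℝ)) := by
      rw [hx, hns]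
      abel
    have hs1 : s < 1 := lt_of_lt_of_le hsl (hle1 y z)
    have hcd := hc y hy x hxf
    rw [hxs] at hcd
    have hyx : y ≠ x := by
      intro h3
      rw [h3] at hcd
      have h4 : cd K m x x = 0 := by simp [cd]
      rw [h4] at hcd
      have h5 := a25_value (a := 0) le_rfl zero_le_one hs0 hs1 (by rw [hcd]; simp)
      linarith
    have hcd' : cd K m y x = ((m (arc K y x) : ℝ) : AddCircle (1 : ℝ)) := by
      rw [cd, if_neg hyx]
    rw [hcd'] at hcd
    have hval : m (arc K y x) = s := a25_value (hm.nonneg _) (hle1 _ _) hs0 hs1 hcd.symm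
    have hxarc : x ∈ arc K y z := by
      have h3 : x ∈ frontier K := hxf
      rw [arc_frontier hK hy hz hyz] at h3
      rcases h3 with (h3 | h3) | (h3 | h3)
      · exact h3
      · exfalso
        have h4 : 0 < cross (z - y) (x - y) := by
          have h5 : cross (z - y) (x - y) = - cross (y - z) (x - z) := by
            simp only [cross, PiLp.sub_apply]
            ring
          rw [h5]
          linarith [h3.2]
        have h6 := (arc_split hK hy hz hxf h4).1
        have h7 : m (arc K y z) ≤ m (arc K y x) := by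
          apply hm.mono
          rw [h6]
          exact fun a ha => Or.inl (Or.inl ha)
        linarith
      · exact absurd h3.symm hyx
      · exfalso
        have h4 : x = z := h3
        rw [h4] at hval
        linarith
    exact hball (hsub hxarc) (subset_closure hxV)

end ChordMaps
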