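import Pool.Agent.Helper3.LS.L02
import Pool.Agent.Helper3.LS.L21
import Pool.Agent.Helper3.LS.L27

set_option autoImplicit false

/-!
# Project AM (MP_150b3d_gt): definitions

`K` is a smooth strictly convex planar body (`SBody K`), `S` a set of directions, `Inv K M v` means that
`M` is invariant under the chord map `chord K v`.
-/

namespace ChordMaps

/-- the open counterclockwise arc of the boundary from `x` to `y` (the boundary points to the right
of the directed line from `x` to `y`); empty if `x = y` -/
def arc (K : Set Plane) (x y : Plane) : Set Plane :=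
  {z | z ∈ frontier K ∧ cross (y - x) (z - x) < 0}

/-- an invariant mean: a finitely additive probability on the Borel subsets of the boundary,
invariant under the chord maps in the directions of `S` -/
structure InvMean (K S : Set Plane) (m : Set Plane → ℝ) : Prop where
  nonneg : ∀ A, 0 ≤ m A
  mono : ∀ A B, A ⊆ B → m A ≤ m B
  tot : m (frontier K) = 1
  add : ∀ A B, MeasurableSet A → MeasurableSet B → Disjoint A B → m (A ∪ B) = m A + m B
  inv : ∀ u ∈ S, ∀ A, A ⊆ frontier K → MeasurableSet A →
    m {x | x ∈ frontier K ∧ chord K u x ∈ A} = m A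

/-- the support of `m` -/
def msupp (K : Set Plane) (m : Set Plane → ℝ) : Set Plane :=
  {x | x ∈ frontier K ∧ ∀ r : ℝ, 0 < r → 0 < m (Metric.ball x r ∩ frontier K)}

/-- there is no finite nonempty invariant set -/
def NoFin (K S : Set Plane) : Prop :=
  ∀ T ⊆ frontier K, T.Finite → T.Nonempty → ¬ ∀ v ∈ S, Inv K T v

open Classical in
/-- the measure of the arc from `x` to `y` modulo one -/
noncomputable def cd (K : Set Plane) (m : Set Plane → ℝ) (x y : Plane) : AddCircle (1 : ℝ) :=
  if x = y then 0 else ((m (arc K x y) : ℝ) : AddCircle (1 : ℝ))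

/-- the exponential sum with coefficients `g t` at the frequency `k` -/
noncomputable def fc (g : AddCircle (1 : ℝ) → ℝ) (k : ℤ) : ℂ :=
  ∑' t : AddCircle (1 : ℝ), (g t : ℂ) * fourier k t

/-- four pairwise non-parallel directions which are not harmonic -/
def NonHarm (u : Fin 4 → Plane) : Prop :=
  ∀ σ : Equiv.Perm (Fin 4), cross (u (σ 0)) (u (σ 1)) * cross (u (σ 2)) (u (σ 3)) ≠
    cross (u (σ 0)) (u (σ 3)) * cross (u (σ 1)) (u (σ 2))

end ChordMaps
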