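import Pool.Agent.Helper95.AM.A23
import Pool.Agent.Helper95.AM.A25

set_option autoImplicit false

/-! # Project AM (MP_150b3d_gt): the final theorem -/

namespace ChordMaps

open MeasureTheory

variable {K : Set Plane}

/-- the invariance of the problem gives invariance under the chord maps -/
lemma inv_of_forall {V : Set Plane} (hV : V ⊆ frontier K) {v : Plane}
    (h : ∀ x ∈ V, ∀ t : ℝ, x + t • v ∈ frontier K → x + t • v ∈ V) : Inv K V v := by
  intro x hx
  obtain ⟨t, ht⟩ := chord_line K v x
  have h1 : chord K v x ∈ frontier K := chord_mem (hV hx)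
  rw [ht] at h1 ⊢
  exact h x hx t h1

/-- the neighbourhood of a finite set is the set of all boundary points on the lines through its
points in the given directions -/
lemma nbhd_eq (hK : SBody K) (S F : Finset Plane) (hS : ∀ v ∈ S, v ≠ 0) (hSne : S.Nonempty)
    (hF : (F : Set Plane) ⊆ frontier K) :
    (nbhd K S F : Set Plane) =
      {y | y ∈ frontier K ∧ ∃ x ∈ F, ∃ v ∈ S, ∃ t : ℝ, y = x + t • v} := by
  classical
  ext y
  simp only [nbhd, Finset.coe_union, Finset.coe_biUnion, Finset.coe_image, Set.mem_union,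
    Set.mem_iUnion, Set.mem_image, Finset.mem_coe, Set.mem_ofPred_eq, exists_prop]
  constructor
  · rintro (hy | ⟨u, hu, x, hx, rfl⟩)
    · obtain ⟨v, hv⟩ := hSne
      exact ⟨hF hy, y, hy, v, hv, 0, by rw [zero_smul, add_zero]⟩
    · refine ⟨chord_mem (hF hx), x, hx, u, hu, ?_⟩
      exact chord_line K u x
  · rintro ⟨hyf, x, hx, v, hv, t, rfl⟩
    have hcr : cross v (x + t • v) = cross v x := by
      rw [cross_add_right, cross_smul_right, cross_self, mul_zero, add_zero]
    rcases eq_of_cross_eq hK.clo hK.str (hS v hv) (hF hx) hyf hcr with h | h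
    · left; rw [h]; exact hx
    · right
      exact ⟨v, hv, x, hx, h.symm⟩

/-- few new points on the lines through a finite set: few points are moved out of it -/
lemma small_boundary (hK : SBody K) (S F : Finset Plane) (hS : ∀ v ∈ S, v ≠ 0)
    (hSne : S.Nonempty) (hF : (F : Set Plane) ⊆ frontier K) {ε : ℝ}
    (h : (({y | y ∈ frontier K ∧ ∃ x ∈ F, ∃ v ∈ S, ∃ t : ℝ, y = x + t • v} : Set Plane).ncard : ℝ)
      ≤ (1 + ε) * F.card) :
    open Classical in
    ((F.filter (fun x => ∃ u ∈ S, chord K u x ∉ F)).card : ℝ) ≤ S.card * (ε * F.card) := by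
  classical
  rw [← nbhd_eq hK S F hS hSne hF, Set.ncard_coe_finset] at h
  set N := nbhd K S F with hN
  have hFN : F ⊆ N := by
    intro x hx
    rw [hN, nbhd, Finset.mem_union]
    exact Or.inl hx
  have hsub : F.filter (fun x => ∃ u ∈ S, chord K u x ∉ F) ⊆
      S.biUnion (fun u => (N \ F).image (fun y => chord K u y)) := by
    intro x hx
    rw [Finset.mem_filter] at hx
    obtain ⟨hxF, u, hu, hux⟩ := hx
    rw [Finset.mem_biUnion]
    refine ⟨u, hu, ?_⟩
    rw [Finset.mem_image]
    refine ⟨chord K u x, ?_, chord_chord hK.clo hK.str (hF hxF)⟩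
    rw [Finset.mem_sdiff]
    refine ⟨?_, hux⟩
    rw [hN, nbhd, Finset.mem_union]
    right
    rw [Finset.mem_biUnion]
    exact ⟨u, hu, Finset.mem_image_of_mem _ hxF⟩
  have h2 : (F.filter (fun x => ∃ u ∈ S, chord K u x ∉ F)).card ≤ S.card * (N \ F).card := by
    refine (Finset.card_le_card hsub).trans ?_
    refine Finset.card_biUnion_le.trans ?_
    calc ∑ u ∈ S, ((N \ F).image (fun y => chord K u y)).card ≤ ∑ _u ∈ S, (N \ F).card :=
          Finset.sum_le_sum fun u _ => Finset.card_image_le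
      _ = S.card * (N \ F).card := by rw [Finset.sum_const, smul_eq_mul]
  have h3 : (N \ F).card + F.card = N.card := Finset.card_sdiff_add_card_eq_card hFN
  have h5 : ((N \ F).card : ℝ) + F.card = N.card := by exact_mod_cast h3
  have h6 : ((N \ F).card : ℝ) ≤ ε * F.card := by
    have : (1 + ε) * (F.card : ℝ) = F.card + ε * F.card := by ring
    rw [this] at h
    linarith
  calc ((F.filter (fun x => ∃ u ∈ S, chord K u x ∉ F)).card : ℝ)
      ≤ S.card * (N \ F).card := by exact_mod_cast h2
    _ ≤ S.card * (ε * F.card) := by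
        exact mul_le_mul_of_nonneg_left h6 (Nat.cast_nonneg _)

theorem amenable_main (S : Finset Plane) (hS : ∀ v ∈ S, v ≠ 0) (hd : Determines S)
    (K : Set Plane) (hK : IsCompact K) (hs : StrictConvex ℝ K) (hi : (interior K).Nonempty)
    (hsm : Smooth K)
    (h : (∃ m : Set Plane → ℝ, InvMean K (S : Set Plane) m) ∨
      ∀ ε : ℝ, 0 < ε → ∃ F : Finset Plane, F.Nonempty ∧ (F : Set Plane) ⊆ frontier K ∧
        (({y | y ∈ frontier K ∧ ∃ x ∈ F, ∃ v ∈ S, ∃ t : ℝ, y = x + t • v} :
          Set Plane).ncard : ℝ) ≤ (1 + ε) * F.card)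
    (V : Set Plane) (hV : V ⊆ frontier K) (hne : V.Nonempty)
    (hinv : ∀ v ∈ S, ∀ x ∈ V, ∀ t : ℝ, x + t • v ∈ frontier K → x + t • v ∈ V) :
    closure V = frontier K := by
  have hB : SBody K := ⟨hK, hs, hi, hsm⟩
  have hSne : S.Nonempty := by
    obtain ⟨w, hw, -⟩ := exists_three S hS hd
    exact ⟨w 0, hw 0⟩
  obtain ⟨m, hm⟩ : ∃ m : Set Plane → ℝ, InvMean K (S : Set Plane) m := by
    rcases h with h | h
    · exact h
    · obtain ⟨m, hm, -⟩ := exists_mean hB S (frontier K) subset_rfl (fun δ hδ => by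
        have hSc : (0 : ℝ) < S.card := by exact_mod_cast hSne.card_pos
        obtain ⟨F, h1, h2, h3⟩ := h (δ / S.card) (by positivity)
        refine ⟨F, h1, h2, ?_⟩
        refine (small_boundary hB S F hS hSne h2 h3).trans (le_of_eq ?_)
        field_simp)
      exact ⟨m, hm⟩
  exact dense_of_mean hB S hS hd hm hV hne (fun v hv => inv_of_forall hV (hinv v hv))

end ChordMaps
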